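import Pool.Agent.N177.FP.Seq

/-!
Several multiplicities: the abstract inequalities.
-/

set_option autoImplicit false
set_option linter.unusedSectionVars false

namespace Pool.Agent.N177.FP

open MvPolynomial Module H350MG

/-- the properties of the dimensions `v c` of the systems with `c ν` points of class `ν`, and of the
numbers `ρ c μ` of conditions imposed by one more point of class `μ` -/
structure Dims (D : Finset ℕ) (N : ℕ → ℕ) (v : (ℕ → ℕ) → ℕ) (ρ : (ℕ → ℕ) → ℕ → ℕ) : Prop where
  add : ∀ c, ∀ μ ∈ D, v c = v (Function.update c μ (c μ + 1)) + ρ c μ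
  le : ∀ c, ∀ μ ∈ D, ρ c μ ≤ N μ
  anti : ∀ c c', ∀ μ ∈ D, (∀ ν ∈ D, c ν ≤ c' ν) → ρ c' μ ≤ ρ c μ
  strict : ∀ c c', ∀ μ ∈ D, (∀ ν ∈ D, c ν ≤ c' ν) → (∀ ν ∈ D, 0 < c' ν → c ν < c' ν) → v c' ≠ 0 →
    ρ c' μ < N μ → ρ c' μ < ρ c μ
  pos : ∀ c, ∀ μ ∈ D, v c ≠ 0 → 1 ≤ ρ c μ
  congr : ∀ c c', (∀ ν ∈ D, c ν = c' ν) → v c = v c'

namespace Dims

variable {D : Finset ℕ} {N : ℕ → ℕ} {v : (ℕ → ℕ) → ℕ} {ρ : (ℕ → ℕ) → ℕ → ℕ} (H : Dims D N v ρ)

/-- one more point of each class of `A` -/
def plus (c : ℕ → ℕ) (A : Finset ℕ) : ℕ → ℕ := fun ν => if ν ∈ A then c ν + 1 else c ν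

lemma plus_insert (c : ℕ → ℕ) {A : Finset ℕ} {μ : ℕ} (h : μ ∉ A) :
    plus c (insert μ A) = Function.update (plus c A) μ (plus c A μ + 1) := by
  funext ν
  unfold plus
  by_cases h1 : ν = μ
  · subst h1
    rw [if_pos (Finset.mem_insert_self _ _), Function.update_self, if_neg h]
  · rw [Function.update_of_ne h1]
    simp [h1]

include H

lemma le_plus (c : ℕ → ℕ) (A : Finset ℕ) (hA : A ⊆ D) :
    v c ≤ v (plus c A) + ∑ ν ∈ A, N ν := by
  induction A using Finset.induction_on with
  | empty =>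
    have : plus c ∅ = c := by
      funext ν
      simp [plus]
    rw [this]
    simp
  | insert μ A hμ ih =>
    have h1 := ih ((Finset.subset_insert _ _).trans hA)
    have hμD := hA (Finset.mem_insert_self _ _)
    rw [plus_insert c hμ, Finset.sum_insert hμ]
    have h2 := H.add (plus c A) μ hμD
    have h3 := H.le (plus c A) μ hμD
    omega

/-- few conditions imply a small dimension -/
theorem small : ∀ k c, ∀ μ ∈ D, ρ c μ = k → k < N μ →
    2 * v c ≤ 2 * (k * ∑ ν ∈ (D.filter (fun ν => 0 < c ν)).erase μ, N ν) + k * (k + 1) := by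
  intro k
  induction k using Nat.strong_induction_on with
  | _ k ih =>
    intro c μ hμ hk hkN
    by_cases h0 : v c = 0
    · rw [h0, mul_zero]
      exact Nat.zero_le _
    have hk1 := H.pos c μ hμ h0
    rw [hk] at hk1
    obtain ⟨A, hA⟩ : ∃ A, A = (D.filter (fun ν => 0 < c ν)).erase μ := ⟨_, rfl⟩
    rw [← hA]
    have hμA : μ ∉ A := by rw [hA]; exact Finset.notMem_erase _ _
    have hAD : A ⊆ D := by
      rw [hA]
      exact (Finset.erase_subset _ _).trans (Finset.filter_subset _ _)
    have hmem : ∀ ν, ν ∈ A ↔ ν ≠ μ ∧ ν ∈ D ∧ 0 < c ν := by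
      intro ν
      rw [hA, Finset.mem_erase, Finset.mem_filter]
    obtain ⟨c1, hc1⟩ : ∃ c1, c1 = Function.update c μ (c μ + 1) := ⟨_, rfl⟩
    have h1 := H.add c μ hμ
    rw [← hc1, hk] at h1
    have h2 := H.le_plus c1 A hAD
    obtain ⟨S, hS⟩ : ∃ S, S = ∑ ν ∈ A, N ν := ⟨_, rfl⟩
    rw [← hS] at h2 ⊢
    obtain ⟨t, rfl⟩ : ∃ t, k = t + 1 := ⟨k - 1, by omega⟩
    by_cases h3 : v (plus c1 A) = 0
    · nlinarith
    · have hc1μ : c1 μ = c μ + 1 := by rw [hc1, Function.update_self]
      have hc1ν : ∀ ν, ν ≠ μ → c1 ν = c ν := fun ν hν => by rw [hc1, Function.update_of_ne hν]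
      have hp : ∀ ν, plus c1 A ν = if ν = μ then c μ + 1 else if ν ∈ A then c ν + 1 else c ν := by
        intro ν
        unfold plus
        by_cases h4 : ν = μ
        · subst h4
          rw [if_neg hμA, if_pos rfl, hc1μ]
        · rw [if_neg h4, hc1ν ν h4]
      have h4 : ∀ ν ∈ D, c ν ≤ plus c1 A ν := by
        intro ν _
        rw [hp]
        split_ifs with h5 h6
        · rw [h5]; omega
        · omega
        · exact le_rfl
      have h5 : ρ (plus c1 A) μ < ρ c μ := by
        refine H.strict c _ μ hμ h4 ?_ h3 (lt_of_le_of_lt (H.anti c _ μ hμ h4) (by omega))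
        intro ν hν hpos
        rw [hp] at hpos ⊢
        split_ifs with h5 h6
        · rw [h5]; omega
        · omega
        · rw [if_neg h5, if_neg h6] at hpos
          exact absurd ((hmem ν).2 ⟨h5, hν, hpos⟩) h6
      have h6 : (D.filter (fun ν => 0 < plus c1 A ν)).erase μ = A := by
        ext ν
        rw [hmem, Finset.mem_erase, Finset.mem_filter, hp]
        constructor
        · rintro ⟨h7, h8, h9⟩
          rw [if_neg h7] at h9
          refine ⟨h7, h8, ?_⟩
          by_cases h10 : ν ∈ A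
          · exact ((hmem ν).1 h10).2.2
          · rwa [if_neg h10] at h9
        · rintro ⟨h7, h8, h9⟩
          refine ⟨h7, h8, ?_⟩
          rw [if_neg h7]
          split_ifs <;> omega
      have h7 := ih (ρ (plus c1 A) μ) (by omega) (plus c1 A) μ hμ rfl (by omega)
      rw [h6, ← hS] at h7
      have h8 : ρ (plus c1 A) μ ≤ t := by omega
      have h9 : ρ (plus c1 A) μ * S ≤ t * S := Nat.mul_le_mul_right _ h8
      have h10 : ρ (plus c1 A) μ * (ρ (plus c1 A) μ + 1) ≤ t * (t + 1) :=
        Nat.mul_le_mul h8 (by omega)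
      nlinarith

/-- Many points of each class impose independent conditions. -/
theorem pos_main (c : ℕ → ℕ)
    (h : ∀ μ ∈ D, 0 < c μ → N μ * N μ + 2 * ∑ ν ∈ D, c ν * N ν +
      2 * ((N μ - 1) * ∑ ν ∈ D.filter (fun ν => μ < ν ∧ 0 < c ν), N ν) < 2 * v 0 + 3 * N μ) :
    v c + ∑ ν ∈ D, c ν * N ν = v 0 := by
  have key : ∀ k c', ∑ ν ∈ D, c' ν = k → (∀ ν ∈ D, c' ν ≤ c ν) →
      (∀ ν ∈ D, 0 < c' ν → ∀ ν' ∈ D, ν < ν' → c' ν' = c ν') →
      v c' + ∑ ν ∈ D, c' ν * N ν = v 0 := by
    intro k
    induction k using Nat.strong_induction_on with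
    | _ k ih =>
      intro c' hk hle htop
      by_cases h0 : ∀ ν ∈ D, c' ν = 0
      · rw [H.congr c' 0 h0, Finset.sum_eq_zero, add_zero]
        intro ν hν
        rw [h0 ν hν, zero_mul]
      · push Not at h0
        have hne : (D.filter (fun ν => 0 < c' ν)).Nonempty := by
          obtain ⟨ν, hν, h1⟩ := h0
          exact ⟨ν, Finset.mem_filter.2 ⟨hν, Nat.pos_of_ne_zero h1⟩⟩
        obtain ⟨μ, hμ, hmin⟩ : ∃ μ ∈ D.filter (fun ν => 0 < c' ν),
            ∀ ν ∈ D.filter (fun ν => 0 < c' ν), μ ≤ ν :=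
          ⟨_, Finset.min'_mem _ hne, fun ν hν => Finset.min'_le _ ν hν⟩
        rw [Finset.mem_filter] at hμ
        obtain ⟨hμD, hμ0⟩ := hμ
        obtain ⟨c2, hc2⟩ : ∃ c2, c2 = Function.update c' μ (c' μ - 1) := ⟨_, rfl⟩
        have hc2μ : c2 μ = c' μ - 1 := by rw [hc2, Function.update_self]
        have hc2ν : ∀ ν, ν ≠ μ → c2 ν = c' ν := fun ν hν => by rw [hc2, Function.update_of_ne hν]
        have hup : Function.update c2 μ (c2 μ + 1) = c' := by
          rw [hc2, Function.update_self, Function.update_idem, Nat.sub_add_cancel hμ0,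
            Function.update_eq_self]
        have h1 := H.add c2 μ hμD
        rw [hup] at h1
        have hs : ∀ f : ℕ → ℕ, ∑ ν ∈ D, c' ν * f ν = ∑ ν ∈ D, c2 ν * f ν + f μ := by
          intro f
          rw [← Finset.add_sum_erase D _ hμD, ← Finset.add_sum_erase D (fun ν => c2 ν * f ν) hμD]
          have h2 : ∑ ν ∈ D.erase μ, c' ν * f ν = ∑ ν ∈ D.erase μ, c2 ν * f ν :=
            Finset.sum_congr rfl fun ν hν => by rw [hc2ν ν (Finset.ne_of_mem_erase hν)]
          rw [h2, hc2μ]
          obtain ⟨a, ha⟩ : ∃ a, c' μ = a + 1 := ⟨c' μ - 1, by omega⟩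
          rw [ha, Nat.add_sub_cancel]
          ring
        have hs1 := hs (fun _ => 1)
        simp only [mul_one] at hs1
        have hs2 := hs N
        have h2 := ih (∑ ν ∈ D, c2 ν) (by omega) c2 rfl (by
          intro ν hν
          have := hle ν hν
          by_cases h3 : ν = μ
          · subst h3; rw [hc2μ]; omega
          · rw [hc2ν ν h3]; exact this) (by
          intro ν hν h3 ν' hν' hlt
          have h4 : 0 < c' ν := by
            by_cases h5 : ν = μ
            · rw [h5]; exact hμ0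
            · rwa [hc2ν ν h5] at h3
          have h5 : ν' ≠ μ := by
            rintro rfl
            have := hmin ν (Finset.mem_filter.2 ⟨hν, h4⟩)
            omega
          rw [hc2ν ν' h5]
          exact htop ν hν h4 ν' hν' hlt)
        have h3 : ρ c2 μ = N μ := by
          by_contra hne
          have hlt : ρ c2 μ < N μ := lt_of_le_of_ne (H.le c2 μ hμD) hne
          have h4 := H.small (ρ c2 μ) c2 μ hμD rfl hlt
          have h5 : (D.filter (fun ν => 0 < c2 ν)).erase μ ⊆
              D.filter (fun ν => μ < ν ∧ 0 < c ν) := by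
            intro ν hν
            rw [Finset.mem_erase, Finset.mem_filter] at hν
            obtain ⟨h6, h7, h8⟩ := hν
            rw [hc2ν ν h6] at h8
            have h9 := hmin ν (Finset.mem_filter.2 ⟨h7, h8⟩)
            refine Finset.mem_filter.2 ⟨h7, lt_of_le_of_ne h9 (Ne.symm h6), ?_⟩
            have := hle ν h7
            omega
          have h6 : ∑ ν ∈ (D.filter (fun ν => 0 < c2 ν)).erase μ, N ν ≤
              ∑ ν ∈ D.filter (fun ν => μ < ν ∧ 0 < c ν), N ν := Finset.sum_le_sum_of_subset h5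
          obtain ⟨S, hS⟩ : ∃ S, S = ∑ ν ∈ D.filter (fun ν => μ < ν ∧ 0 < c ν), N ν := ⟨_, rfl⟩
          rw [← hS] at h6
          have hcμ : 0 < c μ := lt_of_lt_of_le hμ0 (hle μ hμD)
          have h7 := h μ hμD hcμ
          rw [← hS] at h7
          have h8 : ρ c2 μ * ∑ ν ∈ (D.filter (fun ν => 0 < c2 ν)).erase μ, N ν ≤ (N μ - 1) * S :=
            Nat.mul_le_mul (by omega) h6
          have h9 : ρ c2 μ * (ρ c2 μ + 1) ≤ (N μ - 1) * N μ :=
            Nat.mul_le_mul (by omega) (by omega)
          have h10 : ∑ ν ∈ D, c' ν * N ν ≤ ∑ ν ∈ D, c ν * N ν :=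
            Finset.sum_le_sum fun ν hν => Nat.mul_le_mul_right _ (hle ν hν)
          obtain ⟨t, ht⟩ : ∃ t, N μ = t + 1 := ⟨N μ - 1, by omega⟩
          rw [ht] at h7 h8 h9 hs2
          simp only [Nat.add_sub_cancel] at h7 h8 h9
          nlinarith
        omega
  exact key _ c rfl (fun _ _ => le_rfl) (fun _ _ _ _ _ _ => rfl)

/-- Systems which are not empty have a large naive dimension. -/
theorem neg_main {κ : ℕ} (hκ : κ ∈ D) : ∀ k s c, ∑ ν ∈ D, c ν = k → v c ≠ 0 →
    (∀ ν ∈ D, min (N ν) (s + 1) ≤ ρ c ν) →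
    v c + ∑ ν ∈ D, ∑ t ∈ Finset.range (c ν), min (N ν) (s + t + 1 + if ν = κ then 1 else 0) ≤
      v 0 := by
  intro k
  induction k using Nat.strong_induction_on with
  | _ k ih =>
    intro s c hk h0 hρ
    by_cases hc : ∀ ν ∈ D, c ν = 0
    · rw [H.congr c 0 hc, Finset.sum_eq_zero, add_zero]
      intro ν hν
      rw [hc ν hν, Finset.sum_range_zero]
    · push Not at hc
      obtain ⟨ν0, hν0, hν0'⟩ := hc
      obtain ⟨cm, hcm⟩ : ∃ cm : ℕ → ℕ, cm = fun ν => c ν - 1 := ⟨_, rfl⟩
      have hcmν : ∀ ν, cm ν = c ν - 1 := fun ν => by rw [hcm]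
      -- the conditions imposed by the next points
      have hρ' : ∀ ν ∈ D, min (N ν) (s + 1 + 1) ≤ ρ cm ν := by
        intro ν hν
        have h1 := hρ ν hν
        have h2 : ρ c ν ≤ ρ cm ν := H.anti cm c ν hν fun μ _ => by rw [hcmν]; omega
        rcases lt_or_ge (ρ c ν) (N ν) with h3 | h3
        · have h4 := H.strict cm c ν hν (fun μ _ => by rw [hcmν]; omega)
            (fun μ _ h5 => by rw [hcmν]; omega) h0 h3
          refine (min_le_right _ _).trans ?_
          have h5 : s + 1 ≤ ρ c ν := by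
            rcases le_total (N ν) (s + 1) with h6 | h6
            · rw [min_eq_left h6] at h1; omega
            · rwa [min_eq_right h6] at h1
          omega
        · exact (min_le_left _ _).trans (h3.trans h2)
      -- adding the points of one layer
      have layer : ∀ A : Finset ℕ, A ⊆ D → κ ∉ A →
          v (fun ν => if ν = κ ∨ ν ∈ A then c ν else c ν - 1) +
            ((if 0 < c κ then min (N κ) (s + 1 + 1) else 0) +
              ∑ ν ∈ A, if 0 < c ν then min (N ν) (s + 1) else 0) ≤ v cm := by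
        intro A
        induction A using Finset.induction_on with
        | empty =>
          intro _ _
          rw [Finset.sum_empty, add_zero]
          by_cases h1 : 0 < c κ
          · rw [if_pos h1]
            have h2 := H.add cm κ hκ
            have h3 : Function.update cm κ (cm κ + 1) =
                fun ν => if ν = κ ∨ ν ∈ (∅ : Finset ℕ) then c ν else c ν - 1 := by
              funext ν
              by_cases h4 : ν = κ
              · subst h4
                rw [Function.update_self, hcmν]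
                simp only [true_or, if_true]
                omega
              · rw [Function.update_of_ne h4, hcmν]
                simp [h4]
            rw [h3] at h2
            have h4 := hρ' κ hκ
            omega
          · rw [if_neg h1, add_zero]
            refine le_of_eq (H.congr _ _ fun ν _ => ?_)
            show (if ν = κ ∨ ν ∈ (∅ : Finset ℕ) then c ν else c ν - 1) = cm ν
            rw [hcmν]
            split_ifs with h4
            · rcases h4 with h4 | h4
              · rw [h4]; omega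
              · simp at h4
            · rfl
        | insert μ A hμ ih2 =>
          intro hAD hκA
          have hμD := hAD (Finset.mem_insert_self _ _)
          have hμκ : μ ≠ κ := by
            rintro rfl
            exact hκA (Finset.mem_insert_self _ _)
          have h1 := ih2 ((Finset.subset_insert _ _).trans hAD)
            (fun h => hκA (Finset.mem_insert_of_mem h))
          rw [Finset.sum_insert hμ]
          by_cases h2 : 0 < c μ
          · rw [if_pos h2]
            obtain ⟨cA, hcA⟩ : ∃ cA : ℕ → ℕ,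
              cA = fun ν => if ν = κ ∨ ν ∈ A then c ν else c ν - 1 := ⟨_, rfl⟩
            rw [← hcA] at h1
            have hcAμ : cA μ = c μ - 1 := by
              rw [hcA]
              exact if_neg (fun h => h.elim hμκ hμ)
            have h3 : Function.update cA μ (cA μ + 1) =
                fun ν => if ν = κ ∨ ν ∈ insert μ A then c ν else c ν - 1 := by
              funext ν
              by_cases h4 : ν = μ
              · subst h4
                rw [Function.update_self, hcAμ]
                simp only [Finset.mem_insert, true_or, or_true, if_true]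
                omega
              · rw [Function.update_of_ne h4, hcA]
                simp [h4]
            have h4 := H.add cA μ hμD
            rw [h3] at h4
            have h5 : ρ c μ ≤ ρ cA μ := H.anti cA c μ hμD fun ν _ => by
              rw [hcA]
              show (if ν = κ ∨ ν ∈ A then c ν else c ν - 1) ≤ c ν
              split_ifs <;> omega
            have h6 := hρ μ hμD
            omega
          · rw [if_neg h2, zero_add]
            refine le_trans (le_of_eq ?_) h1
            congr 1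
            refine H.congr _ _ fun ν _ => ?_
            show (if ν = κ ∨ ν ∈ insert μ A then c ν else c ν - 1) =
              (if ν = κ ∨ ν ∈ A then c ν else c ν - 1)
            by_cases h4 : ν = μ
            · subst h4
              simp only [Finset.mem_insert, true_or, or_true, if_true]
              rw [if_neg (fun h => h.elim hμκ hμ)]
              omega
            · simp [h4]
      have h1 := layer (D.erase κ) (Finset.erase_subset _ _) (Finset.notMem_erase _ _)
      have h2 : v (fun ν => if ν = κ ∨ ν ∈ D.erase κ then c ν else c ν - 1) = v c := by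
        refine H.congr _ _ fun ν hν => ?_
        rw [if_pos]
        by_cases h3 : ν = κ
        · exact Or.inl h3
        · exact Or.inr (Finset.mem_erase.2 ⟨h3, hν⟩)
      rw [h2] at h1
      have hlt : ∑ ν ∈ D, cm ν < k := by
        rw [← hk]
        refine Finset.sum_lt_sum (fun ν _ => by rw [hcmν]; omega) ⟨ν0, hν0, ?_⟩
        rw [hcmν]
        omega
      have hcm0 : v cm ≠ 0 := by omega
      have h3 := ih _ hlt (s + 1) cm rfl hcm0 hρ'
      have h4 : ∀ ν, ∑ t ∈ Finset.range (c ν), min (N ν) (s + t + 1 + if ν = κ then 1 else 0) =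
          ∑ t ∈ Finset.range (cm ν), min (N ν) (s + 1 + t + 1 + if ν = κ then 1 else 0) +
            if 0 < c ν then min (N ν) (s + 1 + if ν = κ then 1 else 0) else 0 := by
        intro ν
        rw [hcmν]
        by_cases h5 : 0 < c ν
        · obtain ⟨a, ha⟩ : ∃ a, c ν = a + 1 := ⟨c ν - 1, by omega⟩
          rw [if_pos h5, ha, Finset.sum_range_succ', Nat.add_sub_cancel]
          congr 1
          refine Finset.sum_congr rfl fun t _ => ?_
          congr 2
          omega
        · rw [if_neg h5]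
          have : c ν = 0 := by omega
          rw [this, Nat.zero_sub, Finset.sum_range_zero, Finset.sum_range_zero, add_zero]
      have h5 : (if 0 < c κ then min (N κ) (s + 1 + 1) else 0) +
          ∑ ν ∈ D.erase κ, (if 0 < c ν then min (N ν) (s + 1) else 0) =
          ∑ ν ∈ D, if 0 < c ν then min (N ν) (s + 1 + if ν = κ then 1 else 0) else 0 := by
        rw [← Finset.add_sum_erase D _ hκ, if_pos rfl]
        congr 1
        refine Finset.sum_congr rfl fun ν hν => ?_
        rw [if_neg (Finset.ne_of_mem_erase hν), add_zero]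
      rw [h5] at h1
      have h6 : ∑ ν ∈ D, ∑ t ∈ Finset.range (c ν),
          min (N ν) (s + t + 1 + if ν = κ then 1 else 0) =
          ∑ ν ∈ D, ∑ t ∈ Finset.range (cm ν),
            min (N ν) (s + 1 + t + 1 + if ν = κ then 1 else 0) +
          ∑ ν ∈ D, (if 0 < c ν then min (N ν) (s + 1 + if ν = κ then 1 else 0) else 0) := by
        rw [← Finset.sum_add_distrib]
        exact Finset.sum_congr rfl fun ν _ => h4 ν
      rw [h6]
      omega

end Dims

section Box

/-- the index set with `c ν` indices of class `ν ∈ D` -/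
def box (D : Finset ℕ) (c : ℕ → ℕ) : Finset (ℕ × ℕ) :=
  (D.sigma fun ν => Finset.range (c ν)).map (Equiv.sigmaEquivProd ℕ ℕ).toEmbedding

lemma mem_box {D : Finset ℕ} {c : ℕ → ℕ} {p : ℕ × ℕ} :
    p ∈ box D c ↔ p.1 ∈ D ∧ p.2 < c p.1 := by
  unfold box
  rw [Finset.mem_map]
  constructor
  · rintro ⟨⟨ν, l⟩, h, rfl⟩
    rw [Finset.mem_sigma, Finset.mem_range] at h
    exact h
  · intro h
    exact ⟨⟨p.1, p.2⟩, Finset.mem_sigma.2 ⟨h.1, Finset.mem_range.2 h.2⟩, rfl⟩

lemma card_box (D : Finset ℕ) (c : ℕ → ℕ) : (box D c).card = ∑ ν ∈ D, c ν := by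
  unfold box
  rw [Finset.card_map, Finset.card_sigma]
  simp

lemma box_mono {D : Finset ℕ} {c c' : ℕ → ℕ} (h : ∀ ν ∈ D, c ν ≤ c' ν) : box D c ⊆ box D c' := by
  intro p hp
  rw [mem_box] at hp ⊢
  exact ⟨hp.1, lt_of_lt_of_le hp.2 (h _ hp.1)⟩

lemma insert_box {D : Finset ℕ} (c : ℕ → ℕ) {μ : ℕ} (hμ : μ ∈ D) :
    insert (μ, c μ) (box D c) = box D (Function.update c μ (c μ + 1)) := by
  ext ⟨ν, l⟩
  rw [Finset.mem_insert, mem_box, mem_box, Prod.mk.injEq]
  by_cases h : ν = μ
  · subst h
    simp only [true_and, Function.update_self, hμ]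
    omega
  · simp only [h, false_and, false_or]
    rw [Function.update_of_ne h]

end Box

section Inst

variable {N : ℕ} (K : Type) [Field K] [CharZero K]
  (F : Type) [Field F] [CharZero F] [Algebra (MvPolynomial ((ℕ × ℕ) × Fin N) K) F]
  [IsFractionRing (MvPolynomial ((ℕ × ℕ) × Fin N) K) F] (ε : ℕ → ℕ) (d : ℕ) (D : Finset ℕ)

/-- the dimension of the generic system -/
noncomputable def mv (c : ℕ → ℕ) : ℕ :=
  finrank F ((gen N K (ℕ × ℕ) F).V (fun p => ε p.1) d (box D c))

/-- the number of conditions imposed by the next point of class `μ` -/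
noncomputable def mr (c : ℕ → ℕ) (μ : ℕ) : ℕ :=
  finrank F ((gen N K (ℕ × ℕ) F).M (fun p => ε p.1) d (box D c) (μ, c μ))

/-- all the points of class `μ` which are not in the system impose the same number of
conditions -/
lemma mr_eq (c : ℕ → ℕ) (μ : ℕ) {l : ℕ} (hl : c μ ≤ l) :
    finrank F ((gen N K (ℕ × ℕ) F).M (fun p => ε p.1) d (box D c) (μ, l)) =
      mr (N := N) K F ε d D c μ := by
  have h1 := finrank_M_map (N := N) K F (fun p : ℕ × ℕ => ε p.1) d
    (Equiv.swap (μ, c μ) (μ, l)) (by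
      intro p
      by_cases h1 : p = (μ, c μ)
      · rw [h1, Equiv.swap_apply_left]
      · by_cases h2 : p = (μ, l)
        · rw [h2, Equiv.swap_apply_right]
        · rw [Equiv.swap_apply_of_ne_of_ne h1 h2]) (box D c) (μ, c μ)
  have hfix : ∀ p ∈ box D c, Equiv.swap (μ, c μ) (μ, l) p = p := by
    intro p hp
    rw [mem_box] at hp
    refine Equiv.swap_apply_of_ne_of_ne ?_ ?_
    · rintro rfl
      exact lt_irrefl _ hp.2
    · rintro rfl
      have := hp.2
      simp only at this
      omega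
  have h2 : (box D c).map (Equiv.swap (μ, c μ) (μ, l)).toEmbedding = box D c := by
    ext p
    rw [Finset.mem_map]
    constructor
    · rintro ⟨q, hq, rfl⟩
      show Equiv.swap (μ, c μ) (μ, l) q ∈ _
      rw [hfix q hq]
      exact hq
    · intro hp
      exact ⟨p, hp, hfix p hp⟩
  rw [h2, Equiv.swap_apply_left] at h1
  exact h1

lemma mr_strict (hε : ∀ ν ∈ D, ε ν ≤ d) (c c' : ℕ → ℕ) (μ : ℕ) (hμ : μ ∈ D)
    (h : ∀ ν ∈ D, c ν ≤ c' ν) (h1 : ∀ ν ∈ D, 0 < c' ν → c ν < c' ν)
    (h2 : mv (N := N) K F ε d D c' ≠ 0)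
    (h3 : mr (N := N) K F ε d D c' μ < finrank F (Rj F (Fin N) (d - ε μ))) :
    mr (N := N) K F ε d D c' μ < mr (N := N) K F ε d D c μ := by
  rw [← mr_eq (N := N) K F ε d D c μ (h μ hμ)]
  have hV : (gen N K (ℕ × ℕ) F).V (fun p => ε p.1) d (box D c') ≠ ⊥ := by
    intro h0
    apply h2
    rw [mv, h0, finrank_bot]
  have hx : (μ, c' μ) ∉ box D c' := by
    rw [mem_box]
    exact fun h => lt_irrefl _ h.2
  unfold mr at h3 ⊢
  refine step (N := N) K F (fun p : ℕ × ℕ => ε p.1) d hx (hε μ hμ) hV h3 ?_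
  rintro ⟨ν, l⟩ hi
  rw [mem_box] at hi
  obtain ⟨hν, hl⟩ := hi
  simp only at hν hl
  have hcν : c ν < c' ν := h1 ν hν (by omega)
  refine ⟨Equiv.swap (ν, l) (ν, c ν), ?_, ?_, ?_⟩
  · intro p
    show ε (Equiv.swap (ν, l) (ν, c ν) p).1 = ε p.1
    by_cases h4 : p = (ν, l)
    · rw [h4, Equiv.swap_apply_left]
    · by_cases h5 : p = (ν, c ν)
      · rw [h5, Equiv.swap_apply_right]
      · rw [Equiv.swap_apply_of_ne_of_ne h4 h5]
  · refine Equiv.swap_apply_of_ne_of_ne ?_ ?_
    · intro h4
      rw [Prod.mk.injEq] at h4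
      obtain ⟨rfl, h5⟩ := h4
      omega
    · intro h4
      rw [Prod.mk.injEq] at h4
      obtain ⟨rfl, h5⟩ := h4
      omega
  · intro q hq
    obtain ⟨p, hp, rfl⟩ := Finset.mem_map.1 hq
    rw [mem_box] at hp
    rw [Finset.mem_erase, mem_box]
    show Equiv.swap (ν, l) (ν, c ν) p ≠ (ν, l) ∧ (Equiv.swap (ν, l) (ν, c ν) p).1 ∈ D ∧
      (Equiv.swap (ν, l) (ν, c ν) p).2 < c' (Equiv.swap (ν, l) (ν, c ν) p).1
    have h5 : p ≠ (ν, c ν) := by
      rintro rfl
      exact lt_irrefl _ hp.2
    by_cases h4 : p = (ν, l)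
    · subst h4
      rw [Equiv.swap_apply_left]
      exact ⟨fun h => h5 h.symm, hν, hcν⟩
    · rw [Equiv.swap_apply_of_ne_of_ne h4 h5]
      exact ⟨h4, hp.1, lt_of_lt_of_le hp.2 (h _ hp.1)⟩

lemma mr_pos (hε : ∀ ν ∈ D, ε ν ≤ d) (c : ℕ → ℕ) (μ : ℕ) (hμ : μ ∈ D)
    (h : mv (N := N) K F ε d D c ≠ 0) : 1 ≤ mr (N := N) K F ε d D c μ := by
  have hV : (gen N K (ℕ × ℕ) F).V (fun p => ε p.1) d (box D c) ≠ ⊥ := by
    intro h0
    apply h
    rw [mv, h0, finrank_bot]
  have hx : (μ, c μ) ∉ box D c := by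
    rw [mem_box]
    exact fun h => lt_irrefl _ h.2
  have h1 := (gen N K (ℕ × ℕ) F).M_ne_bot (fun p : ℕ × ℕ => ε p.1) d hx (hε μ hμ) hV
  rw [Nat.one_le_iff_ne_zero]
  intro h2
  exact h1 (Submodule.finrank_eq_zero.1 h2)

lemma mr_anti (c c' : ℕ → ℕ) (μ : ℕ) (hμ : μ ∈ D)
    (h : ∀ ν ∈ D, c ν ≤ c' ν) : mr (N := N) K F ε d D c' μ ≤ mr (N := N) K F ε d D c μ := by
  rw [← mr_eq (N := N) K F ε d D c μ (h μ hμ)]
  exact Submodule.finrank_mono ((gen N K (ℕ × ℕ) F).M_mono (fun p => ε p.1) d (box_mono h) _)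

lemma mr_le (c : ℕ → ℕ) (μ : ℕ) :
    mr (N := N) K F ε d D c μ ≤ finrank F (Rj F (Fin N) (d - ε μ)) :=
  Submodule.finrank_mono ((gen N K (ℕ × ℕ) F).M_le (fun p => ε p.1) d _ _)

lemma mv_add (c : ℕ → ℕ) (μ : ℕ) (hμ : μ ∈ D) : mv (N := N) K F ε d D c =
    mv (N := N) K F ε d D (Function.update c μ (c μ + 1)) + mr (N := N) K F ε d D c μ := by
  have h1 := (gen N K (ℕ × ℕ) F).finrank_insert (fun p => ε p.1) d (box D c) (μ, c μ)
  rw [insert_box c hμ] at h1
  exact h1.symm

lemma mv_congr (c c' : ℕ → ℕ) (h : ∀ ν ∈ D, c ν = c' ν) :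
    mv (N := N) K F ε d D c = mv (N := N) K F ε d D c' := by
  have : box D c = box D c' := by
    ext p
    rw [mem_box, mem_box]
    constructor
    · rintro ⟨h1, h2⟩
      exact ⟨h1, by rwa [← h _ h1]⟩
    · rintro ⟨h1, h2⟩
      exact ⟨h1, by rwa [h _ h1]⟩
  rw [mv, mv, this]

theorem dims (hε : ∀ ν ∈ D, ε ν ≤ d) :
    Dims D (fun ν => finrank F (Rj F (Fin N) (d - ε ν))) (mv (N := N) K F ε d D)
      (mr (N := N) K F ε d D) where
  add c μ hμ := mv_add (N := N) K F ε d D c μ hμ
  le c μ _ := mr_le (N := N) K F ε d D c μ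
  anti c c' μ hμ h := mr_anti (N := N) K F ε d D c c' μ hμ h
  strict c c' μ hμ h h1 h2 h3 := mr_strict (N := N) K F ε d D hε c c' μ hμ h h1 h2 h3
  pos c μ hμ h := mr_pos (N := N) K F ε d D hε c μ hμ h
  congr c c' h := mv_congr (N := N) K F ε d D c c' h

lemma mv_zero : mv (N := N) K F ε d D 0 = finrank F (Rj F (Fin N) d) := by
  have : (gen N K (ℕ × ℕ) F).V (fun p => ε p.1) d (box D 0) = Rj F (Fin N) d := by
    ext p
    rw [PS.mem_V]
    constructor
    · exact fun h => h.1
    · refine fun h => ⟨h, fun i hi => ?_⟩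
      rw [mem_box] at hi
      exact absurd hi.2 (Nat.not_lt_zero _)
  rw [mv, this]

end Inst

end Pool.Agent.N177.FP
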