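import Pool.Agent.N177.FP.Seq
import Pool.Agent.H350R3.MG.PLem
import Pool.Agent.H350R3.MG.Fat

/-!
Equal multiplicities: the dimension for general points over the complex numbers.
-/

set_option autoImplicit false
set_option linter.unusedSectionVars false

namespace Pool.Agent.N177.FP

open MvPolynomial Module H350MG

lemma finrank_Rj_fin (F : Type) [Field F] [CharZero F] (n k : ℕ) :
    finrank F (Rj F (Fin (n + 1)) k) = (n + k).choose n := by
  rw [finrank_Rj, Fintype.card_fin]
  have h1 : n + 1 + k - 1 = n + k := by omega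
  rw [h1, ← Nat.choose_symm_add]

theorem uniform_dim (n r m d : ℕ) (hm : 1 ≤ m) (hmd : m ≤ d) :
    ∃ v : ℕ, (∃ Φ : MvPolynomial (Fin r × Fin (n + 1)) ℂ, Φ ≠ 0 ∧
      ∀ w : Fin r × Fin (n + 1) → ℂ, eval w Φ ≠ 0 →
        finrank ℂ (H350MG.K (ptList (fun _ : Fin r => d + 1 - m) w) d) = v) ∧
      v ≤ (n + d).choose n ∧
      (n + d).choose n ≤ v + r * (n + m - 1).choose n ∧
      8 * v + 1 ≤ (n + m - 1).choose n * (n + m - 1).choose n +
        8 * ((n + d).choose n - r * (n + m - 1).choose n) ∧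
      ((n + m - 1).choose n * (2 * r + (n + m - 1).choose n) <
        2 * (n + d).choose n + 3 * (n + m - 1).choose n →
        v + r * (n + m - 1).choose n = (n + d).choose n) ∧
      ((n + d).choose n < ∑ t ∈ Finset.range (r + 1), min ((n + m - 1).choose n) (t + 1) →
        v = 0) := by
  let A := MvPolynomial (ℕ × Fin (n + 1)) ℂ
  let F := FractionRing A
  have : CharZero F := algebraRat.charZero F
  have hN : finrank F (Rj F (Fin (n + 1)) (d - (d + 1 - m))) = (n + m - 1).choose n := by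
    rw [finrank_Rj_fin]
    congr 1
    omega
  have hE : finrank F (Rj F (Fin (n + 1)) d) = (n + d).choose n := finrank_Rj_fin F n d
  have he : d + 1 - m ≤ d := by omega
  have h1 := ua_ge (N := n + 1) ℂ F (d + 1 - m) d r
  have h2 := ua_defect (N := n + 1) ℂ F (d + 1 - m) d he r (by
    rw [hN]; exact Nat.choose_pos (by omega))
  have h3 := ua_pos (N := n + 1) ℂ F (d + 1 - m) d he r
  have h4 := ua_neg (N := n + 1) ℂ F (d + 1 - m) d he r
  have h5 : ua (N := n + 1) ℂ F (d + 1 - m) d r ≤ finrank F (Rj F (Fin (n + 1)) d) :=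
    Submodule.finrank_mono ((gen (n + 1) ℂ ℕ F).V_le _ d _)
  rw [hE] at h5
  rw [hN, hE] at h1 h2 h3 h4
  refine ⟨ua (N := n + 1) ℂ F (d + 1 - m) d r, ?_, h5, h1, h2, h3, h4⟩
  obtain ⟨Φ, hΦ0, hΦ⟩ := general_dim (N := n + 1) ℂ F (fun _ : ℕ => d + 1 - m) d
    (fun i : Fin r => (i : ℕ)) Fin.val_injective
  refine ⟨Φ, hΦ0, fun w hw => ?_⟩
  rw [hΦ w hw]
  have h6 : Finset.univ.image (fun i : Fin r => (i : ℕ)) = Finset.range r := by
    ext j
    rw [Finset.mem_image, Finset.mem_range]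
    constructor
    · rintro ⟨i, _, rfl⟩
      exact i.2
    · intro hj
      exact ⟨⟨j, hj⟩, Finset.mem_univ _, rfl⟩
  rw [h6]
  rfl

end Pool.Agent.N177.FP
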