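import Pool.Agent.N177.FP.Mix
import Pool.Agent.N177.FP.Unif

/-!
Several multiplicities: the dimension for general points over the complex numbers.
-/

set_option autoImplicit false
set_option linter.unusedSectionVars false

namespace Pool.Agent.N177.FP

open MvPolynomial Module H350MG

lemma two_sum_min (N c : ℕ) :
    (2 * c * N : ℤ) - N * (N - 1) ≤ 2 * ((∑ t ∈ Finset.range c, min N (t + 1) : ℕ) : ℤ) := by
  rcases c with _ | r
  · simp only [Finset.range_zero, Finset.sum_empty]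
    rcases Nat.eq_zero_or_pos N with h | h
    · subst h; simp
    · have h1 : (1 : ℤ) ≤ N := by exact_mod_cast h
      push_cast
      nlinarith
  · have h := sum_min_ge N r
    have h1 : (N * (2 * r + 3) : ℤ) ≤
        2 * ((∑ t ∈ Finset.range (r + 1), min N (t + 1) : ℕ) : ℤ) + N * N := by exact_mod_cast h
    push_cast at h1 ⊢
    nlinarith

lemma two_sum_min' (N c : ℕ) (hN : 1 ≤ N) :
    (2 * c * N : ℤ) - (N - 1) * (N - 2) ≤
      2 * ((∑ t ∈ Finset.range c, min N (t + 1 + 1) : ℕ) : ℤ) := by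
  have h := two_sum_min N (c + 1)
  rw [Finset.sum_range_succ'] at h
  rw [Nat.zero_add, min_eq_right hN] at h
  push_cast at h ⊢
  nlinarith

/-- the enumeration of the points by their classes -/
noncomputable def enum {k : ℕ} (m : Fin k → ℕ) (i : Fin k) : ℕ × ℕ :=
  (m i, (Finset.univ.filter fun j : Fin k => j < i ∧ m j = m i).card)

lemma enum_inj {k : ℕ} (m : Fin k → ℕ) : Function.Injective (enum m) := by
  have key : ∀ i j : Fin k, i < j → enum m i ≠ enum m j := by
    intro i j hij h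
    unfold enum at h
    rw [Prod.mk.injEq] at h
    obtain ⟨h1, h2⟩ := h
    have h3 : (Finset.univ.filter fun l : Fin k => l < i ∧ m l = m i) ⊂
        (Finset.univ.filter fun l : Fin k => l < j ∧ m l = m j) := by
      rw [Finset.ssubset_iff_of_subset]
      · refine ⟨i, Finset.mem_filter.2 ⟨Finset.mem_univ _, hij, h1⟩, ?_⟩
        intro h4
        exact lt_irrefl _ (Finset.mem_filter.1 h4).2.1
      · intro l hl
        rw [Finset.mem_filter] at hl ⊢
        exact ⟨hl.1, hl.2.1.trans hij, hl.2.2.trans h1⟩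
    have h4 := Finset.card_lt_card h3
    omega
  intro i j h
  rcases lt_trichotomy i j with h1 | h1 | h1
  · exact absurd h (key i j h1)
  · exact h1
  · exact absurd h.symm (key j i h1)

/-- the number of the points of multiplicity `ν` -/
def cnt {k : ℕ} (m : Fin k → ℕ) (ν : ℕ) : ℕ := (Finset.univ.filter fun i : Fin k => m i = ν).card

lemma sum_cnt {k : ℕ} (m : Fin k → ℕ) (f : ℕ → ℕ) :
    ∑ ν ∈ Finset.univ.image m, cnt m ν * f ν = ∑ i, f (m i) := by
  rw [Finset.sum_comp f m]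
  rfl

lemma image_enum {k : ℕ} (m : Fin k → ℕ) :
    Finset.univ.image (enum m) = box (Finset.univ.image m) (cnt m) := by
  refine Finset.eq_of_subset_of_card_le ?_ ?_
  · intro p hp
    obtain ⟨i, _, rfl⟩ := Finset.mem_image.1 hp
    rw [mem_box]
    refine ⟨Finset.mem_image_of_mem m (Finset.mem_univ i), ?_⟩
    show (Finset.univ.filter fun j : Fin k => j < i ∧ m j = m i).card <
      (Finset.univ.filter fun j : Fin k => m j = m i).card
    refine Finset.card_lt_card ?_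
    rw [Finset.ssubset_iff_of_subset]
    · refine ⟨i, Finset.mem_filter.2 ⟨Finset.mem_univ _, rfl⟩, ?_⟩
      intro h4
      exact lt_irrefl _ (Finset.mem_filter.1 h4).2.1
    · intro l hl
      rw [Finset.mem_filter] at hl ⊢
      exact ⟨hl.1, hl.2.2⟩
  · rw [card_box, Finset.card_image_of_injective _ (enum_inj m)]
    have h := sum_cnt m (fun _ => 1)
    simp only [mul_one] at h
    rw [h]
    simp

lemma cnt_pos {k : ℕ} (m : Fin k → ℕ) (i : Fin k) : 0 < cnt m (m i) :=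
  Finset.card_pos.2 ⟨i, Finset.mem_filter.2 ⟨Finset.mem_univ _, rfl⟩⟩

theorem mixed_dim (n k d : ℕ) (m : Fin k → ℕ) (hm : ∀ i, 1 ≤ m i) (hmd : ∀ i, m i ≤ d) :
    ∃ v : ℕ, (∃ Φ : MvPolynomial (Fin k × Fin (n + 1)) ℂ, Φ ≠ 0 ∧
      ∀ w : Fin k × Fin (n + 1) → ℂ, eval w Φ ≠ 0 →
        finrank ℂ (H350MG.K (ptList (fun i : Fin k => d + 1 - m i) w) d) = v) ∧
      ((∀ i, ((n + m i - 1).choose n : ℤ) * ((n + m i - 1).choose n - 3) +
          2 * (((n + m i - 1).choose n - 1) *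
            ∑ ν ∈ (Finset.univ.image m).filter (m i < ·), ((n + ν - 1).choose n : ℤ)) <
          2 * (((n + d).choose n : ℤ) - ∑ i, ((n + m i - 1).choose n : ℤ))) →
        (v : ℤ) = ((n + d).choose n : ℤ) - ∑ i, ((n + m i - 1).choose n : ℤ)) ∧
      ((∃ i, ((n + m i - 1).choose n : ℤ) * ((n + m i - 1).choose n - 3) +
          ∑ ν ∈ (Finset.univ.image m).erase (m i),
            ((n + ν - 1).choose n : ℤ) * ((n + ν - 1).choose n - 1) <
          -(2 * (((n + d).choose n : ℤ) - ∑ i, ((n + m i - 1).choose n : ℤ)))) → v = 0) := by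
  let A := MvPolynomial ((ℕ × ℕ) × Fin (n + 1)) ℂ
  let F := FractionRing A
  have : CharZero F := algebraRat.charZero F
  obtain ⟨D, hD⟩ : ∃ D, D = Finset.univ.image m := ⟨_, rfl⟩
  obtain ⟨ε, hε⟩ : ∃ ε : ℕ → ℕ, ε = fun ν => d + 1 - ν := ⟨_, rfl⟩
  have hDm : ∀ ν ∈ D, 1 ≤ ν ∧ ν ≤ d := by
    intro ν hν
    rw [hD] at hν
    obtain ⟨i, _, rfl⟩ := Finset.mem_image.1 hν
    exact ⟨hm i, hmd i⟩
  have hεd : ∀ ν ∈ D, ε ν ≤ d := by
    intro ν hν
    have := hDm ν hν
    rw [hε]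
    show d + 1 - ν ≤ d
    omega
  have H := dims (N := n + 1) ℂ F ε d D hεd
  have hN : ∀ ν ∈ D, finrank F (Rj F (Fin (n + 1)) (d - ε ν)) = (n + ν - 1).choose n := by
    intro ν hν
    have := hDm ν hν
    rw [finrank_Rj_fin, hε]
    show (n + (d - (d + 1 - ν))).choose n = _
    congr 1
    omega
  have hE : mv (N := n + 1) ℂ F ε d D 0 = (n + d).choose n := by
    rw [mv_zero, finrank_Rj_fin]
  obtain ⟨N, hNdef⟩ : ∃ N : ℕ → ℕ, N = fun ν => finrank F (Rj F (Fin (n + 1)) (d - ε ν)) :=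
    ⟨_, rfl⟩
  rw [← hNdef] at H
  have hN' : ∀ ν ∈ D, N ν = (n + ν - 1).choose n := by
    intro ν hν
    rw [hNdef]
    exact hN ν hν
  have hmD : ∀ i, m i ∈ D := fun i => by
    rw [hD]; exact Finset.mem_image_of_mem m (Finset.mem_univ i)
  have hNpos : ∀ ν ∈ D, 1 ≤ N ν := by
    intro ν hν
    rw [hN' ν hν]
    have := hDm ν hν
    exact Nat.choose_pos (by omega)
  have hsum : ∑ ν ∈ D, cnt m ν * N ν = ∑ i, (n + m i - 1).choose n := by
    rw [hD, sum_cnt]
    exact Finset.sum_congr rfl fun i _ => hN' _ (hmD i)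
  refine ⟨mv (N := n + 1) ℂ F ε d D (cnt m), ?_, ?_, ?_⟩
  · obtain ⟨Φ, hΦ0, hΦ⟩ := general_dim (N := n + 1) ℂ F (fun p : ℕ × ℕ => ε p.1) d
      (enum m) (enum_inj m)
    refine ⟨Φ, hΦ0, fun w hw => ?_⟩
    have h1 := hΦ w hw
    rw [image_enum, ← hD] at h1
    have h2 : (fun i : Fin k => ε (enum m i).1) = fun i : Fin k => d + 1 - m i := by
      funext i
      rw [hε]
      rfl
    rw [h2] at h1
    exact h1
  · intro h
    have h1 := H.pos_main (cnt m) (by
      intro μ hμ _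
      have hμ' := hμ
      rw [hD] at hμ'
      obtain ⟨i, _, rfl⟩ := Finset.mem_image.1 hμ'
      have h2 := h i
      have h3 : D.filter (fun ν => m i < ν ∧ 0 < cnt m ν) = D.filter (m i < ·) := by
        refine Finset.filter_congr fun ν hν => ?_
        rw [hD] at hν
        obtain ⟨j, _, rfl⟩ := Finset.mem_image.1 hν
        simp [cnt_pos]
      have h4 : ∑ ν ∈ (Finset.univ.image m).filter (m i < ·), ((n + ν - 1).choose n : ℤ) =
          ((∑ ν ∈ D.filter (m i < ·), N ν : ℕ) : ℤ) := by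
        rw [← hD, Nat.cast_sum]
        exact Finset.sum_congr rfl fun ν hν => by rw [hN' ν (Finset.mem_filter.1 hν).1]
      rw [h4] at h2
      rw [h3, hsum, hE]
      have h5 : ∑ i, ((n + m i - 1).choose n : ℤ) = ((∑ i, (n + m i - 1).choose n : ℕ) : ℤ) := by
        push_cast
        rfl
      rw [h5] at h2
      rw [← hN' _ hμ] at h2
      have h6 := hNpos _ hμ
      obtain ⟨T, hT⟩ : ∃ T, T = ∑ ν ∈ D.filter (m i < ·), N ν := ⟨_, rfl⟩
      obtain ⟨B, hB⟩ : ∃ B, B = ∑ i, (n + m i - 1).choose n := ⟨_, rfl⟩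
      rw [← hT, ← hB] at h2 ⊢
      obtain ⟨a, ha⟩ : ∃ a, N (m i) = a + 1 := ⟨N (m i) - 1, by omega⟩
      rw [ha] at h2 ⊢
      rw [Nat.add_sub_cancel]
      zify
      push_cast at h2
      nlinarith)
    rw [hsum, hE] at h1
    have h2 : (mv (N := n + 1) ℂ F ε d D (cnt m) : ℤ) +
        ((∑ i, (n + m i - 1).choose n : ℕ) : ℤ) = ((n + d).choose n : ℤ) := by
      exact_mod_cast h1
    push_cast at h2
    linarith
  · rintro ⟨i, hi⟩
    by_contra h0
    have h1 := H.neg_main (hmD i) _ 0 (cnt m) rfl h0 (fun ν hν =>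
      (min_le_right _ _).trans (H.pos _ ν hν h0))
    rw [hE] at h1
    rw [← Finset.add_sum_erase D _ (hmD i)] at h1
    simp only [if_true, zero_add] at h1
    have h2 : ∀ ν ∈ D.erase (m i), ∑ t ∈ Finset.range (cnt m ν),
        min (N ν) (t + 1 + if ν = m i then 1 else 0) =
        ∑ t ∈ Finset.range (cnt m ν), min (N ν) (t + 1) := by
      intro ν hν
      refine Finset.sum_congr rfl fun t _ => ?_
      rw [if_neg (Finset.ne_of_mem_erase hν), add_zero]
    rw [Finset.sum_congr rfl h2] at h1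
    have h3 := two_sum_min' (N (m i)) (cnt m (m i)) (hNpos _ (hmD i))
    have h4 : ∑ ν ∈ D.erase (m i), ((2 * cnt m ν * N ν : ℤ) - N ν * (N ν - 1)) ≤
        2 * ((∑ ν ∈ D.erase (m i), ∑ t ∈ Finset.range (cnt m ν), min (N ν) (t + 1) : ℕ) : ℤ) := by
      rw [Nat.cast_sum, Finset.mul_sum]
      exact Finset.sum_le_sum fun ν _ => two_sum_min (N ν) (cnt m ν)
    rw [Finset.sum_sub_distrib] at h4
    have h5 : (∑ ν ∈ D.erase (m i), (2 * cnt m ν * N ν : ℤ)) + 2 * cnt m (m i) * N (m i) =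
        2 * ∑ i, ((n + m i - 1).choose n : ℤ) := by
      have h6 : ((∑ ν ∈ D, cnt m ν * N ν : ℕ) : ℤ) = ∑ i, ((n + m i - 1).choose n : ℤ) := by
        rw [hsum]
        push_cast
        rfl
      rw [← h6, ← Finset.add_sum_erase D _ (hmD i)]
      push_cast
      rw [mul_add, Finset.mul_sum]
      have h7 : ∑ ν ∈ D.erase (m i), (2 * cnt m ν * N ν : ℤ) =
          ∑ ν ∈ D.erase (m i), 2 * ((cnt m ν : ℤ) * N ν) :=
        Finset.sum_congr rfl fun ν _ => by ring
      rw [h7]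
      ring
    have h6 : ∑ ν ∈ (Finset.univ.image m).erase (m i),
            ((n + ν - 1).choose n : ℤ) * ((n + ν - 1).choose n - 1) =
        ∑ ν ∈ D.erase (m i), (N ν : ℤ) * (N ν - 1) := by
      rw [← hD]
      exact Finset.sum_congr rfl fun ν hν => by rw [hN' ν (Finset.mem_of_mem_erase hν)]
    rw [h6, ← hN' _ (hmD i)] at hi
    have h7 : (1 : ℤ) ≤ (mv (N := n + 1) ℂ F ε d D (cnt m) : ℤ) := by
      exact_mod_cast Nat.one_le_iff_ne_zero.2 h0
    have h8 : (mv (N := n + 1) ℂ F ε d D (cnt m) : ℤ) +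
        (((∑ t ∈ Finset.range (cnt m (m i)), min (N (m i)) (t + 1 + 1) : ℕ) : ℤ) +
        ((∑ ν ∈ D.erase (m i), ∑ t ∈ Finset.range (cnt m ν), min (N ν) (t + 1) : ℕ) : ℤ)) ≤
        ((n + d).choose n : ℤ) := by
      exact_mod_cast h1
    nlinarith

end Pool.Agent.N177.FP
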