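import Pool.Agent.N177.FK.Gl
import Pool.Agent.H350R3.MG.Gen

/-!
Systems of generic points: derivations and the action of the general linear group.
-/

set_option autoImplicit false
set_option linter.unusedSectionVars false

namespace Pool.Agent.N177.FP

open MvPolynomial Module H350MG
open Pool.Agent.N177.FK (cw cw_add cw_zero cw_smul cw_mul cw_sum cw_pderiv cw_X coeff_cw'
  cw_sum_der cw_hom eu eu_hom eu_add eu_smul cw_add_der cw_monomial hom_induct cw_smul_der)

variable {N : ℕ} {Ω : Type} [Field Ω] [CharZero Ω]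

lemma cw_D (δ : Derivation ℤ Ω Ω) (v : Fin N → Ω) (F : MvPolynomial (Fin N) Ω) :
    cw δ (D v F) = D v (cw δ F) + D (fun c => δ (v c)) F := by
  rw [D_apply, D_apply, D_apply, cw_sum, ← Finset.sum_add_distrib]
  refine Finset.sum_congr rfl fun i _ => ?_
  rw [cw_smul, cw_pderiv, add_comm]

lemma D_zero (F : MvPolynomial (Fin N) Ω) : D (fun _ => (0 : Ω)) F = 0 := by
  rw [D_apply]
  exact Finset.sum_eq_zero fun i _ => zero_smul _ _

lemma cw_Dpow (δ : Derivation ℤ Ω Ω) (v : Fin N → Ω) (hv : ∀ c, δ (v c) = 0) (k : ℕ)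
    (F : MvPolynomial (Fin N) Ω) : cw δ ((D v ^ k) F) = (D v ^ k) (cw δ F) := by
  induction k generalizing F with
  | zero => simp
  | succ k ih =>
    rw [pow_succ, Module.End.mul_apply, Module.End.mul_apply, ih, cw_D]
    have h1 : (fun c => δ (v c)) = fun _ => (0 : Ω) := funext hv
    rw [h1, D_zero, add_zero]

lemma D_X (v : Fin N → Ω) (a : Fin N) : D v (X a) = C (v a) := by
  classical
  rw [D_apply, Finset.sum_eq_single a]
  · rw [pderiv_X_self, smul_eq_C_mul, mul_one]
  · intro b _ hb
    rw [pderiv_X_of_ne hb.symm, smul_zero]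
  · intro h
    exact absurd (Finset.mem_univ _) h

lemma eu_D (a b : Fin N) (v : Fin N → Ω) (F : MvPolynomial (Fin N) Ω) :
    eu a b (D v F) + v a • pderiv b F = D v (eu a b F) := by
  unfold eu
  rw [pderiv_D, D_mul, D_X, smul_eq_C_mul]
  ring

/-- the infinitesimal action of `x_a ∂_b` on forms and on the coefficients -/
noncomputable def Dl (a b : Fin N) (δ : Derivation ℤ Ω Ω) (F : MvPolynomial (Fin N) Ω) :
    MvPolynomial (Fin N) Ω := eu a b F + cw δ F

open Classical in
lemma Dl_D (a b : Fin N) (δ : Derivation ℤ Ω Ω) (v : Fin N → Ω)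
    (h : ∀ c, δ (v c) = if c = b then v a else 0) (F : MvPolynomial (Fin N) Ω) :
    Dl a b δ (D v F) = D v (Dl a b δ F) := by
  unfold Dl
  rw [cw_D, map_add, ← eu_D]
  have h1 : D (fun c => δ (v c)) F = v a • pderiv b F := by
    rw [D_apply, Finset.sum_eq_single b]
    · rw [h, if_pos rfl]
    · intro c _ hc
      rw [h, if_neg hc, zero_smul]
    · intro h'
      exact absurd (Finset.mem_univ _) h'
  rw [h1]
  abel

open Classical in
lemma Dl_Dpow (a b : Fin N) (δ : Derivation ℤ Ω Ω) (v : Fin N → Ω)
    (h : ∀ c, δ (v c) = if c = b then v a else 0) (k : ℕ) (F : MvPolynomial (Fin N) Ω) :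
    Dl a b δ ((D v ^ k) F) = (D v ^ k) (Dl a b δ F) := by
  induction k generalizing F with
  | zero => simp
  | succ k ih => rw [pow_succ, Module.End.mul_apply, Module.End.mul_apply, ih, Dl_D a b δ v h]

/-- Euler's identity at a point -/
lemma euler_eval {k : ℕ} {F : MvPolynomial (Fin N) Ω} (hF : F ∈ Rj Ω (Fin N) k) (v : Fin N → Ω) :
    eval v (D v F) = (k : Ω) * eval v F := by
  have h1 := IsHomogeneous.sum_X_mul_pderiv ((mem_homogeneousSubmodule _ _).1 hF)
  have h2 := congrArg (eval v) h1
  rw [map_sum, map_nsmul, nsmul_eq_mul] at h2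
  rw [D_apply, map_sum, ← h2]
  refine Finset.sum_congr rfl fun i _ => ?_
  rw [smul_eq_C_mul, map_mul, map_mul, eval_C, eval_X]

lemma eval_Dpow_ne {d : ℕ} {F : MvPolynomial (Fin N) Ω} (hF : F ∈ Rj Ω (Fin N) d)
    (v : Fin N → Ω) (h0 : eval v F ≠ 0) (k : ℕ) (hk : k ≤ d) : eval v ((D v ^ k) F) ≠ 0 := by
  induction k with
  | zero => simpa using h0
  | succ k ih =>
    rw [pow_succ', Module.End.mul_apply, euler_eval (Dpow_hom k hF)]
    refine mul_ne_zero ?_ (ih (by omega))
    have : d - k ≠ 0 := by omega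
    exact_mod_cast this

/-- the chain rule -/
lemma der_eval (δ : Derivation ℤ Ω Ω) (v : Fin N → Ω) (F : MvPolynomial (Fin N) Ω) :
    δ (eval v F) = eval v (cw δ F) + ∑ c, δ (v c) * eval v (pderiv c F) := by
  classical
  induction F using MvPolynomial.induction_on with
  | C a =>
    have h1 : cw δ (C a : MvPolynomial (Fin N) Ω) = C (δ a) := by
      rw [← monomial_zero', cw_monomial, monomial_zero']
    rw [h1, eval_C, eval_C]
    simp
  | add p q hp hq =>
    rw [map_add, map_add, hp, hq, cw_add, map_add]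
    have h1 : ∀ c, δ (v c) * eval v (pderiv c (p + q)) =
        δ (v c) * eval v (pderiv c p) + δ (v c) * eval v (pderiv c q) := by
      intro c
      rw [map_add, map_add, mul_add]
    rw [Finset.sum_congr rfl fun c _ => h1 c, Finset.sum_add_distrib]
    ring
  | mul_X p i hp =>
    rw [map_mul, eval_X, Derivation.leibniz, hp, cw_mul, cw_X, mul_zero, add_zero, map_mul, eval_X,
      smul_eq_mul, smul_eq_mul]
    have h1 : ∀ c, δ (v c) * eval v (pderiv c (p * X i)) =
        v i * (δ (v c) * eval v (pderiv c p)) + (if c = i then eval v p * δ (v i) else 0) := by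
      intro c
      rw [Derivation.leibniz, pderiv_X, smul_eq_mul, smul_eq_mul, map_add, map_mul, map_mul, eval_X]
      by_cases h : c = i
      · subst h
        rw [Pi.single_eq_same, if_pos rfl, map_one]
        ring
      · rw [if_neg h, Pi.single_eq_of_ne (Ne.symm h), map_zero]
        ring
    rw [Finset.sum_congr rfl fun c _ => h1 c, Finset.sum_add_distrib, ← Finset.mul_sum,
      Finset.sum_ite_eq' Finset.univ i, if_pos (Finset.mem_univ _)]
    ring

/-- A form with vanishing derivatives and zero value is zero. -/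
lemma eq_zero_of_pderiv {k : ℕ} {F : MvPolynomial (Fin N) Ω} (hF : F ∈ Rj Ω (Fin N) k)
    (v : Fin N → Ω) (h0 : eval v F = 0) (h : ∀ b, pderiv b F = 0) : F = 0 := by
  rcases Nat.eq_zero_or_pos k with hk | hk
  · subst hk
    have h1 := (mem_homogeneousSubmodule _ _).1 hF
    rw [← totalDegree_zero_iff_isHomogeneous, totalDegree_eq_zero_iff_eq_C] at h1
    rw [h1, eval_C] at h0
    rw [h1, h0, C_0]
  · have h1 := IsHomogeneous.sum_X_mul_pderiv ((mem_homogeneousSubmodule _ _).1 hF)
    simp only [h, mul_zero, Finset.sum_const_zero] at h1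
    have h2 : (k : Ω) • F = 0 := by
      rw [Nat.cast_smul_eq_nsmul, ← h1]
    rcases smul_eq_zero.1 h2 with h3 | h3
    · exact absurd (by exact_mod_cast h3) hk.ne'
    · exact h3

/-- A set of forms that is stable under the derivatives in the coordinates of a generic point and
vanishes at the point is zero. -/
theorem vanish (v : Fin N → Ω) (δ : Fin N → Derivation ℤ Ω Ω)
    (hδ : ∀ b c, δ b (v c) = if c = b then 1 else 0) (k : ℕ) :
    ∀ S : Set (MvPolynomial (Fin N) Ω), (∀ F ∈ S, F ∈ Rj Ω (Fin N) k) →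
      (∀ F ∈ S, ∀ b, cw (δ b) F ∈ S) → (∀ F ∈ S, eval v F = 0) → ∀ F ∈ S, F = 0 := by
  classical
  have hder : ∀ S : Set (MvPolynomial (Fin N) Ω), (∀ F ∈ S, ∀ b, cw (δ b) F ∈ S) →
      (∀ F ∈ S, eval v F = 0) → ∀ F ∈ S, ∀ b, eval v (pderiv b F) = 0 := by
    intro S h1 h2 F hF b
    have h3 := der_eval (δ b) v F
    rw [h2 F hF, map_zero, h2 _ (h1 F hF b), zero_add, Finset.sum_eq_single b] at h3
    · rw [hδ, if_pos rfl, one_mul] at h3
      exact h3.symm
    · intro c _ hc
      rw [hδ, if_neg hc, zero_mul]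
    · intro h'
      exact absurd (Finset.mem_univ _) h'
  induction k with
  | zero =>
    intro S h0 h1 h2 F hF
    exact eq_zero_of_pderiv (h0 F hF) v (h2 F hF) fun b => pderiv_zero_hom (h0 F hF)
  | succ k ih =>
    intro S h0 h1 h2 F hF
    refine eq_zero_of_pderiv (h0 F hF) v (h2 F hF) fun b => ?_
    refine ih {G | ∃ F ∈ S, ∃ b, G = pderiv b F} ?_ ?_ ?_ _ ⟨F, hF, b, rfl⟩
    · rintro _ ⟨F, hF, b, rfl⟩
      exact pderiv_hom (h0 F hF)
    · rintro _ ⟨F, hF, b, rfl⟩ c
      exact ⟨_, h1 F hF c, b, cw_pderiv _ _ _⟩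
    · rintro _ ⟨F, hF, b, rfl⟩
      exact hder S h1 h2 F hF b

section Chain

variable (v : Fin N → Ω) (c : Fin N)

/-- linear forms that vanish at the point `v` -/
noncomputable def lam (a : Fin N) : MvPolynomial (Fin N) Ω := C (v c) * X a - C (v a) * X c

lemma lam_hom (a : Fin N) : lam v c a ∈ Rj Ω (Fin N) 1 := by
  rw [mem_homogeneousSubmodule]
  unfold lam
  exact ((isHomogeneous_X Ω a).C_mul _).sub ((isHomogeneous_X Ω c).C_mul _)

lemma D_C_mul (w : Fin N → Ω) (t : Ω) (F : MvPolynomial (Fin N) Ω) : D w (C t * F) = C t * D w F := by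
  rw [← smul_eq_C_mul, map_smul, smul_eq_C_mul]

lemma D_lam (a : Fin N) : D v (lam v c a) = 0 := by
  unfold lam
  rw [map_sub, D_C_mul, D_C_mul, D_X, D_X]
  ring

lemma D_lam_prod (l : List (Fin N)) : D v ((l.map (lam v c)).prod) = 0 := by
  induction l with
  | nil =>
    rw [List.map_nil, List.prod_nil]
    have h1 : (1 : MvPolynomial (Fin N) Ω) ∈ Rj Ω (Fin N) 0 := by
      rw [mem_homogeneousSubmodule]
      exact isHomogeneous_one _ _
    exact D_zero_hom h1
  | cons a l ih => rw [List.map_cons, List.prod_cons, D_mul, D_lam, ih, zero_mul, mul_zero, add_zero]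

/-- the forms of degree `k` in the ideal of the point -/
noncomputable def Pz (k : ℕ) : Submodule Ω (MvPolynomial (Fin N) Ω) :=
  Submodule.span Ω {p | ∃ a, ∃ H ∈ Rj Ω (Fin N) (k - 1), 1 ≤ k ∧ p = lam v c a * H}

lemma X_mul_Pz (a : Fin N) (k : ℕ) {p : MvPolynomial (Fin N) Ω} (hp : p ∈ Pz v c k) :
    X a * p ∈ Pz v c (k + 1) := by
  unfold Pz at hp
  induction hp using Submodule.span_induction with
  | mem x hx =>
    obtain ⟨b, H, hH, hk, rfl⟩ := hx
    refine Submodule.subset_span ⟨b, X a * H, ?_, by omega, by ring⟩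
    rw [mem_homogeneousSubmodule] at hH ⊢
    have h1 := (isHomogeneous_X Ω a).mul hH
    have h2 : 1 + (k - 1) = k + 1 - 1 := by omega
    rwa [h2] at h1
  | zero => rw [mul_zero]; exact Submodule.zero_mem _
  | add x y _ _ hx hy => rw [mul_add]; exact Submodule.add_mem _ hx hy
  | smul t x _ hx => rw [mul_smul_comm]; exact Submodule.smul_mem _ _ hx

lemma mono_Pz (hc : v c ≠ 0) (k : ℕ) : ∀ s : Fin N →₀ ℕ, Finsupp.degree s = k →
    monomial s (1 : Ω) - (eval v (monomial s (1 : Ω)) / v c ^ k) • (X c ^ k) ∈ Pz v c k := by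
  classical
  induction k with
  | zero =>
    intro s hs
    have h1 : s = 0 := (Finsupp.degree_eq_zero_iff s).1 hs
    subst h1
    rw [monomial_zero', C_1, map_one, pow_zero, pow_zero, div_one, one_smul, sub_self]
    exact Submodule.zero_mem _
  | succ k ih =>
    intro s hs
    obtain ⟨a, ha⟩ : ∃ a, s a ≠ 0 := by
      by_contra hne
      push Not at hne
      have : s = 0 := Finsupp.ext hne
      rw [this, map_zero] at hs
      omega
    set s' := s - Finsupp.single a 1 with hs'
    have hss : s = s' + Finsupp.single a 1 := by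
      rw [hs', tsub_add_cancel_of_le]
      rw [Finsupp.single_le_iff]
      omega
    have hd : Finsupp.degree s' = k := by
      rw [hss, map_add, Finsupp.degree_single] at hs
      omega
    have h1 : monomial s (1 : Ω) = X a * monomial s' 1 := by
      rw [hss, X, monomial_mul, one_mul, add_comm]
    have h2 := X_mul_Pz v c a k (ih s' hd)
    set t := eval v (monomial s' (1 : Ω)) with ht
    have h3 : lam v c a * X c ^ k ∈ Pz v c (k + 1) := by
      refine Submodule.subset_span ⟨a, X c ^ k, ?_, by omega, rfl⟩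
      rw [mem_homogeneousSubmodule]
      simpa using isHomogeneous_X_pow (R := Ω) c k
    have h4 := Submodule.add_mem _ h2 (Submodule.smul_mem _ (t / v c ^ (k + 1)) h3)
    convert h4 using 1
    rw [h1, map_mul, eval_X, ← ht]
    unfold lam
    simp only [smul_eq_C_mul]
    have h5 : (C (t / v c ^ k) : MvPolynomial (Fin N) Ω) = C (t / v c ^ (k + 1)) * C (v c) := by
      rw [← C_mul]
      congr 1
      field_simp
      ring
    have h6 : (C (v a * t / v c ^ (k + 1)) : MvPolynomial (Fin N) Ω) =
        C (t / v c ^ (k + 1)) * C (v a) := by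
      rw [← C_mul]
      congr 1
      field_simp
    rw [h5, h6]
    ring

lemma form_Pz (hc : v c ≠ 0) (k : ℕ) {G : MvPolynomial (Fin N) Ω} (hG : G ∈ Rj Ω (Fin N) k)
    (h0 : eval v G = 0) : G ∈ Pz v c k := by
  let ev : MvPolynomial (Fin N) Ω →ₗ[Ω] Ω :=
    { toFun := fun p => eval v p
      map_add' := fun p q => map_add _ p q
      map_smul' := fun t p => by rw [smul_eval, smul_eq_mul, RingHom.id_apply] }
  let L : MvPolynomial (Fin N) Ω →ₗ[Ω] MvPolynomial (Fin N) Ω :=
    LinearMap.id - ((v c ^ k)⁻¹ • ev).smulRight (X c ^ k)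
  have hL : ∀ p, L p = p - (eval v p / v c ^ k) • (X c ^ k) := by
    intro p
    show p - ((v c ^ k)⁻¹ • ev p) • (X c ^ k) = _
    congr 2
    show (v c ^ k)⁻¹ * eval v p = _
    rw [div_eq_inv_mul]
  have h1 := hom_induct (k := k) (Pz v c k) L (fun s hs => by
    rw [hL]
    exact mono_Pz v c hc k s hs) hG
  rw [hL, h0, zero_div, zero_smul, sub_zero] at h1
  exact h1

/-- The subspaces that are stable under the operators `λ ∂_b`, where `λ` vanishes at `v`. -/
theorem chain (hc : v c ≠ 0) (q : ℕ) (M : Submodule Ω (MvPolynomial (Fin N) Ω))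
    (hM : M ≤ Rj Ω (Fin N) q) (hst : ∀ P ∈ M, ∀ a b, lam v c a * pderiv b P ∈ M)
    (P0 : MvPolynomial (Fin N) Ω) (hP0 : P0 ∈ M) (hev : eval v P0 ≠ 0) :
    Rj Ω (Fin N) q ≤ M := by
  classical
  have hst' : ∀ P ∈ M, ∀ a, lam v c a * D v P ∈ M := by
    intro P hP a
    rw [D_apply, Finset.mul_sum]
    refine Submodule.sum_mem _ fun b _ => ?_
    rw [mul_smul_comm]
    exact M.smul_mem _ (hst P hP a b)
  have hA : ∀ l : List (Fin N), (l.map (lam v c)).prod * (D v ^ l.length) P0 ∈ M := by
    intro l
    induction l with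
    | nil => simpa using hP0
    | cons a l ih =>
      have h1 := hst' _ ih a
      rw [D_mul, D_lam_prod, zero_mul, zero_add] at h1
      rw [List.map_cons, List.prod_cons, List.length_cons, pow_succ', Module.End.mul_apply,
        mul_assoc]
      exact h1
  have hB : ∀ k, ∀ l : List (Fin N), l.length + k = q → ∀ G ∈ Rj Ω (Fin N) k,
      (l.map (lam v c)).prod * G ∈ M := by
    intro k
    induction k with
    | zero =>
      intro l hl G hG
      have h1 := hA l
      have hlq : l.length = q := by omega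
      have h2 : eval v ((D v ^ l.length) P0) ≠ 0 := eval_Dpow_ne (hM hP0) v hev _ (by omega)
      have h3 : (D v ^ l.length) P0 ∈ Rj Ω (Fin N) 0 := by
        have := Dpow_hom (v := v) l.length (hM hP0)
        rwa [hlq, Nat.sub_self, ← hlq] at this
      have h4 : ∀ {p : MvPolynomial (Fin N) Ω}, p ∈ Rj Ω (Fin N) 0 → p = C (eval v p) := by
        intro p hp
        have h5 := (mem_homogeneousSubmodule _ _).1 hp
        rw [← totalDegree_zero_iff_isHomogeneous, totalDegree_eq_zero_iff_eq_C] at h5
        rw [h5, eval_C]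
      set t := eval v ((D v ^ l.length) P0) with ht
      have h5 : (l.map (lam v c)).prod * G =
          (eval v G / t) • ((l.map (lam v c)).prod * (D v ^ l.length) P0) := by
        rw [h4 h3, ← ht, h4 hG, eval_C, smul_eq_C_mul]
        have h6 : (C (eval v G) : MvPolynomial (Fin N) Ω) = C (eval v G / t) * C t := by
          rw [← C_mul, div_mul_cancel₀ _ h2]
        rw [h6]
        ring
      rw [h5]
      exact M.smul_mem _ h1
    | succ k ih =>
      intro l hl G hG
      have h1 := hA l
      set F := (D v ^ l.length) P0 with hF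
      have h2 : eval v F ≠ 0 := eval_Dpow_ne (hM hP0) v hev _ (by omega)
      have h3 : F ∈ Rj Ω (Fin N) (k + 1) := by
        have := Dpow_hom (v := v) l.length (hM hP0)
        have h4 : q - l.length = k + 1 := by omega
        rwa [h4] at this
      have h4 : G - (eval v G / eval v F) • F ∈ Rj Ω (Fin N) (k + 1) :=
        Submodule.sub_mem _ hG (Submodule.smul_mem _ _ h3)
      have h5 : eval v (G - (eval v G / eval v F) • F) = 0 := by
        rw [map_sub, smul_eval, div_mul_cancel₀ _ h2, sub_self]
      have h6 := form_Pz v c hc (k + 1) h4 h5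
      have h7 : ∀ p ∈ Pz v c (k + 1), (l.map (lam v c)).prod * p ∈ M := by
        intro p hp
        unfold Pz at hp
        induction hp using Submodule.span_induction with
        | mem x hx =>
          obtain ⟨b, H, hH, -, rfl⟩ := hx
          have h8 := ih (b :: l) (by rw [List.length_cons]; omega) H (by simpa using hH)
          rw [List.map_cons, List.prod_cons] at h8
          convert h8 using 1
          ring
        | zero => rw [mul_zero]; exact M.zero_mem
        | add x y _ _ hx hy => rw [mul_add]; exact M.add_mem hx hy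
        | smul t x _ hx => rw [mul_smul_comm]; exact M.smul_mem _ hx
      have h8 := M.add_mem (h7 _ h6) (M.smul_mem (eval v G / eval v F) h1)
      convert h8 using 1
      rw [mul_sub, mul_smul_comm]
      abel
  intro G hG
  have := hB q [] (by simp) G hG
  simpa using this

end Chain

end Pool.Agent.N177.FP
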