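import Pool.Agent.N177.FP.QMix

/-!
One point of large multiplicity and several multiplicities: the dimension for general points over
the complex numbers.
-/

set_option autoImplicit false
set_option linter.unusedSectionVars false

namespace Pool.Agent.N177.FP

open MvPolynomial Module H350MG

/-- the number of conditions imposed by a point of multiplicity `ν` when a point of multiplicity
`μ` is given -/
def rL (n d μ ν : ℕ) : ℤ :=
  ((n + ν - 1).choose n : ℤ) - ((n + (ν + μ - (d + 1)) - 1).choose n : ℤ)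

lemma finrank_Kr_rL {F : Type} [Field F] [CharZero F] {n : ℕ} (hn : 1 ≤ n)
    {v : Fin (n + 1) → F} (hv : v ≠ 0) (d μ ν : ℕ) (hμ : μ ≤ d) (hν : 1 ≤ ν) :
    (finrank F (Kr v (d - μ + 1) (ν - 1)) : ℤ) = rL n d μ ν := by
  have h1 := finrank_Kr_fin hn hv (d - μ) (ν - 1)
  have h2 : ν - 1 - (d - μ) = ν + μ - (d + 1) := by omega
  have h3 : n + (ν - 1) = n + ν - 1 := by omega
  rw [h2, h3] at h1
  unfold rL
  rw [← h1]
  push_cast
  ring

theorem q_dim (n k d μ : ℕ) (hn : 1 ≤ n) (hμ : μ ≤ d) (m : Fin k → ℕ) (hm : ∀ i, 1 ≤ m i)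
    (hmd : ∀ i, m i ≤ d) (E : ℤ) (hE : E = rL n d μ (d + 1) - ∑ i, rL n d μ (m i)) :
    ∃ v : ℕ, (∃ Φ : MvPolynomial (Fin k × Fin (n + 1)) ℂ, Φ ≠ 0 ∧
      ∀ w : Fin k × Fin (n + 1) → ℂ, eval w Φ ≠ 0 →
        finrank ℂ (H350MG.K (ptList
          (Fin.cons (d - μ + 1) (fun i : Fin k => d + 1 - m i) : Fin (k + 1) → ℕ)
          (consPt (Pi.single 0 1) w)) d) = v) ∧
      ((∀ i, rL n d μ (m i) * (rL n d μ (m i) - 3) +
          2 * ((rL n d μ (m i) - 1) *
            ∑ ν ∈ (Finset.univ.image m).filter (m i < ·), rL n d μ ν) < 2 * E) →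
        (v : ℤ) = E) ∧
      ((∃ i, rL n d μ (m i) * (rL n d μ (m i) - 3) +
          ∑ ν ∈ (Finset.univ.image m).erase (m i), rL n d μ ν * (rL n d μ ν - 1) <
          -(2 * E)) → v = 0) := by
  let A := MvPolynomial ((ℕ × ℕ) × Fin (n + 1)) ℂ
  let F := FractionRing A
  have : CharZero F := algebraRat.charZero F
  obtain ⟨D, hD⟩ : ∃ D, D = Finset.univ.image m := ⟨_, rfl⟩
  obtain ⟨ε, hε⟩ : ∃ ε : ℕ → ℕ, ε = fun ν => d + 1 - ν := ⟨_, rfl⟩
  have hDm : ∀ ν ∈ D, 1 ≤ ν ∧ ν ≤ d := by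
    intro ν hν
    rw [hD] at hν
    obtain ⟨i, _, rfl⟩ := Finset.mem_image.1 hν
    exact ⟨hm i, hmd i⟩
  have hεd : ∀ ν ∈ D, ε ν ≤ d := by
    intro ν hν
    have := hDm ν hν
    rw [hε]
    show d + 1 - ν ≤ d
    omega
  have H := qdims (N := n + 1) ℂ F ε d 0 (d - μ) D (by omega) (by omega) hεd
  obtain ⟨N, hNdef⟩ : ∃ N : ℕ → ℕ, N = fun ν => finrank F
    (Rj F (Fin (n + 1)) (d - ε ν) ⊓ Lz F 0 (d - μ) : Submodule F (MvPolynomial (Fin (n + 1)) F)) :=
    ⟨_, rfl⟩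
  rw [← hNdef] at H
  have hsing : (Pi.single 0 (1 : F) : Fin (n + 1) → F) ≠ 0 := by
    intro h
    have h1 := congrFun h 0
    rw [Pi.single_eq_same, Pi.zero_apply] at h1
    exact one_ne_zero h1
  have hN' : ∀ ν ∈ D, (N ν : ℤ) = rL n d μ ν := by
    intro ν hν
    have h1 := hDm ν hν
    have h2 := finrank_Kr_rL hn hsing d μ ν hμ h1.1
    rw [Kr_single] at h2
    rw [hNdef, hε]
    show (finrank F (Rj F (Fin (n + 1)) (d - (d + 1 - ν)) ⊓ Lz F 0 (d - μ) :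
      Submodule F (MvPolynomial (Fin (n + 1)) F)) : ℤ) = _
    have h3 : d - (d + 1 - ν) = ν - 1 := by omega
    rw [h3]
    exact h2
  have hE0 : (qv (N := n + 1) ℂ F ε d 0 (d - μ) D 0 : ℤ) = rL n d μ (d + 1) := by
    have h2 := finrank_Kr_rL hn hsing d μ (d + 1) hμ (by omega)
    rw [Kr_single, Nat.add_sub_cancel] at h2
    rw [qv_zero]
    exact h2
  have hmD : ∀ i, m i ∈ D := fun i => by
    rw [hD]; exact Finset.mem_image_of_mem m (Finset.mem_univ i)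
  have hNpos : ∀ ν ∈ D, 1 ≤ N ν := by
    intro ν hν
    rw [hNdef, Nat.one_le_iff_ne_zero]
    intro h0
    have h1 : FiniteDimensional F (Rj F (Fin (n + 1)) (d - ε ν) ⊓ Lz F 0 (d - μ) :
        Submodule F (MvPolynomial (Fin (n + 1)) F)) :=
      Submodule.finiteDimensional_of_le (inf_le_left : _ ≤ Rj F (Fin (n + 1)) (d - ε ν))
    have h2 := Submodule.finrank_eq_zero.1 h0
    have h3 : monomial (Finsupp.single (Fin.last n) (d - ε ν)) (1 : F) ∈
        (Rj F (Fin (n + 1)) (d - ε ν) ⊓ Lz F 0 (d - μ) :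
          Submodule F (MvPolynomial (Fin (n + 1)) F)) := by
      refine ⟨(mem_homogeneousSubmodule _ _).2 (isHomogeneous_monomial _ ?_), fun α hα => ?_⟩
      · rw [Finsupp.degree_single]
      · rw [coeff_monomial, if_neg]
        rintro rfl
        rw [Finsupp.single_apply, if_neg (by
          intro h
          have h4 := congrArg Fin.val h
          rw [Fin.val_last, Fin.val_zero] at h4
          omega)] at hα
        omega
    rw [h2, Submodule.mem_bot, monomial_eq_zero] at h3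
    exact one_ne_zero h3
  have hsum : ((∑ ν ∈ D, cnt m ν * N ν : ℕ) : ℤ) = ∑ i, rL n d μ (m i) := by
    rw [hD, sum_cnt]
    push_cast
    exact Finset.sum_congr rfl fun i _ => hN' _ (hmD i)
  refine ⟨qv (N := n + 1) ℂ F ε d 0 (d - μ) D (cnt m), ?_, ?_, ?_⟩
  · obtain ⟨Φ, hΦ0, hΦ⟩ := general_dim_z (N := n + 1) ℂ F (fun p : ℕ × ℕ => ε p.1) d 0 (d - μ)
      (enum m) (enum_inj m)
    refine ⟨Φ, hΦ0, fun w hw => ?_⟩
    have h1 := hΦ w hw
    rw [image_enum, ← hD] at h1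
    have h2 : (fun i : Fin k => ε (enum m i).1) = fun i : Fin k => d + 1 - m i := by
      funext i
      rw [hε]
      rfl
    rw [h2] at h1
    exact h1
  · intro h
    have h1 := H.pos_main (cnt m) (by
      intro μ' hμ' _
      have hμ'' := hμ'
      rw [hD] at hμ''
      obtain ⟨i, _, rfl⟩ := Finset.mem_image.1 hμ''
      have h2 := h i
      have h3 : D.filter (fun ν => m i < ν ∧ 0 < cnt m ν) = D.filter (m i < ·) := by
        refine Finset.filter_congr fun ν hν => ?_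
        rw [hD] at hν
        obtain ⟨j, _, rfl⟩ := Finset.mem_image.1 hν
        simp [cnt_pos]
      have h4 : ∑ ν ∈ (Finset.univ.image m).filter (m i < ·), rL n d μ ν =
          ((∑ ν ∈ D.filter (m i < ·), N ν : ℕ) : ℤ) := by
        rw [← hD, Nat.cast_sum]
        exact Finset.sum_congr rfl fun ν hν => by rw [hN' ν (Finset.mem_filter.1 hν).1]
      rw [h4, hE, ← hsum, ← hE0, ← hN' _ hμ'] at h2
      rw [h3]
      have h6 := hNpos _ hμ'
      obtain ⟨T, hT⟩ : ∃ T, T = ∑ ν ∈ D.filter (m i < ·), N ν := ⟨_, rfl⟩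
      obtain ⟨B, hB⟩ : ∃ B, B = ∑ ν ∈ D, cnt m ν * N ν := ⟨_, rfl⟩
      rw [← hT, ← hB] at h2 ⊢
      obtain ⟨a, ha⟩ : ∃ a, N (m i) = a + 1 := ⟨N (m i) - 1, by omega⟩
      rw [ha] at h2 ⊢
      rw [Nat.add_sub_cancel]
      zify
      push_cast at h2
      nlinarith)
    have h2 : (qv (N := n + 1) ℂ F ε d 0 (d - μ) D (cnt m) : ℤ) +
        ((∑ ν ∈ D, cnt m ν * N ν : ℕ) : ℤ) = (qv (N := n + 1) ℂ F ε d 0 (d - μ) D 0 : ℤ) := by
      exact_mod_cast h1
    rw [hsum, hE0] at h2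
    rw [hE]
    linarith
  · rintro ⟨i, hi⟩
    by_contra h0
    have h1 := H.neg_main (hmD i) _ 0 (cnt m) rfl h0 (fun ν hν =>
      (min_le_right _ _).trans (H.pos _ ν hν h0))
    rw [← Finset.add_sum_erase D _ (hmD i)] at h1
    simp only [if_true, zero_add] at h1
    have h2 : ∀ ν ∈ D.erase (m i), ∑ t ∈ Finset.range (cnt m ν),
        min (N ν) (t + 1 + if ν = m i then 1 else 0) =
        ∑ t ∈ Finset.range (cnt m ν), min (N ν) (t + 1) := by
      intro ν hν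
      refine Finset.sum_congr rfl fun t _ => ?_
      rw [if_neg (Finset.ne_of_mem_erase hν), add_zero]
    rw [Finset.sum_congr rfl h2] at h1
    have h3 := two_sum_min' (N (m i)) (cnt m (m i)) (hNpos _ (hmD i))
    have h4 : ∑ ν ∈ D.erase (m i), ((2 * cnt m ν * N ν : ℤ) - N ν * (N ν - 1)) ≤
        2 * ((∑ ν ∈ D.erase (m i), ∑ t ∈ Finset.range (cnt m ν), min (N ν) (t + 1) : ℕ) : ℤ) := by
      rw [Nat.cast_sum, Finset.mul_sum]
      exact Finset.sum_le_sum fun ν _ => two_sum_min (N ν) (cnt m ν)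
    rw [Finset.sum_sub_distrib] at h4
    have h5 : (∑ ν ∈ D.erase (m i), (2 * cnt m ν * N ν : ℤ)) + 2 * cnt m (m i) * N (m i) =
        2 * ∑ i, rL n d μ (m i) := by
      rw [← hsum, ← Finset.add_sum_erase D _ (hmD i)]
      push_cast
      rw [mul_add, Finset.mul_sum]
      have h7 : ∑ ν ∈ D.erase (m i), (2 * cnt m ν * N ν : ℤ) =
          ∑ ν ∈ D.erase (m i), 2 * ((cnt m ν : ℤ) * N ν) :=
        Finset.sum_congr rfl fun ν _ => by ring
      rw [h7]
      ring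
    have h6 : ∑ ν ∈ (Finset.univ.image m).erase (m i), rL n d μ ν * (rL n d μ ν - 1) =
        ∑ ν ∈ D.erase (m i), (N ν : ℤ) * (N ν - 1) := by
      rw [← hD]
      exact Finset.sum_congr rfl fun ν hν => by rw [hN' ν (Finset.mem_of_mem_erase hν)]
    rw [h6, ← hN' _ (hmD i)] at hi
    have h7 : (1 : ℤ) ≤ (qv (N := n + 1) ℂ F ε d 0 (d - μ) D (cnt m) : ℤ) := by
      exact_mod_cast Nat.one_le_iff_ne_zero.2 h0
    have h8 : (qv (N := n + 1) ℂ F ε d 0 (d - μ) D (cnt m) : ℤ) +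
        (((∑ t ∈ Finset.range (cnt m (m i)), min (N (m i)) (t + 1 + 1) : ℕ) : ℤ) +
        ((∑ ν ∈ D.erase (m i), ∑ t ∈ Finset.range (cnt m ν), min (N ν) (t + 1) : ℕ) : ℤ)) ≤
        rL n d μ (d + 1) := by
      rw [← hE0]
      exact_mod_cast h1
    rw [hE] at hi
    nlinarith

theorem q_low (n k d μ : ℕ) (hn : 1 ≤ n) (hμ : μ ≤ d) (m : Fin k → ℕ) (hm : ∀ i, 1 ≤ m i)
    (hmd : ∀ i, m i ≤ d) (w : Fin (k + 1) × Fin (n + 1) → ℂ) (hw : (fun c => w (0, c)) ≠ 0) :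
    rL n d μ (d + 1) - ∑ i, rL n d μ (m i) ≤ (finrank ℂ (H350MG.K (ptList
      (Fin.cons (d - μ + 1) (fun i : Fin k => d + 1 - m i) : Fin (k + 1) → ℕ) w) d) : ℤ) := by
  have h1 := low_gen (Kr (fun c => w (0, c)) (d - μ + 1) d)
    (fun i : Fin k => D (fun c => w (i.succ, c)) ^ (d + 1 - m i))
    (fun i : Fin k => Kr (fun c => w (0, c)) (d - μ + 1) (m i - 1)) (by
      rintro i x ⟨hx, hx2⟩
      refine ⟨?_, ?_⟩
      · have h2 := Dpow_hom (v := fun c => w (i.succ, c)) (d + 1 - m i) hx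
        have h3 : d - (d + 1 - m i) = m i - 1 := by
          have := hm i
          have := hmd i
          omega
        rw [h3] at h2
        exact h2
      · have h3 := Dpow_comm_apply (fun c => w (0, c)) (fun c => w (i.succ, c))
          (d - μ + 1) (d + 1 - m i) x
        have h4 : (D (fun c => w (0, c)) ^ (d - μ + 1)) x = 0 := hx2
        show (D (fun c => w (0, c)) ^ (d - μ + 1)) _ = 0
        rw [h3, h4, map_zero])
  have h2 : (Kr (fun c => w (0, c)) (d - μ + 1) d ⊓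
      ⨅ i, LinearMap.ker (D (fun c => w (i.succ, c)) ^ (d + 1 - m i)) :
        Submodule ℂ (MvPolynomial (Fin (n + 1)) ℂ)) = H350MG.K (ptList
      (Fin.cons (d - μ + 1) (fun i : Fin k => d + 1 - m i) : Fin (k + 1) → ℕ) w) d := by
    have h3 : w = consPt (fun c => w (0, c)) (fun x => w (x.1.succ, x.2)) := by
      funext ⟨i, c⟩
      rcases Fin.eq_zero_or_eq_succ i with rfl | ⟨j, rfl⟩ <;> rfl
    ext p
    have h4 := mem_K_cons (d - μ + 1) (fun i : Fin k => d + 1 - m i) d (fun c => w (0, c))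
      (fun x => w (x.1.succ, x.2)) p
    rw [← h3] at h4
    rw [h4, Submodule.mem_inf, Submodule.mem_iInf]
    constructor
    · rintro ⟨⟨h5, h6⟩, h7⟩
      exact ⟨h5, h6, h7⟩
    · rintro ⟨h5, h6, h7⟩
      exact ⟨⟨h5, h6⟩, h7⟩
  rw [h2] at h1
  have h3 := finrank_Kr_rL hn hw d μ (d + 1) hμ (by omega)
  rw [Nat.add_sub_cancel] at h3
  have h4 : ((∑ i, finrank ℂ (Kr (fun c => w (0, c)) (d - μ + 1) (m i - 1)) : ℕ) : ℤ) =
      ∑ i, rL n d μ (m i) := by
    push_cast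
    exact Finset.sum_congr rfl fun i _ => finrank_Kr_rL hn hw d μ (m i) hμ (hm i)
  have h5 : (finrank ℂ (Kr (fun c => w (0, c)) (d - μ + 1) d) : ℤ) ≤
      (finrank ℂ (H350MG.K (ptList
      (Fin.cons (d - μ + 1) (fun i : Fin k => d + 1 - m i) : Fin (k + 1) → ℕ) w) d) : ℤ) +
      ((∑ i, finrank ℂ (Kr (fun c => w (0, c)) (d - μ + 1) (m i - 1)) : ℕ) : ℤ) := by
    exact_mod_cast h1
  rw [h3, h4] at h5
  linarith

/-- The dimension of the system of forms with general points. -/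
theorem q_gen (n k d μ : ℕ) (hn : 1 ≤ n) (hμ : μ ≤ d) (m : Fin k → ℕ) (hm : ∀ i, 1 ≤ m i)
    (hmd : ∀ i, m i ≤ d) (E : ℤ) (hE : E = rL n d μ (d + 1) - ∑ i, rL n d μ (m i)) :
    ∃ Φ : MvPolynomial (Fin (k + 1) × Fin (n + 1)) ℂ, Φ ≠ 0 ∧
      ∀ w : Fin (k + 1) × Fin (n + 1) → ℂ, eval w Φ ≠ 0 →
      ((∀ i, rL n d μ (m i) * (rL n d μ (m i) - 3) +
          2 * ((rL n d μ (m i) - 1) *
            ∑ ν ∈ (Finset.univ.image m).filter (m i < ·), rL n d μ ν) < 2 * E) →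
        (finrank ℂ (H350MG.K (ptList
          (Fin.cons (d - μ + 1) (fun i : Fin k => d + 1 - m i) : Fin (k + 1) → ℕ) w) d) : ℤ) =
          E) ∧
      ((∃ i, rL n d μ (m i) * (rL n d μ (m i) - 3) +
          ∑ ν ∈ (Finset.univ.image m).erase (m i), rL n d μ ν * (rL n d μ ν - 1) <
          -(2 * E)) → finrank ℂ (H350MG.K (ptList
          (Fin.cons (d - μ + 1) (fun i : Fin k => d + 1 - m i) : Fin (k + 1) → ℕ) w) d) = 0) := by
  obtain ⟨v, ⟨Ψ, hΨ0, hΨ⟩, h1, h2⟩ := q_dim n k d μ hn hμ m hm hmd E hE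
  obtain ⟨w0, hw0⟩ : ∃ w : Fin k × Fin (n + 1) → ℂ, eval w Ψ ≠ 0 := by
    by_contra hcon
    push Not at hcon
    exact hΨ0 (MvPolynomial.funext fun w => by rw [hcon w, map_zero])
  obtain ⟨Φ, hΦ0, hΦ⟩ := generic_K (σ := Fin (n + 1))
    (Fin.cons (d - μ + 1) (fun i : Fin k => d + 1 - m i) : Fin (k + 1) → ℕ) d
    (consPt (Pi.single 0 1) w0)
  rw [hΨ w0 hw0] at hΦ
  refine ⟨Φ * X (0, 0), mul_ne_zero hΦ0 (X_ne_zero _), fun w hw => ?_⟩
  rw [map_mul, eval_X] at hw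
  have h3 := hΦ w (left_ne_zero_of_mul hw)
  have h4 : (fun c => w (0, c)) ≠ 0 := by
    intro h
    exact right_ne_zero_of_mul hw (congrFun h 0)
  have h5 := q_low n k d μ hn hμ m hm hmd w h4
  rw [← hE] at h5
  refine ⟨fun h => ?_, fun h => ?_⟩
  · have h6 := h1 h
    have h7 : (finrank ℂ (H350MG.K (ptList
          (Fin.cons (d - μ + 1) (fun i : Fin k => d + 1 - m i) : Fin (k + 1) → ℕ) w) d) : ℤ) ≤
        (v : ℤ) := by exact_mod_cast h3
    linarith
  · have h6 := h2 h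
    omega

end Pool.Agent.N177.FP
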