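import Pool.Agent.N177.FP.QSys

/-!
The growth theorem in the presence of one point of large multiplicity.
-/

set_option autoImplicit false
set_option linter.unusedSectionVars false

namespace Pool.Agent.N177.FP

open MvPolynomial Module H350MG
open Pool.Agent.N177.FK (cw cw_add cw_zero cw_smul cw_mul cw_sum cw_pderiv cw_X coeff_cw'
  cw_sum_der cw_hom eu eu_hom eu_add eu_smul cw_add_der cw_monomial hom_induct cw_smul_der
  coeff_eu_self eu_monomial cw_eu cw_monomial_one deg_of_mem)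

namespace PS

variable {N : ℕ} {Ω : Type} [Field Ω] [CharZero Ω] {ι : Type} [DecidableEq ι]
  (G : PS N Ω ι) (e : ι → ℕ) (d : ℕ) (z : Fin N) (c : ℕ)

/-- the members of the system of bounded degree in `z` -/
noncomputable def Vz (J : Finset ι) : Submodule Ω (MvPolynomial (Fin N) Ω) := G.V e d J ⊓ Lz Ω z c

lemma Vz_mono {I J : Finset ι} (h : I ⊆ J) : G.Vz e d z c J ≤ G.Vz e d z c I :=
  inf_le_inf_right _ (G.V_mono e d h)

instance finVz (J : Finset ι) : FiniteDimensional Ω (G.Vz e d z c J) :=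
  Submodule.finiteDimensional_of_le (inf_le_left.trans (G.V_le e d J))

/-- the conditions imposed by the point `x` -/
noncomputable def Mz (J : Finset ι) (x : ι) : Submodule Ω (MvPolynomial (Fin N) Ω) :=
  (G.Vz e d z c J).map (D (G.v x) ^ e x)

lemma Mz_le (J : Finset ι) (x : ι) :
    G.Mz e d z c J x ≤ Rj Ω (Fin N) (d - e x) ⊓ Lz Ω z c := by
  rintro _ ⟨F, hF, rfl⟩
  exact ⟨Dpow_hom _ hF.1.1, Lz_Dpow _ _ hF.2⟩

instance finMz (J : Finset ι) (x : ι) : FiniteDimensional Ω (G.Mz e d z c J x) :=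
  Submodule.finiteDimensional_of_le ((G.Mz_le e d z c J x).trans inf_le_left)

lemma Mz_mono {I J : Finset ι} (h : I ⊆ J) (x : ι) : G.Mz e d z c J x ≤ G.Mz e d z c I x :=
  Submodule.map_mono (G.Vz_mono e d z c h)

/-- the dimension formula -/
lemma finrank_insert_z (J : Finset ι) (x : ι) :
    finrank Ω (G.Vz e d z c (insert x J)) + finrank Ω (G.Mz e d z c J x) =
      finrank Ω (G.Vz e d z c J) := by
  let f : G.Vz e d z c J →ₗ[Ω] MvPolynomial (Fin N) Ω :=
    (D (G.v x) ^ e x).domRestrict (G.Vz e d z c J)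
  have h1 := LinearMap.finrank_range_add_finrank_ker f
  have h2 : LinearMap.range f = G.Mz e d z c J x := by
    ext p
    simp only [LinearMap.mem_range, Mz, Submodule.mem_map]
    constructor
    · rintro ⟨⟨F, hF⟩, rfl⟩
      exact ⟨F, hF, rfl⟩
    · rintro ⟨F, hF, rfl⟩
      exact ⟨⟨F, hF⟩, rfl⟩
  have h3 : (LinearMap.ker f).map (G.Vz e d z c J).subtype = G.Vz e d z c (insert x J) := by
    ext p
    simp only [Submodule.mem_map, LinearMap.mem_ker]
    constructor
    · rintro ⟨⟨F, hF⟩, h, rfl⟩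
      refine ⟨⟨hF.1.1, fun i hi => ?_⟩, hF.2⟩
      rcases Finset.mem_insert.1 hi with rfl | hi
      · exact h
      · exact hF.1.2 i hi
    · intro hp
      exact ⟨⟨p, G.Vz_mono e d z c (Finset.subset_insert x J) hp⟩,
        hp.1.2 x (Finset.mem_insert_self _ _), rfl⟩
  have h4 : finrank Ω (LinearMap.ker f) = finrank Ω (G.Vz e d z c (insert x J)) := by
    rw [← h3]
    exact (LinearEquiv.finrank_eq (Submodule.equivMapOfInjective _
      (Submodule.injective_subtype _) _))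
  rw [h2, h4] at h1
  omega

variable {z c}

lemma Vz_cw {J : Finset ι} {i : ι} (hi : i ∉ J) (b : Fin N) {F : MvPolynomial (Fin N) Ω}
    (hF : F ∈ G.Vz e d z c J) : cw (G.δ i b) F ∈ G.Vz e d z c J :=
  ⟨G.V_cw e d hi b hF.1, Lz_cw _ hF.2⟩

lemma Mz_cw {J : Finset ι} {i x : ι} (hi : i ∉ J) (hx : i ≠ x) (b : Fin N)
    {P : MvPolynomial (Fin N) Ω} (hP : P ∈ G.Mz e d z c J x) :
    cw (G.δ i b) P ∈ G.Mz e d z c J x := by
  obtain ⟨F, hF, rfl⟩ := hP
  rw [cw_Dpow _ _ (fun c => G.δ_v_ne hx.symm b c)]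
  exact ⟨_, G.Vz_cw e d hi b hF, rfl⟩

lemma Vz_Dl {J S : Finset ι} (hJ : J ⊆ S) {a b : Fin N} (hab : a ≠ z ∨ (a = z ∧ b = z))
    {F : MvPolynomial (Fin N) Ω} (hF : F ∈ G.Vz e d z c J) :
    Dl a b (G.dS S a b) F ∈ G.Vz e d z c J :=
  ⟨G.V_Dl e d hJ a b hF.1, Submodule.add_mem _ (Lz_eu hab hF.2) (Lz_cw _ hF.2)⟩

lemma Mz_Dl {J S : Finset ι} {x : ι} (hJ : J ⊆ S) (hx : x ∈ S) {a b : Fin N}
    (hab : a ≠ z ∨ (a = z ∧ b = z))
    {P : MvPolynomial (Fin N) Ω} (hP : P ∈ G.Mz e d z c J x) :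
    Dl a b (G.dS S a b) P ∈ G.Mz e d z c J x := by
  obtain ⟨F, hF, rfl⟩ := hP
  rw [Dl_Dpow a b _ _ (fun c => G.dS_v S a b hx c)]
  exact ⟨_, G.Vz_Dl e d hJ hab hF, rfl⟩

open Classical in
lemma exists_eval_ne_z {J : Finset ι} {x : ι} (hx : x ∉ J) (hV : G.Vz e d z c J ≠ ⊥) :
    ∃ F ∈ G.Vz e d z c J, eval (G.v x) F ≠ 0 := by
  by_contra hne
  push Not at hne
  apply hV
  rw [eq_bot_iff]
  intro F hF
  rw [Submodule.mem_bot]
  refine vanish (G.v x) (G.δ x) ?_ d (G.Vz e d z c J) (fun F hF => hF.1.1)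
    (fun F hF b => G.Vz_cw e d hx b hF) hne F hF
  intro b c
  by_cases h : c = b
  · rw [if_pos h, h, G.self]
  · rw [if_neg h, G.ne x b x c (Or.inr h)]

lemma Mz_ne_bot {J : Finset ι} {x : ι} (hx : x ∉ J) (he : e x ≤ d) (hV : G.Vz e d z c J ≠ ⊥) :
    G.Mz e d z c J x ≠ ⊥ := by
  obtain ⟨F, hF, h0⟩ := G.exists_eval_ne_z e d hx hV
  intro h
  have h1 : (D (G.v x) ^ e x) F ∈ G.Mz e d z c J x := ⟨F, hF, rfl⟩
  rw [h, Submodule.mem_bot] at h1
  exact eval_Dpow_ne hF.1.1 (G.v x) h0 _ he (by rw [h1, map_zero])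

/-- The large point has exactly the expected multiplicity for some member of the system. -/
lemma top {J : Finset ι} (hc : c ≤ d) (hV : G.Vz e d z c J ≠ ⊥) :
    ∃ F ∈ G.Vz e d z c J, ∃ α : Fin N →₀ ℕ, α z = c ∧ coeff α F ≠ 0 := by
  classical
  by_contra hcon
  push Not at hcon
  obtain ⟨F0, hF0, hne⟩ := Submodule.exists_mem_ne_zero_of_ne_bot hV
  obtain ⟨α0, hα0⟩ := MvPolynomial.ne_zero_iff.1 hne
  -- the exponents which occur
  have hlt : ∀ F ∈ G.Vz e d z c J, ∀ α : Fin N →₀ ℕ, coeff α F ≠ 0 → α z < c := by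
    intro F hF α hα
    rcases lt_trichotomy (α z) c with h | h | h
    · exact h
    · exact absurd (hcon F hF α h) hα
    · exact absurd (hF.2 α h) hα
  have hc1 : 1 ≤ c := by
    have := hlt F0 hF0 α0 hα0
    omega
  have key : ∀ j, ∀ F ∈ G.Vz e d z c J, ∀ α : Fin N →₀ ℕ, c - α z = j → coeff α F = 0 := by
    intro j
    induction j using Nat.strong_induction_on with
    | _ j ih =>
      intro F hF α hj
      by_contra hα
      have hαc := hlt F hF α hα
      have hdeg := deg_of_mem hF.1.1 hα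
      obtain ⟨b, hbz, hb⟩ : ∃ b, b ≠ z ∧ 0 < α b := by
        by_contra hno
        push Not at hno
        have h1 : Finsupp.degree α = α z := by
          rw [Finsupp.degree_eq_sum, Finset.sum_eq_single z]
          · intro i _ hi
            have := hno i hi
            omega
          · intro h
            exact absurd (Finset.mem_univ _) h
        omega
      have hF' : F ∈ Lz Ω z (c - 1) := by
        intro β hβ
        by_contra hne
        have := hlt F hF β hne
        omega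
      have h1 : Dl z b (G.dS J z b) F ∈ G.Vz e d z c J :=
        ⟨G.V_Dl e d (Finset.Subset.refl J) z b hF.1,
          Submodule.add_mem _ (Lz_eu_raise b hc1 hF') (Lz_cw _ hF.2)⟩
      have h5 : α - Finsupp.single b 1 + Finsupp.single b 1 = α :=
        tsub_add_cancel_of_le (by rw [Finsupp.single_le_iff]; omega)
      have h6 : (α - Finsupp.single b 1 + Finsupp.single z 1 : Fin N →₀ ℕ) z = α z + 1 := by
        rw [Finsupp.add_apply, Finsupp.tsub_apply, Finsupp.single_apply, if_neg hbz,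
          Finsupp.single_eq_same, Nat.sub_zero]
      have h2 := ih (c - (α z + 1)) (by omega) _ h1
        (α - Finsupp.single b 1 + Finsupp.single z 1) (by rw [h6])
      have h3 := ih (c - (α z + 1)) (by omega) _ hF
        (α - Finsupp.single b 1 + Finsupp.single z 1) (by rw [h6])
      unfold Dl at h2
      rw [coeff_add, coeff_cw', h3, map_zero, add_zero, coeff_eu, if_pos] at h2
      · rw [add_tsub_cancel_right, h5] at h2
        have h7 : (((α - Finsupp.single b 1 : Fin N →₀ ℕ) b : ℕ) : Ω) + 1 ≠ 0 :=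
          Nat.cast_add_one_ne_zero _
        exact (mul_ne_zero hα h7) h2
      · rw [Finsupp.mem_support_iff, h6]
        omega
  exact hα0 (key _ F0 hF0 α0 rfl)

/-- The growth theorem in the presence of a large point. -/
theorem growth_z {J : Finset ι} {x : ι} (hx : x ∉ J) (he : e x ≤ d) (hc : c ≤ d)
    {a0 : Fin N} (ha0 : a0 ≠ z) (hV : G.Vz e d z c J ≠ ⊥)
    (h : ∀ i ∈ J, G.Mz e d z c (J.erase i) x ≤ G.Mz e d z c J x) :
    G.Mz e d z c J x = Rj Ω (Fin N) (d - e x) ⊓ Lz Ω z c := by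
  classical
  refine le_antisymm (G.Mz_le e d z c J x) ?_
  have hcw : ∀ i ∈ J, ∀ b, ∀ P ∈ G.Mz e d z c J x, cw (G.δ i b) P ∈ G.Mz e d z c J x := by
    intro i hi b P hP
    have h1 := G.Mz_mono e d z c (Finset.erase_subset i J) x hP
    have hix : i ≠ x := by rintro rfl; exact hx hi
    exact h i hi (G.Mz_cw e d (Finset.notMem_erase i J) hix b h1)
  have hDl : ∀ P ∈ G.Mz e d z c J x, ∀ a b, (a ≠ z ∨ (a = z ∧ b = z)) →
      eu a b P + G.v x a • cw (G.δ x b) P ∈ G.Mz e d z c J x := by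
    intro P hP a b hab
    have h1 := G.Mz_Dl e d (S := insert x J) (Finset.subset_insert x J)
      (Finset.mem_insert_self x J) hab hP
    unfold Dl at h1
    rw [cw_dS, Finset.sum_insert hx] at h1
    have h2 : ∑ i ∈ J, G.v i a • cw (G.δ i b) P ∈ G.Mz e d z c J x :=
      Submodule.sum_mem _ fun i hi => Submodule.smul_mem _ _ (hcw i hi b P hP)
    have h3 := Submodule.sub_mem _ h1 h2
    convert h3 using 1
    abel
  -- the forms whose leading part at `x` lies in `M`
  obtain ⟨T, hT⟩ : ∃ T : Submodule Ω (MvPolynomial (Fin N) Ω),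
      T = (G.Mz e d z c J x).comap (D (G.v x) ^ e x) := ⟨_, rfl⟩
  obtain ⟨U, hU⟩ : ∃ U : Set (MvPolynomial (Fin N) Ω),
      U = {F | F ∈ T ∧ ∀ b, cw (G.δ x b) F = 0} := ⟨_, rfl⟩
  have hTmem : ∀ F, F ∈ T ↔ (D (G.v x) ^ e x) F ∈ G.Mz e d z c J x := by
    intro F
    rw [hT, Submodule.mem_comap]
  have hUmem : ∀ F, F ∈ U ↔ F ∈ T ∧ ∀ b, cw (G.δ x b) F = 0 := by
    intro F
    rw [hU]
    rfl
  have hUeu : ∀ F ∈ U, ∀ a b, (a ≠ z ∨ (a = z ∧ b = z)) → eu a b F ∈ U := by
    intro F hF a b hab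
    rw [hUmem] at hF ⊢
    refine ⟨?_, fun b' => by rw [cw_eu, hF.2 b']; unfold eu; rw [map_zero, mul_zero]⟩
    rw [hTmem]
    have h1 := hDl _ ((hTmem F).1 hF.1) a b hab
    have h2 : Dl a b (G.v x a • G.δ x b) ((D (G.v x) ^ e x) F) =
        (D (G.v x) ^ e x) (Dl a b (G.v x a • G.δ x b) F) := by
      refine Dl_Dpow a b _ _ (fun c => ?_) _ _
      rw [Derivation.smul_apply, smul_eq_mul]
      by_cases hcb : c = b
      · rw [if_pos hcb, hcb, G.self, mul_one]
      · rw [if_neg hcb, G.ne x b x c (Or.inr hcb), mul_zero]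
    unfold Dl at h2
    rw [cw_smul_der, cw_smul_der, hF.2 b, smul_zero, add_zero] at h2
    rw [← h2]
    exact h1
  have hUnat : ∀ F ∈ U, ∀ b : Fin N, ∀ n : ℕ, eu b b F - (n : Ω) • F ∈ U := by
    intro F hF b n
    have h1 := hUeu F hF b b (by
      by_cases hb : b = z
      · exact Or.inr ⟨hb, hb⟩
      · exact Or.inl hb)
    rw [hUmem] at hF h1 ⊢
    refine ⟨Submodule.sub_mem _ h1.1 (Submodule.smul_mem _ _ hF.1), fun b' => ?_⟩
    rw [sub_eq_add_neg, ← neg_smul, cw_add, h1.2 b', cw_smul, hF.2 b', smul_zero, add_zero,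
      zero_add, map_neg, Derivation.map_natCast, neg_zero, zero_smul]
  -- a member of the system that does not depend on `x`
  obtain ⟨F0, hF0, α, hαc, hα0⟩ := G.top e d hc hV
  have hF1 : ∃ F ∈ U, F ∈ G.Vz e d z c J ∧ coeff α F ≠ 0 := by
    have hex : ∃ k, ∃ F ∈ G.Vz e d z c J, coeff α F = 1 ∧ F.support.card = k := by
      refine ⟨_, (coeff α F0)⁻¹ • F0, Submodule.smul_mem _ _ hF0, ?_, rfl⟩
      rw [coeff_smul, smul_eq_mul, inv_mul_cancel₀ hα0]
    obtain ⟨F, hFV, hF1, hFk⟩ := Nat.find_spec hex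
    have hmin := fun k (hk : k < Nat.find hex) => Nat.find_min hex hk
    have h0 : ∀ b, cw (G.δ x b) F = 0 := by
      intro b
      by_contra hne
      obtain ⟨β, hβ⟩ := MvPolynomial.ne_zero_iff.1 hne
      have hGV := G.Vz_cw e d hx b hFV
      have hGα : coeff α (cw (G.δ x b) F) = 0 := by
        rw [coeff_cw', hF1, Derivation.map_one_eq_zero]
      have hFβ : coeff β F ≠ 0 := by
        intro h0
        apply hβ
        rw [coeff_cw', h0, map_zero]
      obtain ⟨t, ht⟩ : ∃ t, t = coeff β F / coeff β (cw (G.δ x b) F) := ⟨_, rfl⟩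
      have hco : ∀ s, coeff s (F - t • cw (G.δ x b) F) =
          coeff s F - t * coeff s (cw (G.δ x b) F) := by
        intro s
        rw [coeff_sub, coeff_smul, smul_eq_mul]
      have h1 : (F - t • cw (G.δ x b) F).support ⊆ F.support.erase β := by
        intro s hs
        rw [MvPolynomial.mem_support_iff, hco] at hs
        rw [Finset.mem_erase, MvPolynomial.mem_support_iff]
        refine ⟨?_, ?_⟩
        · rintro rfl
          apply hs
          rw [ht, div_mul_cancel₀ _ hβ, sub_self]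
        · intro h0
          apply hs
          rw [coeff_cw', h0, map_zero, mul_zero, sub_zero]
      refine hmin _ ?_ ⟨_, Submodule.sub_mem _ hFV (Submodule.smul_mem _ t hGV), ?_, rfl⟩
      · rw [← hFk]
        exact (Finset.card_le_card h1).trans_lt
          (Finset.card_erase_lt_of_mem (MvPolynomial.mem_support_iff.2 hFβ))
      · rw [hco, hF1, hGα, mul_zero, sub_zero]
    refine ⟨F, (hUmem F).2 ⟨(hTmem F).2 ⟨F, hFV, rfl⟩, h0⟩, hFV, ?_⟩
    rw [hF1]
    exact one_ne_zero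
  obtain ⟨F, hFU, hFV, hFα⟩ := hF1
  have hαd : Finsupp.degree α = d := deg_of_mem hFV.1.1 hFα
  obtain ⟨t, ht0, ht⟩ := extract U α hUnat F hFU hFα
  have hcst : ∀ β : Fin N →₀ ℕ, monomial β (1 : Ω) ∈ T → monomial β (1 : Ω) ∈ U := by
    intro β hβ
    rw [hUmem]
    exact ⟨hβ, fun b => cw_monomial_one _ _⟩
  have hαT : monomial α (1 : Ω) ∈ U := by
    refine hcst α ?_
    have h1 := Submodule.smul_mem _ t⁻¹ ((hUmem _).1 ht).1
    rwa [smul_monomial, smul_eq_mul, inv_mul_cancel₀ ht0] at h1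
  have hall : ∀ β : Fin N →₀ ℕ, Finsupp.degree β = d → β z ≤ c → monomial β (1 : Ω) ∈ U := by
    intro β hβ hβc
    refine all_of_one' (z := z) {s | monomial s (1 : Ω) ∈ U} ?_ α hαT hαd β hβ (by omega)
    intro s hs a b ha hb
    have h1 := hUeu _ hs a b (Or.inl ha)
    rw [eu_monomial] at h1
    have h2 : (s b : Ω) ≠ 0 := by exact_mod_cast hb.ne'
    have h3 := Submodule.smul_mem _ (s b : Ω)⁻¹ ((hUmem _).1 h1).1
    rw [smul_smul, inv_mul_cancel₀ h2, one_smul] at h3
    exact hcst _ h3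
  -- conclusion
  intro Q hQ
  have hva : G.v x a0 ≠ 0 := by
    intro h0
    have h1 := G.self x a0
    rw [h0, map_zero] at h1
    exact zero_ne_one h1
  obtain ⟨P, hP, rfl⟩ := Dpow_surj (z := z) (c := c) ha0 hva (e x) (d - e x) hQ
  rw [Nat.sub_add_cancel he] at hP
  rw [← hTmem, ← P.support_sum_monomial_coeff]
  refine Submodule.sum_mem _ fun β hβ => ?_
  have h1 : monomial β (coeff β P) = coeff β P • monomial β (1 : Ω) := by
    rw [smul_monomial, smul_eq_mul, mul_one]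
  rw [h1]
  refine Submodule.smul_mem _ _ ((hUmem _).1 (hall β
    (deg_of_mem hP.1 (MvPolynomial.mem_support_iff.1 hβ)) ?_)).1
  by_contra hcon
  exact MvPolynomial.mem_support_iff.1 hβ (hP.2 β (by omega))

end PS

end Pool.Agent.N177.FP
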