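import Pool.Agent.N177.FP.QTr

/-!
One fixed point and several generic points of several multiplicities.
-/

set_option autoImplicit false
set_option linter.unusedSectionVars false

namespace Pool.Agent.N177.FP

open MvPolynomial Module H350MG

section Inst

variable {N : ℕ} (K : Type) [Field K] [CharZero K]
  (F : Type) [Field F] [CharZero F] [Algebra (MvPolynomial ((ℕ × ℕ) × Fin N) K) F]
  [IsFractionRing (MvPolynomial ((ℕ × ℕ) × Fin N) K) F] (ε : ℕ → ℕ) (d : ℕ) (z : Fin N) (γ : ℕ)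
  (D : Finset ℕ)

/-- the dimension of the generic system -/
noncomputable def qv (c : ℕ → ℕ) : ℕ :=
  finrank F ((gen N K (ℕ × ℕ) F).Vz (fun p => ε p.1) d z γ (box D c))

/-- the number of conditions imposed by the next point of class `μ` -/
noncomputable def qr (c : ℕ → ℕ) (μ : ℕ) : ℕ :=
  finrank F ((gen N K (ℕ × ℕ) F).Mz (fun p => ε p.1) d z γ (box D c) (μ, c μ))

/-- all the points of class `μ` which are not in the system impose the same number of
conditions -/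
lemma qr_eq (c : ℕ → ℕ) (μ : ℕ) {l : ℕ} (hl : c μ ≤ l) :
    finrank F ((gen N K (ℕ × ℕ) F).Mz (fun p => ε p.1) d z γ (box D c) (μ, l)) =
      qr (N := N) K F ε d z γ D c μ := by
  have h1 := finrank_Mz_map (N := N) K F (fun p : ℕ × ℕ => ε p.1) d z γ
    (Equiv.swap (μ, c μ) (μ, l)) (by
      intro p
      by_cases h1 : p = (μ, c μ)
      · rw [h1, Equiv.swap_apply_left]
      · by_cases h2 : p = (μ, l)
        · rw [h2, Equiv.swap_apply_right]
        · rw [Equiv.swap_apply_of_ne_of_ne h1 h2]) (box D c) (μ, c μ)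
  have hfix : ∀ p ∈ box D c, Equiv.swap (μ, c μ) (μ, l) p = p := by
    intro p hp
    rw [mem_box] at hp
    refine Equiv.swap_apply_of_ne_of_ne ?_ ?_
    · rintro rfl
      exact lt_irrefl _ hp.2
    · rintro rfl
      have := hp.2
      simp only at this
      omega
  have h2 : (box D c).map (Equiv.swap (μ, c μ) (μ, l)).toEmbedding = box D c := by
    ext p
    rw [Finset.mem_map]
    constructor
    · rintro ⟨q, hq, rfl⟩
      show Equiv.swap (μ, c μ) (μ, l) q ∈ _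
      rw [hfix q hq]
      exact hq
    · intro hp
      exact ⟨p, hp, hfix p hp⟩
  rw [h2, Equiv.swap_apply_left] at h1
  exact h1

lemma qr_strict (hN : 2 ≤ N) (hγ : γ ≤ d) (hε : ∀ ν ∈ D, ε ν ≤ d)
    (c c' : ℕ → ℕ) (μ : ℕ) (hμ : μ ∈ D)
    (h : ∀ ν ∈ D, c ν ≤ c' ν) (h1 : ∀ ν ∈ D, 0 < c' ν → c ν < c' ν)
    (h2 : qv (N := N) K F ε d z γ D c' ≠ 0)
    (h3 : qr (N := N) K F ε d z γ D c' μ <
      finrank F (Rj F (Fin N) (d - ε μ) ⊓ Lz F z γ : Submodule F (MvPolynomial (Fin N) F))) :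
    qr (N := N) K F ε d z γ D c' μ < qr (N := N) K F ε d z γ D c μ := by
  rw [← qr_eq (N := N) K F ε d z γ D c μ (h μ hμ)]
  have hV : (gen N K (ℕ × ℕ) F).Vz (fun p => ε p.1) d z γ (box D c') ≠ ⊥ := by
    intro h0
    apply h2
    rw [qv, h0, finrank_bot]
  have hx : (μ, c' μ) ∉ box D c' := by
    rw [mem_box]
    exact fun h => lt_irrefl _ h.2
  unfold qr at h3 ⊢
  refine step_z (N := N) K F (fun p : ℕ × ℕ => ε p.1) d z γ hN hx (hε μ hμ) hγ
    hV h3 ?_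
  rintro ⟨ν, l⟩ hi
  rw [mem_box] at hi
  obtain ⟨hν, hl⟩ := hi
  simp only at hν hl
  have hcν : c ν < c' ν := h1 ν hν (by omega)
  refine ⟨Equiv.swap (ν, l) (ν, c ν), ?_, ?_, ?_⟩
  · intro p
    show ε (Equiv.swap (ν, l) (ν, c ν) p).1 = ε p.1
    by_cases h4 : p = (ν, l)
    · rw [h4, Equiv.swap_apply_left]
    · by_cases h5 : p = (ν, c ν)
      · rw [h5, Equiv.swap_apply_right]
      · rw [Equiv.swap_apply_of_ne_of_ne h4 h5]
  · refine Equiv.swap_apply_of_ne_of_ne ?_ ?_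
    · intro h4
      rw [Prod.mk.injEq] at h4
      obtain ⟨rfl, h5⟩ := h4
      omega
    · intro h4
      rw [Prod.mk.injEq] at h4
      obtain ⟨rfl, h5⟩ := h4
      omega
  · intro q hq
    obtain ⟨p, hp, rfl⟩ := Finset.mem_map.1 hq
    rw [mem_box] at hp
    rw [Finset.mem_erase, mem_box]
    show Equiv.swap (ν, l) (ν, c ν) p ≠ (ν, l) ∧ (Equiv.swap (ν, l) (ν, c ν) p).1 ∈ D ∧
      (Equiv.swap (ν, l) (ν, c ν) p).2 < c' (Equiv.swap (ν, l) (ν, c ν) p).1
    have h5 : p ≠ (ν, c ν) := by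
      rintro rfl
      exact lt_irrefl _ hp.2
    by_cases h4 : p = (ν, l)
    · subst h4
      rw [Equiv.swap_apply_left]
      exact ⟨fun h => h5 h.symm, hν, hcν⟩
    · rw [Equiv.swap_apply_of_ne_of_ne h4 h5]
      exact ⟨h4, hp.1, lt_of_lt_of_le hp.2 (h _ hp.1)⟩

lemma qr_pos (hε : ∀ ν ∈ D, ε ν ≤ d) (c : ℕ → ℕ) (μ : ℕ) (hμ : μ ∈ D)
    (h : qv (N := N) K F ε d z γ D c ≠ 0) : 1 ≤ qr (N := N) K F ε d z γ D c μ := by
  have hV : (gen N K (ℕ × ℕ) F).Vz (fun p => ε p.1) d z γ (box D c) ≠ ⊥ := by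
    intro h0
    apply h
    rw [qv, h0, finrank_bot]
  have hx : (μ, c μ) ∉ box D c := by
    rw [mem_box]
    exact fun h => lt_irrefl _ h.2
  have h1 := (gen N K (ℕ × ℕ) F).Mz_ne_bot (fun p : ℕ × ℕ => ε p.1) d hx (hε μ hμ) hV
  rw [Nat.one_le_iff_ne_zero]
  intro h2
  exact h1 (Submodule.finrank_eq_zero.1 h2)

lemma qr_anti (c c' : ℕ → ℕ) (μ : ℕ) (hμ : μ ∈ D) (h : ∀ ν ∈ D, c ν ≤ c' ν) :
    qr (N := N) K F ε d z γ D c' μ ≤ qr (N := N) K F ε d z γ D c μ := by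
  rw [← qr_eq (N := N) K F ε d z γ D c μ (h μ hμ)]
  exact Submodule.finrank_mono
    ((gen N K (ℕ × ℕ) F).Mz_mono (fun p => ε p.1) d z γ (box_mono h) _)

lemma qr_le (c : ℕ → ℕ) (μ : ℕ) :
    qr (N := N) K F ε d z γ D c μ ≤
      finrank F (Rj F (Fin N) (d - ε μ) ⊓ Lz F z γ : Submodule F (MvPolynomial (Fin N) F)) := by
  have : FiniteDimensional F
      (Rj F (Fin N) (d - ε μ) ⊓ Lz F z γ : Submodule F (MvPolynomial (Fin N) F)) :=
    Submodule.finiteDimensional_of_le (inf_le_left : _ ≤ Rj F (Fin N) (d - ε μ))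
  exact Submodule.finrank_mono ((gen N K (ℕ × ℕ) F).Mz_le (fun p => ε p.1) d z γ _ _)

lemma qv_add (c : ℕ → ℕ) (μ : ℕ) (hμ : μ ∈ D) : qv (N := N) K F ε d z γ D c =
    qv (N := N) K F ε d z γ D (Function.update c μ (c μ + 1)) +
      qr (N := N) K F ε d z γ D c μ := by
  have h1 := (gen N K (ℕ × ℕ) F).finrank_insert_z (fun p => ε p.1) d z γ (box D c) (μ, c μ)
  rw [insert_box c hμ] at h1
  exact h1.symm

lemma qv_congr (c c' : ℕ → ℕ) (h : ∀ ν ∈ D, c ν = c' ν) :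
    qv (N := N) K F ε d z γ D c = qv (N := N) K F ε d z γ D c' := by
  have : box D c = box D c' := by
    ext p
    rw [mem_box, mem_box]
    constructor
    · rintro ⟨h1, h2⟩
      exact ⟨h1, by rwa [← h _ h1]⟩
    · rintro ⟨h1, h2⟩
      exact ⟨h1, by rwa [h _ h1]⟩
  rw [qv, qv, this]

theorem qdims (hN : 2 ≤ N) (hγ : γ ≤ d) (hε : ∀ ν ∈ D, ε ν ≤ d) :
    Dims D (fun ν => finrank F
        (Rj F (Fin N) (d - ε ν) ⊓ Lz F z γ : Submodule F (MvPolynomial (Fin N) F)))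
      (qv (N := N) K F ε d z γ D) (qr (N := N) K F ε d z γ D) where
  add c μ hμ := qv_add (N := N) K F ε d z γ D c μ hμ
  le c μ _ := qr_le (N := N) K F ε d z γ D c μ
  anti c c' μ hμ h := qr_anti (N := N) K F ε d z γ D c c' μ hμ h
  strict c c' μ hμ h h1 h2 h3 :=
    qr_strict (N := N) K F ε d z γ D hN hγ hε c c' μ hμ h h1 h2 h3
  pos c μ hμ h := qr_pos (N := N) K F ε d z γ D hε c μ hμ h
  congr c c' h := qv_congr (N := N) K F ε d z γ D c c' h

end Inst

section Zero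

variable {N : ℕ} {F : Type} [Field F] [CharZero F]

lemma qv_zero (K : Type) [Field K] [CharZero K]
    [Algebra (MvPolynomial ((ℕ × ℕ) × Fin N) K) F]
    [IsFractionRing (MvPolynomial ((ℕ × ℕ) × Fin N) K) F] (ε : ℕ → ℕ) (d : ℕ) (z : Fin N) (γ : ℕ)
    (D : Finset ℕ) : qv (N := N) K F ε d z γ D 0 =
      finrank F (Rj F (Fin N) d ⊓ Lz F z γ : Submodule F (MvPolynomial (Fin N) F)) := by
  have : (gen N K (ℕ × ℕ) F).Vz (fun p => ε p.1) d z γ (box D 0) = Rj F (Fin N) d ⊓ Lz F z γ := by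
    unfold PS.Vz
    congr 1
    ext p
    rw [PS.mem_V]
    constructor
    · exact fun h => h.1
    · refine fun h => ⟨h, fun i hi => ?_⟩
      rw [mem_box] at hi
      exact absurd hi.2 (Nat.not_lt_zero _)
  rw [qv, this]

end Zero

end Pool.Agent.N177.FP
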