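import Pool.Agent.N177.FP.Sys

/-!
The growth theorem in the presence of one point of large multiplicity.
-/

set_option autoImplicit false
set_option linter.unusedSectionVars false

namespace Pool.Agent.N177.FP

open MvPolynomial Module H350MG
open Pool.Agent.N177.FK (cw cw_add cw_zero cw_smul cw_mul cw_sum cw_pderiv cw_X coeff_cw'
  cw_sum_der cw_hom eu eu_hom eu_add eu_smul cw_add_der cw_monomial hom_induct cw_smul_der
  coeff_eu_self eu_monomial cw_eu cw_monomial_one deg_of_mem)

variable {N : ℕ} {Ω : Type} [Field Ω] [CharZero Ω]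

/-- the forms of degree at most `c` in the variable `z` -/
def Lz (Ω : Type) [Field Ω] (z : Fin N) (c : ℕ) : Submodule Ω (MvPolynomial (Fin N) Ω) where
  carrier := {p | ∀ α : Fin N →₀ ℕ, c < α z → coeff α p = 0}
  add_mem' := by
    intro p q hp hq α h
    rw [coeff_add, hp α h, hq α h, add_zero]
  zero_mem' := fun α _ => coeff_zero α
  smul_mem' := by
    intro t p hp α h
    rw [coeff_smul, hp α h, smul_zero]

variable {z : Fin N} {c : ℕ}

lemma mem_Lz {p : MvPolynomial (Fin N) Ω} :
    p ∈ Lz Ω z c ↔ ∀ α : Fin N →₀ ℕ, c < α z → coeff α p = 0 := Iff.rfl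

lemma Lz_cw (δ : Derivation ℤ Ω Ω) {p : MvPolynomial (Fin N) Ω} (hp : p ∈ Lz Ω z c) :
    cw δ p ∈ Lz Ω z c := by
  intro α h
  rw [coeff_cw', hp α h, map_zero]

lemma Lz_pderiv (i : Fin N) {p : MvPolynomial (Fin N) Ω} (hp : p ∈ Lz Ω z c) :
    pderiv i p ∈ Lz Ω z c := by
  intro α h
  rw [coeff_pderiv, hp, zero_mul]
  rw [Finsupp.add_apply]
  omega

lemma Lz_D (v : Fin N → Ω) {p : MvPolynomial (Fin N) Ω} (hp : p ∈ Lz Ω z c) :
    D v p ∈ Lz Ω z c := by
  rw [D_apply]
  exact Submodule.sum_mem _ fun i _ => Submodule.smul_mem _ _ (Lz_pderiv i hp)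

lemma Lz_Dpow (v : Fin N → Ω) (k : ℕ) {p : MvPolynomial (Fin N) Ω} (hp : p ∈ Lz Ω z c) :
    (D v ^ k) p ∈ Lz Ω z c := by
  induction k with
  | zero => simpa using hp
  | succ k ih =>
    rw [pow_succ', Module.End.mul_apply]
    exact Lz_D v ih

lemma coeff_eu (a b : Fin N) (p : MvPolynomial (Fin N) Ω) (s : Fin N →₀ ℕ) :
    coeff s (eu a b p) = if a ∈ s.support then
      coeff (s - Finsupp.single a 1 + Finsupp.single b 1) p *
        (((s - Finsupp.single a 1 : Fin N →₀ ℕ) b : ℕ) + 1) else 0 := by
  unfold eu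
  rw [coeff_X_mul', coeff_pderiv]

lemma Lz_eu {a b : Fin N} (h : a ≠ z ∨ (a = z ∧ b = z)) {p : MvPolynomial (Fin N) Ω}
    (hp : p ∈ Lz Ω z c) : eu a b p ∈ Lz Ω z c := by
  intro α hα
  rcases h with h | ⟨rfl, rfl⟩
  · rw [coeff_eu]
    split_ifs with h1
    · rw [hp, zero_mul]
      rw [Finsupp.add_apply, Finsupp.tsub_apply, Finsupp.single_apply, if_neg h]
      omega
    · rfl
  · rw [coeff_eu_self, hp α hα, mul_zero]

lemma Lz_eu_raise (b : Fin N) (hc : 1 ≤ c) {p : MvPolynomial (Fin N) Ω}
    (hp : p ∈ Lz Ω z (c - 1)) : eu z b p ∈ Lz Ω z c := by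
  intro α hα
  rw [coeff_eu]
  split_ifs with h1
  · rw [hp, zero_mul]
    rw [Finsupp.add_apply, Finsupp.tsub_apply, Finsupp.single_apply, if_pos rfl]
    omega
  · rfl

lemma Lz_mono {c c' : ℕ} (h : c ≤ c') : Lz Ω z c ≤ Lz Ω z c' := fun _ hp α hα =>
  hp α (lt_of_le_of_lt h hα)

lemma Rj_le_Lz {k : ℕ} (h : k ≤ c) : Rj Ω (Fin N) k ≤ Lz Ω z c := by
  intro p hp α hα
  by_contra hne
  have h1 := deg_of_mem hp hne
  have h2 : α z ≤ Finsupp.degree α := Finsupp.le_degree z α
  omega

/-- A set of monomials that is stable under the exchanges which do not raise the exponent of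
`z`. -/
theorem all_of_one' {d : ℕ} (T : Set (Fin N →₀ ℕ))
    (hT : ∀ s ∈ T, ∀ a b : Fin N, a ≠ z → 0 < s b →
      s - Finsupp.single b 1 + Finsupp.single a 1 ∈ T)
    (s : Fin N →₀ ℕ) (hs : s ∈ T) (hsd : Finsupp.degree s = d) (t : Fin N →₀ ℕ)
    (htd : Finsupp.degree t = d) (hts : t z ≤ s z) : t ∈ T := by
  classical
  obtain ⟨M, hM⟩ : ∃ M, ∑ i, (t i - s i) = M := ⟨_, rfl⟩
  induction M generalizing s with
  | zero =>
    have h1 : ∀ i, t i ≤ s i := by
      intro i
      have := (Finset.sum_eq_zero_iff.1 hM) i (Finset.mem_univ i)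
      omega
    have h2 : ∑ i, t i = ∑ i, s i := by
      rw [← Finsupp.degree_eq_sum, ← Finsupp.degree_eq_sum, htd, hsd]
    have h3 := (Finset.sum_eq_sum_iff_of_le (fun i _ => h1 i)).1 h2
    have h4 : t = s := by
      ext i
      exact h3 i (Finset.mem_univ i)
    rwa [h4]
  | succ M ih =>
    obtain ⟨a, ha⟩ : ∃ a, s a < t a := by
      by_contra hne
      push Not at hne
      have : ∑ i, (t i - s i) = 0 := Finset.sum_eq_zero fun i _ => by
        have := hne i
        omega
      omega
    have haz : a ≠ z := by rintro rfl; omega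
    obtain ⟨b, hb⟩ : ∃ b, t b < s b := by
      by_contra hne
      push Not at hne
      have h2 : ∑ i, t i = ∑ i, s i := by
        rw [← Finsupp.degree_eq_sum, ← Finsupp.degree_eq_sum, htd, hsd]
      have h3 := Finset.sum_lt_sum (fun i _ => hne i) ⟨a, Finset.mem_univ a, ha⟩
      omega
    have hab : a ≠ b := by rintro rfl; omega
    have h1 : s - Finsupp.single b 1 + Finsupp.single b 1 = s :=
      tsub_add_cancel_of_le (by rw [Finsupp.single_le_iff]; omega)
    refine ih (s - Finsupp.single b 1 + Finsupp.single a 1) (hT s hs a b haz (by omega)) ?_ ?_ ?_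
    · have h2 := congrArg Finsupp.degree h1
      rw [map_add, Finsupp.degree_single] at h2
      rw [map_add, Finsupp.degree_single, h2, hsd]
    · simp only [Finsupp.coe_add, Finsupp.coe_tsub, Pi.add_apply, Pi.sub_apply,
          Finsupp.single_apply]
      by_cases hbz : b = z
      · subst hbz
        rw [if_pos rfl]
        omega
      · rw [if_neg hbz]
        omega
    · have h2 : ∀ i, t i - (s - Finsupp.single b 1 + Finsupp.single a 1 : Fin N →₀ ℕ) i +
          (if i = a then 1 else 0) = t i - s i := by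
        intro i
        simp only [Finsupp.coe_add, Finsupp.coe_tsub, Pi.add_apply, Pi.sub_apply,
          Finsupp.single_apply]
        by_cases hia : i = a
        · subst hia
          rw [if_neg (Ne.symm hab), if_pos rfl]
          omega
        · rw [if_neg (Ne.symm hia), if_neg hia]
          by_cases hib : i = b
          · subst hib
            rw [if_pos rfl]
            omega
          · rw [if_neg (Ne.symm hib)]
            omega
      have h3 : ∑ i, (t i - (s - Finsupp.single b 1 + Finsupp.single a 1 : Fin N →₀ ℕ) i) + 1 =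
          M + 1 := by
        rw [← hM]
        simp only [← h2]
        rw [Finset.sum_add_distrib, Finset.sum_ite_eq' Finset.univ a (fun _ => 1),
          if_pos (Finset.mem_univ a)]
      omega

/-- The derivative in a direction with a nonzero coordinate `a ≠ z` is surjective on the forms
of bounded degree in `z`. -/
lemma D_surj {v : Fin N → Ω} {a : Fin N} (haz : a ≠ z) (hv : v a ≠ 0) (k : ℕ) :
    Rj Ω (Fin N) k ⊓ Lz Ω z c ≤ (Rj Ω (Fin N) (k + 1) ⊓ Lz Ω z c).map (D v) := by
  classical
  have key : ∀ j, ∀ β : Fin N →₀ ℕ, Finsupp.degree β = k → β z ≤ c → k - β a = j →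
      monomial β (1 : Ω) ∈ (Rj Ω (Fin N) (k + 1) ⊓ Lz Ω z c).map (D v) := by
    intro j
    induction j using Nat.strong_induction_on with
    | _ j ih =>
      intro β hβ hβz hj
      have h1 : D v (X a * monomial β (1 : Ω)) = v a • monomial β (1 : Ω) +
          ∑ b, v b • eu a b (monomial β (1 : Ω)) := by
        rw [D_mul, D_X, ← smul_eq_C_mul]
        congr 1
        rw [D_apply, Finset.mul_sum]
        refine Finset.sum_congr rfl fun b _ => ?_
        unfold eu
        rw [mul_smul_comm]
      have h2 : X a * monomial β (1 : Ω) ∈ Rj Ω (Fin N) (k + 1) ⊓ Lz Ω z c := by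
        have h3 : X a * monomial β (1 : Ω) = monomial (Finsupp.single a 1 + β) 1 := by
          rw [X, monomial_mul, one_mul]
        rw [h3]
        refine ⟨?_, ?_⟩
        · refine (mem_homogeneousSubmodule _ _).2 (isHomogeneous_monomial _ ?_)
          rw [map_add, Finsupp.degree_single, hβ, add_comm]
        · intro α hα
          rw [coeff_monomial, if_neg]
          rintro rfl
          rw [Finsupp.add_apply, Finsupp.single_apply, if_neg haz] at hα
          omega
      have h3 : ∀ b ∈ Finset.univ.erase a, v b • eu a b (monomial β (1 : Ω)) ∈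
          (Rj Ω (Fin N) (k + 1) ⊓ Lz Ω z c).map (D v) := by
        intro b hb
        have hba : b ≠ a := Finset.ne_of_mem_erase hb
        refine Submodule.smul_mem _ _ ?_
        rw [eu_monomial]
        by_cases h0 : β b = 0
        · rw [h0, Nat.cast_zero, zero_smul]
          exact Submodule.zero_mem _
        · refine Submodule.smul_mem _ _ ?_
          have h5 : β - Finsupp.single b 1 + Finsupp.single b 1 = β :=
            tsub_add_cancel_of_le (by rw [Finsupp.single_le_iff]; omega)
          have h6 : (β - Finsupp.single b 1 + Finsupp.single a 1 : Fin N →₀ ℕ) a = β a + 1 := by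
            rw [Finsupp.add_apply, Finsupp.tsub_apply, Finsupp.single_apply, if_neg hba,
              Finsupp.single_eq_same, Nat.sub_zero]
          have h7 : β a + β b ≤ Finsupp.degree β := by
            rw [Finsupp.degree_eq_sum]
            have h8 := Finset.sum_le_sum_of_subset (f := fun i => β i)
              (Finset.subset_univ ({a, b} : Finset (Fin N)))
            rwa [Finset.sum_pair (Ne.symm hba)] at h8
          refine ih (k - (β a + 1)) (by omega) _ ?_ ?_ (by rw [h6])
          · have h8 := congrArg Finsupp.degree h5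
            rw [map_add, Finsupp.degree_single] at h8
            rw [map_add, Finsupp.degree_single, h8, hβ]
          · simp only [Finsupp.coe_add, Finsupp.coe_tsub, Pi.add_apply, Pi.sub_apply,
              Finsupp.single_apply]
            rw [if_neg haz]
            omega
      have h4 : D v (X a * monomial β (1 : Ω)) = (v a * (1 + (β a : Ω))) • monomial β (1 : Ω) +
          ∑ b ∈ Finset.univ.erase a, v b • eu a b (monomial β (1 : Ω)) := by
        rw [h1, ← Finset.add_sum_erase Finset.univ _ (Finset.mem_univ a), ← add_assoc]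
        congr 1
        rw [eu_monomial, smul_smul]
        by_cases h0 : β a = 0
        · rw [h0, Nat.cast_zero, mul_zero, zero_smul, add_zero, add_zero, mul_one]
        · rw [tsub_add_cancel_of_le (by rw [Finsupp.single_le_iff]; omega), ← add_smul]
          congr 1
          ring
      have h5 : v a * (1 + (β a : Ω)) ≠ 0 := by
        refine mul_ne_zero hv ?_
        have : ((1 + β a : ℕ) : Ω) ≠ 0 := by
          rw [Nat.cast_ne_zero]
          omega
        push_cast at this
        exact this
      have h6 := Submodule.sub_mem _ (Submodule.mem_map_of_mem (f := D v) h2)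
        (Submodule.sum_mem _ h3)
      rw [h4, add_sub_cancel_right] at h6
      have h7 := Submodule.smul_mem _ (v a * (1 + (β a : Ω)))⁻¹ h6
      rwa [smul_smul, inv_mul_cancel₀ h5, one_smul] at h7
  rintro p ⟨hp, hp2⟩
  rw [← p.support_sum_monomial_coeff]
  refine Submodule.sum_mem _ fun β hβ => ?_
  have h1 : monomial β (coeff β p) = coeff β p • monomial β (1 : Ω) := by
    rw [smul_monomial, smul_eq_mul, mul_one]
  rw [h1]
  refine Submodule.smul_mem _ _ (key _ β (deg_of_mem hp (MvPolynomial.mem_support_iff.1 hβ)) ?_ rfl)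
  by_contra hcon
  exact MvPolynomial.mem_support_iff.1 hβ (hp2 β (by omega))

lemma Dpow_surj {v : Fin N → Ω} {a : Fin N} (haz : a ≠ z) (hv : v a ≠ 0) (j k : ℕ) :
    Rj Ω (Fin N) k ⊓ Lz Ω z c ≤ (Rj Ω (Fin N) (k + j) ⊓ Lz Ω z c).map (D v ^ j) := by
  induction j generalizing k with
  | zero =>
    intro p hp
    exact ⟨p, hp, by simp⟩
  | succ j ih =>
    intro p hp
    obtain ⟨q, hq, rfl⟩ := ih k hp
    obtain ⟨s, hs, rfl⟩ := D_surj haz hv (k + j) hq
    exact ⟨s, hs, by rw [pow_succ, Module.End.mul_apply]⟩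

/-- Selecting a monomial from a set of forms that is stable under the diagonal operators. -/
lemma extract (U : Set (MvPolynomial (Fin N) Ω)) (α : Fin N →₀ ℕ)
    (hU : ∀ F ∈ U, ∀ b : Fin N, ∀ n : ℕ, eu b b F - (n : Ω) • F ∈ U)
    (F : MvPolynomial (Fin N) Ω) (hF : F ∈ U) (h0 : coeff α F ≠ 0) :
    ∃ t : Ω, t ≠ 0 ∧ monomial α t ∈ U := by
  classical
  have hex : ∃ k, ∃ w ∈ U, coeff α w ≠ 0 ∧ w.support.card = k := ⟨_, F, hF, h0, rfl⟩
  obtain ⟨w, hwU, hw0, hwk⟩ := Nat.find_spec hex
  have hmin := fun k (hk : k < Nat.find hex) => Nat.find_min hex hk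
  have hone : ∀ β ∈ w.support, β = α := by
    intro β hβ
    by_contra hne
    obtain ⟨b, hb⟩ : ∃ b, α b ≠ β b := by
      by_contra h
      push Not at h
      exact hne (Finsupp.ext fun b => (h b).symm)
    have hco : ∀ s, coeff s (eu b b w - (β b : Ω) • w) = ((s b : Ω) - (β b : Ω)) * coeff s w := by
      intro s
      rw [coeff_sub, coeff_eu_self, coeff_smul, smul_eq_mul]
      ring
    have h1 : (eu b b w - (β b : Ω) • w).support ⊆ w.support.erase β := by
      intro s hs
      rw [MvPolynomial.mem_support_iff, hco] at hs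
      rw [Finset.mem_erase, MvPolynomial.mem_support_iff]
      refine ⟨?_, right_ne_zero_of_mul hs⟩
      rintro rfl
      exact hs (by rw [sub_self, zero_mul])
    refine hmin _ ?_ ⟨_, hU w hwU b (β b), ?_, rfl⟩
    · rw [← hwk]
      exact (Finset.card_le_card h1).trans_lt (Finset.card_erase_lt_of_mem hβ)
    · rw [hco]
      refine mul_ne_zero ?_ hw0
      rw [sub_ne_zero]
      exact_mod_cast hb
  refine ⟨coeff α w, hw0, ?_⟩
  have hw1 : w = monomial α (coeff α w) := by
    conv_lhs => rw [← w.support_sum_monomial_coeff]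
    rw [Finset.sum_eq_single α]
    · intro s hs hsm
      exact absurd (hone s hs) hsm
    · intro h
      rw [MvPolynomial.mem_support_iff, not_not] at h
      exact absurd h hw0
  rw [← hw1]
  exact hwU

end Pool.Agent.N177.FP
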