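import Pool.Agent.N177.FP.QGrow
import Pool.Agent.N177.FP.MixDim

/-!
One fixed point and several generic points: comparison with general points.
-/

set_option autoImplicit false
set_option linter.unusedSectionVars false

namespace Pool.Agent.N177.FP

open MvPolynomial Module H350MG
open Pool.Agent.TH206.Fro (Dg tp tp_hom coeff_tp tp_apply exists_minor rank_ge_of_minor)
open Pool.Agent.N177.FK (extDer extDer_algebraMap IsDer deg_of_mem)

section Compare

variable {N : ℕ} (K : Type) [Field K] [CharZero K] {F : Type} [Field F] [CharZero F] {r : ℕ}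
  {σ : Type} (φ : MvPolynomial σ K →+* F) (hφ : Function.Injective φ)

include hφ

/-- families of points: the generic member has the least dimension -/
theorem compare_le' (u : Fin r × Fin N → MvPolynomial σ K) (e : Fin r → ℕ) (d : ℕ) (w : σ → K) :
    finrank F (H350MG.K (ptList e (fun x => φ (u x))) d) ≤
      finrank K (H350MG.K (ptList e (fun x => eval w (u x))) d) := by
  have h1 := finrank_K_eq e d (fun x => eval w (u x))
  have h2 := finrank_K_eq e d (fun x => φ (u x))
  obtain ⟨ρ, hρ⟩ : ∃ ρ, ρ = (Mt e d (fun x => eval w (u x))).rank := ⟨_, rfl⟩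
  obtain ⟨f, g, hfg⟩ := exists_minor (Mt e d (fun x => eval w (u x))) ρ hρ.le
  have h3 : ρ ≤ (Mt e d (fun x => φ (u x))).rank := by
    refine rank_ge_of_minor _ _ f g ?_
    rw [← det_Mt φ]
    intro h0
    have h5 := hφ (h0.trans (map_zero φ).symm)
    apply hfg
    have h6 := det_Mt (MvPolynomial.eval w) e d u f g
    rw [← h6, h5, map_zero]
  omega

theorem compare_ge' (u : Fin r × Fin N → MvPolynomial σ K) (e : Fin r → ℕ) (d : ℕ) :
    ∃ Φ : MvPolynomial σ K, Φ ≠ 0 ∧ ∀ w : σ → K, eval w Φ ≠ 0 →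
      finrank K (H350MG.K (ptList e (fun x => eval w (u x))) d) =
        finrank F (H350MG.K (ptList e (fun x => φ (u x))) d) := by
  obtain ⟨ρ, hρ⟩ : ∃ ρ, ρ = (Mt e d (fun x => φ (u x))).rank := ⟨_, rfl⟩
  obtain ⟨f, g, hfg⟩ := exists_minor (Mt e d (fun x => φ (u x))) ρ hρ.le
  rw [← det_Mt φ] at hfg
  refine ⟨((Mt e d u).submatrix f g).det, ?_, ?_⟩
  · intro h0
    apply hfg
    rw [h0, map_zero]
  · intro w hw
    refine le_antisymm ?_ (compare_le' K φ hφ u e d w)
    have h1 := finrank_K_eq e d (fun x => eval w (u x))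
    have h2 := finrank_K_eq e d (fun x => φ (u x))
    have h3 : ρ ≤ (Mt e d (fun x => eval w (u x))).rank := by
      refine rank_ge_of_minor _ _ f g ?_
      have h6 := det_Mt (MvPolynomial.eval w) e d u f g
      rw [← h6]
      exact hw
    omega

end Compare

section Low

variable {N : ℕ} {F : Type} [Field F] [CharZero F]

/-- the number of conditions is at most the number of equations -/
lemma low_gen {r : ℕ} {W : Type} [AddCommGroup W] [Module F W] (A : Submodule F W)
    [FiniteDimensional F A] (f : Fin r → W →ₗ[F] W) (B : Fin r → Submodule F W)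
    [∀ i, FiniteDimensional F (B i)] (h : ∀ i, ∀ x ∈ A, f i x ∈ B i) :
    finrank F A ≤ finrank F (A ⊓ ⨅ i, LinearMap.ker (f i) : Submodule F W) +
      ∑ i, finrank F (B i) := by
  let g : A →ₗ[F] (∀ i, B i) := LinearMap.pi fun i =>
    ((f i).domRestrict A).codRestrict (B i) fun x => h i x.1 x.2
  have h1 := LinearMap.finrank_range_add_finrank_ker g
  have h2 : finrank F (LinearMap.range g) ≤ ∑ i, finrank F (B i) := by
    rw [← Module.finrank_pi_fintype]
    exact Submodule.finrank_le _
  have h3 : (LinearMap.ker g).map A.subtype = (A ⊓ ⨅ i, LinearMap.ker (f i) : Submodule F W) := by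
    ext x
    rw [Submodule.mem_map, Submodule.mem_inf, Submodule.mem_iInf]
    constructor
    · rintro ⟨⟨y, hy⟩, hy2, rfl⟩
      refine ⟨hy, fun i => ?_⟩
      have h4 := congrFun (LinearMap.mem_ker.1 hy2) i
      exact congrArg Subtype.val h4
    · rintro ⟨hx, hx2⟩
      refine ⟨⟨x, hx⟩, ?_, rfl⟩
      rw [LinearMap.mem_ker]
      funext i
      exact Subtype.ext (hx2 i)
  rw [← h3, ← (LinearEquiv.finrank_eq (Submodule.equivMapOfInjective _
    (Submodule.injective_subtype A) (LinearMap.ker g)))]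
  omega

/-- the forms of degree `k` killed by the `j`-th power of the derivative in the direction `v` -/
noncomputable def Kr (v : Fin N → F) (j k : ℕ) : Submodule F (MvPolynomial (Fin N) F) :=
  Rj F (Fin N) k ⊓ LinearMap.ker (D v ^ j)

instance finKr (v : Fin N → F) (j k : ℕ) : FiniteDimensional F (Kr v j k) :=
  Submodule.finiteDimensional_of_le (inf_le_left : Kr v j k ≤ Rj F (Fin N) k)

lemma finrank_Kr (hN : 2 ≤ N) {v : Fin N → F} (hv : v ≠ 0) {j k : ℕ} (hjk : j ≤ k) :
    finrank F (Kr v j k) + finrank F (Rj F (Fin N) (k - j)) = finrank F (Rj F (Fin N) k) := by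
  obtain ⟨a, ha⟩ : ∃ a, v a ≠ 0 := by
    by_contra h
    push Not at h
    exact hv (funext h)
  have : Nontrivial (Fin N) := Fin.nontrivial_iff_two_le.2 hN
  obtain ⟨z, hz⟩ := exists_ne a
  let f : Rj F (Fin N) k →ₗ[F] MvPolynomial (Fin N) F := (D v ^ j).domRestrict (Rj F (Fin N) k)
  have h1 := LinearMap.finrank_range_add_finrank_ker f
  have h2 : LinearMap.range f = Rj F (Fin N) (k - j) := by
    refine le_antisymm ?_ ?_
    · rintro _ ⟨⟨p, hp⟩, rfl⟩
      exact Dpow_hom _ hp
    · intro p hp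
      obtain ⟨q, hq, hq2⟩ := Dpow_surj (z := z) (c := k) (Ne.symm hz) ha j (k - j)
        ⟨hp, Rj_le_Lz (by omega) hp⟩
      have h3 : k - j + j = k := by omega
      rw [h3] at hq
      exact ⟨⟨q, hq.1⟩, hq2⟩
  have h3 : (LinearMap.ker f).map (Rj F (Fin N) k).subtype = Kr v j k := by
    ext p
    unfold Kr
    rw [Submodule.mem_map, Submodule.mem_inf]
    constructor
    · rintro ⟨⟨q, hq⟩, hq2, rfl⟩
      exact ⟨hq, hq2⟩
    · rintro ⟨hp, hp2⟩
      exact ⟨⟨p, hp⟩, hp2, rfl⟩
  rw [h2] at h1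
  rw [← h3, ← (LinearEquiv.finrank_eq (Submodule.equivMapOfInjective _
    (Submodule.injective_subtype _) (LinearMap.ker f)))]
  omega

lemma Kr_eq_of_lt (v : Fin N → F) {j k : ℕ} (hjk : k < j) : Kr v j k = Rj F (Fin N) k := by
  unfold Kr
  rw [inf_eq_left]
  intro p hp
  rw [LinearMap.mem_ker]
  have h1 : ∀ i, ∀ k, ∀ p ∈ Rj F (Fin N) k, (D v ^ (k + 1 + i)) p = 0 := by
    intro i
    induction i with
    | zero =>
      intro k p hp
      rw [add_zero, pow_succ', Module.End.mul_apply]
      have h2 := Dpow_hom (v := v) k hp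
      rw [Nat.sub_self] at h2
      exact D_zero_hom h2
    | succ i ih =>
      intro k p hp
      rw [← add_assoc, pow_succ', Module.End.mul_apply, ih k p hp, map_zero]
  obtain ⟨i, rfl⟩ : ∃ i, j = k + 1 + i := ⟨j - (k + 1), by omega⟩
  exact h1 i k p hp

/-- `Kr` for every order: the truncated subtraction gives the right formula -/
lemma finrank_Kr_fin {n : ℕ} (hn : 1 ≤ n) {v : Fin (n + 1) → F} (hv : v ≠ 0) (c k : ℕ) :
    finrank F (Kr v (c + 1) k) + (n + (k - c) - 1).choose n = (n + k).choose n := by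
  rcases lt_or_ge c k with h | h
  · have h1 := finrank_Kr (by omega) hv (j := c + 1) (k := k) (by omega)
    rw [finrank_Rj_fin, finrank_Rj_fin] at h1
    have h2 : n + (k - c) - 1 = n + (k - (c + 1)) := by omega
    rw [h2]
    exact h1
  · rw [Kr_eq_of_lt v (by omega), finrank_Rj_fin, Nat.sub_eq_zero_of_le h,
      Nat.choose_eq_zero_of_lt (by omega : n + 0 - 1 < n), add_zero]

lemma D_single (z : Fin N) (p : MvPolynomial (Fin N) F) :
    D (Pi.single z (1 : F)) p = pderiv z p := by
  classical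
  rw [D_apply, Finset.sum_eq_single z]
  · rw [Pi.single_eq_same, one_smul]
  · intro b _ hb
    rw [Pi.single_eq_of_ne hb, zero_smul]
  · intro h
    exact absurd (Finset.mem_univ _) h

lemma Dpow_single_iff (z : Fin N) (k : ℕ) (p : MvPolynomial (Fin N) F) :
    (D (Pi.single z (1 : F)) ^ k) p = 0 ↔ ∀ α : Fin N →₀ ℕ, k ≤ α z → coeff α p = 0 := by
  classical
  induction k generalizing p with
  | zero =>
    rw [pow_zero, Module.End.one_apply]
    constructor
    · intro h α _
      rw [h, coeff_zero]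
    · intro h
      ext α
      rw [h α (Nat.zero_le _), coeff_zero]
  | succ k ih =>
    rw [pow_succ, Module.End.mul_apply, ih, D_single]
    constructor
    · intro h α hα
      have h1 : α - Finsupp.single z 1 + Finsupp.single z 1 = α :=
        tsub_add_cancel_of_le (by rw [Finsupp.single_le_iff]; omega)
      have h2 := h (α - Finsupp.single z 1) (by
        rw [Finsupp.tsub_apply, Finsupp.single_eq_same]
        omega)
      rw [coeff_pderiv, h1] at h2
      exact (mul_eq_zero.1 h2).resolve_right (Nat.cast_add_one_ne_zero _)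
    · intro h α hα
      rw [coeff_pderiv, h, zero_mul]
      rw [Finsupp.add_apply, Finsupp.single_eq_same]
      omega

lemma Kr_single (z : Fin N) (c k : ℕ) :
    Kr (Pi.single z (1 : F)) (c + 1) k = Rj F (Fin N) k ⊓ Lz F z c := by
  unfold Kr
  congr 1
  ext p
  rw [LinearMap.mem_ker, Dpow_single_iff, mem_Lz]
  exact Iff.rfl

/-- the points `p` and `w` -/
def consPt {A : Type} {r : ℕ} (p : Fin N → A) (w : Fin r × Fin N → A) :
    Fin (r + 1) × Fin N → A :=
  fun x => Fin.cases (motive := fun _ => A) (p x.2) (fun i => w (i, x.2)) x.1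

lemma consPt_zero {A : Type} {r : ℕ} (p : Fin N → A) (w : Fin r × Fin N → A) (c : Fin N) :
    consPt p w (0, c) = p c := rfl

lemma consPt_succ {A : Type} {r : ℕ} (p : Fin N → A) (w : Fin r × Fin N → A) (i : Fin r)
    (c : Fin N) : consPt p w (i.succ, c) = w (i, c) := rfl

lemma consPt_map {A B : Type} {r : ℕ} (f : A → B) (p : Fin N → A) (w : Fin r × Fin N → A)
    (x : Fin (r + 1) × Fin N) :
    f (consPt p w x) = consPt (fun c => f (p c)) (fun y => f (w y)) x := by
  obtain ⟨i, c⟩ := x
  refine Fin.cases ?_ (fun i => ?_) i <;> rfl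

lemma mem_K_cons {r : ℕ} (k : ℕ) (e : Fin r → ℕ) (d : ℕ) (p : Fin N → F)
    (w : Fin r × Fin N → F) (P : MvPolynomial (Fin N) F) :
    P ∈ H350MG.K (ptList (Fin.cons k e : Fin (r + 1) → ℕ) (consPt p w)) d ↔
      P ∈ Rj F (Fin N) d ∧ (D p ^ k) P = 0 ∧ ∀ i, (D (fun c => w (i, c)) ^ e i) P = 0 := by
  rw [mem_K]
  have e1 : (fun c => consPt p w (0, c)) = p := rfl
  have e2 : ∀ i : Fin r, (fun c => consPt p w (i.succ, c)) = fun c => w (i, c) := fun i => rfl
  refine and_congr_right fun _ => ⟨fun h => ⟨?_, fun i => ?_⟩, ?_⟩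
  · have h1 := h _ (mem_ptList (e := (Fin.cons k e : Fin (r + 1) → ℕ)) (consPt p w) 0)
    have h2 : (D (fun c => consPt p w (0, c)) ^ (Fin.cons k e : Fin (r + 1) → ℕ) 0) P = 0 := h1
    rw [Fin.cons_zero, e1] at h2
    exact h2
  · have h1 := h _ (mem_ptList (e := (Fin.cons k e : Fin (r + 1) → ℕ)) (consPt p w) i.succ)
    have h2 : (D (fun c => consPt p w (i.succ, c)) ^
      (Fin.cons k e : Fin (r + 1) → ℕ) i.succ) P = 0 := h1
    rw [Fin.cons_succ, e2] at h2
    exact h2
  · rintro ⟨h1, h2⟩ c hc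
    obtain ⟨i, rfl⟩ := exists_of_mem_ptList hc
    show (D (fun c => consPt p w (i, c)) ^ (Fin.cons k e : Fin (r + 1) → ℕ) i) P = 0
    rcases Fin.eq_zero_or_eq_succ i with rfl | ⟨j, rfl⟩
    · rw [Fin.cons_zero, e1]
      exact h1
    · rw [Fin.cons_succ, e2]
      exact h2 j

end Low

section Gen

variable {N : ℕ} (K : Type) [Field K] [CharZero K] {ι : Type} [DecidableEq ι]
  (F : Type) [Field F] [CharZero F] [Algebra (MvPolynomial (ι × Fin N) K) F]
  [IsFractionRing (MvPolynomial (ι × Fin N) K) F] (e : ι → ℕ) (d : ℕ) (z : Fin N) (c : ℕ)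

lemma Vz_eq_K {r : ℕ} (s : Fin r → ι) :
    (gen N K ι F).Vz e d z c (Finset.univ.image s) =
      H350MG.K (ptList (Fin.cons (c + 1) (fun i => e (s i)) : Fin (r + 1) → ℕ)
        (consPt (Pi.single z 1) (fun x => phi (N := N) K F s (X x)))) d := by
  ext p
  rw [mem_K_cons, Dpow_single_iff]
  have hV := V_eq_K (N := N) K F e d s
  constructor
  · rintro ⟨h1, h2⟩
    refine ⟨h1.1, fun α hα => h2 α (by omega), fun i => ?_⟩
    have h1' : p ∈ (gen N K ι F).V e d (Finset.univ.image s) := h1
    rw [hV, mem_K] at h1'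
    have h3 := h1'.2 _ (mem_ptList (e := fun i => e (s i))
      (fun x => phi (N := N) K F s (X x)) i)
    have h4 : (D (fun c => phi (N := N) K F s (X (i, c))) ^ e (s i)) p = 0 := h3
    exact h4
  · rintro ⟨h1, h2, h3⟩
    refine ⟨?_, fun α hα => h2 α (by omega)⟩
    show p ∈ (gen N K ι F).V e d (Finset.univ.image s)
    rw [hV, mem_K]
    refine ⟨h1, fun c hc => ?_⟩
    obtain ⟨i, rfl⟩ := exists_of_mem_ptList hc
    have h4 := h3 i
    show (D (fun c => phi (N := N) K F s (X (i, c))) ^ e (s i)) p = 0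
    exact h4

theorem general_dim_z {r : ℕ} (s : Fin r → ι) (hs : Function.Injective s) :
    ∃ Φ : MvPolynomial (Fin r × Fin N) K, Φ ≠ 0 ∧ ∀ w : Fin r × Fin N → K, eval w Φ ≠ 0 →
      finrank K (H350MG.K (ptList (Fin.cons (c + 1) (fun i => e (s i)) : Fin (r + 1) → ℕ)
        (consPt (Pi.single z 1) w)) d) =
        finrank F ((gen N K ι F).Vz e d z c (Finset.univ.image s)) := by
  obtain ⟨Φ, h1, h2⟩ := compare_ge' (N := N) K (phi (N := N) K F s) (phi_inj K F hs)
    (consPt (Pi.single z 1) X) (Fin.cons (c + 1) (fun i => e (s i)) : Fin (r + 1) → ℕ) d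
  refine ⟨Φ, h1, fun w hw => ?_⟩
  have h3 := h2 w hw
  have h4 : (fun x => eval w (consPt (Pi.single z 1) X x)) = consPt (Pi.single z 1) w := by
    funext x
    rw [consPt_map (fun q => eval w q)]
    congr 1
    · funext c
      rw [Pi.single_apply, Pi.single_apply]
      split_ifs
      · rw [map_one]
      · rw [map_zero]
    · funext y
      rw [eval_X]
  have h5 : (fun x => phi (N := N) K F s (consPt (Pi.single z 1) X x)) =
      consPt (Pi.single z 1) (fun x => phi (N := N) K F s (X x)) := by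
    funext x
    rw [consPt_map (fun q => phi (N := N) K F s q)]
    congr 1
    funext c
    rw [Pi.single_apply, Pi.single_apply]
    split_ifs
    · rw [map_one]
    · rw [map_zero]
  rw [h4, h5] at h3
  rw [h3, Vz_eq_K]

theorem finrank_Vz_map (π : Equiv.Perm ι) (hπ : ∀ i, e (π i) = e i) (J : Finset ι) :
    finrank F ((gen N K ι F).Vz e d z c (J.map π.toEmbedding)) =
      finrank F ((gen N K ι F).Vz e d z c J) := by
  classical
  let s : Fin J.card → ι := fun i => (J.equivFin.symm i).1
  have hs : Function.Injective s := Subtype.val_injective.comp J.equivFin.symm.injective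
  have hs1 : Finset.univ.image s = J := by
    ext j
    rw [Finset.mem_image]
    constructor
    · rintro ⟨i, _, rfl⟩
      exact (J.equivFin.symm i).2
    · intro hj
      exact ⟨J.equivFin ⟨j, hj⟩, Finset.mem_univ _, by simp [s]⟩
  have hs2 : Finset.univ.image (fun i => π (s i)) = J.map π.toEmbedding := by
    have h0 : (Finset.univ.image s).map π.toEmbedding = J.map π.toEmbedding :=
      congrArg (fun T => Finset.map π.toEmbedding T) hs1
    rw [← h0]
    ext j
    rw [Finset.mem_image, Finset.mem_map]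
    constructor
    · rintro ⟨i, _, rfl⟩
      exact ⟨s i, Finset.mem_image_of_mem s (Finset.mem_univ i), rfl⟩
    · rintro ⟨y, hy, rfl⟩
      obtain ⟨i, _, rfl⟩ := Finset.mem_image.1 hy
      exact ⟨i, Finset.mem_univ _, rfl⟩
  obtain ⟨Φ, h1, h2⟩ := general_dim_z (N := N) K F e d z c s hs
  obtain ⟨Ψ, h3, h4⟩ := general_dim_z (N := N) K F e d z c (fun i => π (s i))
    (π.injective.comp hs)
  obtain ⟨w, hw⟩ : ∃ w : Fin J.card × Fin N → K, eval w (Φ * Ψ) ≠ 0 := by
    by_contra hcon
    push Not at hcon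
    exact mul_ne_zero h1 h3 (MvPolynomial.funext fun w => by rw [hcon w, map_zero])
  rw [map_mul] at hw
  have h5 := h2 w (left_ne_zero_of_mul hw)
  have h6 := h4 w (right_ne_zero_of_mul hw)
  rw [hs1] at h5
  rw [hs2] at h6
  have h7 : (fun i => e (π (s i))) = fun i => e (s i) := funext fun i => hπ (s i)
  rw [h7] at h6
  rw [← h6, h5]

theorem finrank_Mz_map (π : Equiv.Perm ι) (hπ : ∀ i, e (π i) = e i) (J : Finset ι) (x : ι) :
    finrank F ((gen N K ι F).Mz e d z c (J.map π.toEmbedding) (π x)) =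
      finrank F ((gen N K ι F).Mz e d z c J x) := by
  have h1 := (gen N K ι F).finrank_insert_z e d z c J x
  have h2 := (gen N K ι F).finrank_insert_z e d z c (J.map π.toEmbedding) (π x)
  have h3 : insert (π x) (J.map π.toEmbedding) = (insert x J).map π.toEmbedding := by
    rw [Finset.map_insert]
    rfl
  rw [h3, finrank_Vz_map K F e d z c π hπ, finrank_Vz_map K F e d z c π hπ] at h2
  omega

/-- The strict decrease of the number of conditions. -/
theorem step_z (hN : 2 ≤ N) {J J' : Finset ι} {x : ι} (hx : x ∉ J') (he : e x ≤ d) (hc : c ≤ d)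
    (hV : (gen N K ι F).Vz e d z c J' ≠ ⊥)
    (hfull : finrank F ((gen N K ι F).Mz e d z c J' x) <
      finrank F (Rj F (Fin N) (d - e x) ⊓ Lz F z c : Submodule F (MvPolynomial (Fin N) F)))
    (hπ : ∀ i ∈ J', ∃ π : Equiv.Perm ι, (∀ j, e (π j) = e j) ∧ π x = x ∧
      J.map π.toEmbedding ⊆ J'.erase i) :
    finrank F ((gen N K ι F).Mz e d z c J' x) < finrank F ((gen N K ι F).Mz e d z c J x) := by
  by_contra hcon
  push Not at hcon
  obtain ⟨a0, ha0⟩ : ∃ a0 : Fin N, a0 ≠ z := by
    have : Nontrivial (Fin N) := Fin.nontrivial_iff_two_le.2 hN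
    exact exists_ne z
  have h1 := (gen N K ι F).growth_z e d hx he hc ha0 hV (fun i hi => by
    obtain ⟨π, hπe, hπx, hπJ⟩ := hπ i hi
    have h2 := (gen N K ι F).Mz_mono e d z c (Finset.erase_subset i J') x
    have h3 := (gen N K ι F).Mz_mono e d z c hπJ x
    have h4 := finrank_Mz_map (N := N) K F e d z c π hπe J x
    rw [hπx] at h4
    have h5 := Submodule.finrank_mono h3
    exact (Submodule.eq_of_le_of_finrank_le h2 (by omega)).ge)
  rw [h1] at hfull
  exact lt_irrefl _ hfull

end Gen

end Pool.Agent.N177.FP
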