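import Pool.Agent.N177.FP.Step

/-!
The uniform case: the sequence of the numbers of conditions imposed by equal fat points.
-/

set_option autoImplicit false
set_option linter.unusedSectionVars false

namespace Pool.Agent.N177.FP

open MvPolynomial Module H350MG

section Abstract

variable {a ρ : ℕ → ℕ} {N E : ℕ}

lemma seq_L1 (F1 : ∀ r, a r = a (r + 1) + ρ r) (F3 : ∀ r, ρ (r + 1) ≤ ρ r)
    (F4 : ∀ r, a (r + 1) ≠ 0 → ρ (r + 1) < N → ρ (r + 1) < ρ r) (F5 : ∀ r, a r ≠ 0 → 1 ≤ ρ r) :
    ∀ k i, a i = k → ρ i < N → 2 * a i ≤ ρ i * (ρ i + 1) := by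
  intro k
  induction k using Nat.strong_induction_on with
  | _ k ih =>
    intro i hi hρ
    by_cases h0 : a i = 0
    · rw [h0, mul_zero]
      exact Nat.zero_le _
    · have h1 := F5 i h0
      have h2 := F1 i
      by_cases h3 : a (i + 1) = 0
      · rw [h3, zero_add] at h2
        rw [h2]
        nlinarith
      · have h4 := F4 i h3 (lt_of_le_of_lt (F3 i) hρ)
        have h5 := ih (a (i + 1)) (by omega) (i + 1) rfl (lt_of_le_of_lt (F3 i) hρ)
        have h6 : ρ (i + 1) * (ρ (i + 1) + 1) ≤ (ρ i - 1) * ρ i :=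
          Nat.mul_le_mul (by omega) (by omega)
        obtain ⟨t, ht⟩ : ∃ t, ρ i = t + 1 := ⟨ρ i - 1, by omega⟩
        rw [ht] at h6 h2 ⊢
        simp only [Nat.add_sub_cancel] at h6
        nlinarith

theorem seq_pos (F1 : ∀ r, a r = a (r + 1) + ρ r) (F2 : ∀ r, ρ r ≤ N) (F3 : ∀ r, ρ (r + 1) ≤ ρ r)
    (F4 : ∀ r, a (r + 1) ≠ 0 → ρ (r + 1) < N → ρ (r + 1) < ρ r) (F5 : ∀ r, a r ≠ 0 → 1 ≤ ρ r)
    (F6 : a 0 = E) (r : ℕ) (h : N * (2 * r + N) < 2 * E + 3 * N) : a r + r * N = E := by
  by_cases hall : ∀ i < r, ρ i = N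
  · have : ∀ j ≤ r, a j + j * N = E := by
      intro j
      induction j with
      | zero => intro _; rw [zero_mul, add_zero, F6]
      | succ j ih =>
        intro hj
        have h1 := ih (by omega)
        have h2 := F1 j
        rw [hall j (by omega)] at h2
        rw [← h1, h2]
        ring
    exact this r le_rfl
  · exfalso
    push Not at hall
    classical
    have hex : ∃ i, i < r ∧ ρ i ≠ N := hall
    obtain ⟨i0, ⟨hi0, hρ0⟩, hmin⟩ : ∃ i0, (i0 < r ∧ ρ i0 ≠ N) ∧ ∀ j < i0, ¬ (j < r ∧ ρ j ≠ N) :=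
      ⟨Nat.find hex, Nat.find_spec hex, fun j hj => Nat.find_min hex hj⟩
    have h1 : ∀ j ≤ i0, a j + j * N = E := by
      intro j
      induction j with
      | zero => intro _; rw [zero_mul, add_zero, F6]
      | succ j ih =>
        intro hj
        have h1 := ih (by omega)
        have h2 := F1 j
        have h3 : ρ j = N := by
          by_contra hne
          exact hmin j (by omega) ⟨by omega, hne⟩
        rw [h3] at h2
        rw [← h1, h2]
        ring
    have h2 := h1 i0 le_rfl
    have h3 : ρ i0 < N := lt_of_le_of_ne (F2 i0) hρ0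
    have h4 := seq_L1 F1 F3 F4 F5 _ i0 rfl h3
    have h5 : ρ i0 * (ρ i0 + 1) ≤ (N - 1) * N := Nat.mul_le_mul (by omega) (by omega)
    obtain ⟨t, ht⟩ : ∃ t, N = t + 1 := ⟨N - 1, by omega⟩
    obtain ⟨u, hu⟩ : ∃ u, r = i0 + 1 + u := ⟨r - (i0 + 1), by omega⟩
    subst ht hu
    simp only [Nat.add_sub_cancel] at h5
    nlinarith [Nat.zero_le (u * (t + 1))]

theorem seq_neg (F1 : ∀ r, a r = a (r + 1) + ρ r) (F2 : ∀ r, ρ r ≤ N) (F3 : ∀ r, ρ (r + 1) ≤ ρ r)
    (F4 : ∀ r, a (r + 1) ≠ 0 → ρ (r + 1) < N → ρ (r + 1) < ρ r) (F5 : ∀ r, a r ≠ 0 → 1 ≤ ρ r)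
    (F6 : a 0 = E) (r : ℕ) (h : E < ∑ t ∈ Finset.range (r + 1), min N (t + 1)) : a r = 0 := by
  by_contra h0
  have hpos : ∀ j, a (r - j) ≠ 0 := by
    intro j
    induction j with
    | zero => exact h0
    | succ j ih =>
      by_cases hj : j < r
      · have h1 := F1 (r - (j + 1))
        rw [show r - (j + 1) + 1 = r - j by omega] at h1
        omega
      · rw [show r - (j + 1) = r - j by omega]
        exact ih
  have hρ : ∀ j ≤ r, min N (j + 1) ≤ ρ (r - j) := by
    intro j
    induction j with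
    | zero =>
      intro _
      exact le_trans (min_le_right _ _) (F5 r h0)
    | succ j ih =>
      intro hj
      have h1 := ih (by omega)
      have h2 := F4 (r - (j + 1))
      have h3 := F3 (r - (j + 1))
      rw [show r - (j + 1) + 1 = r - j by omega] at h2 h3
      have h4 := h2 (hpos j)
      have h5 := F2 (r - (j + 1))
      rcases le_or_gt N (ρ (r - j)) with h6 | h6
      · exact le_trans (min_le_left _ _) (h6.trans h3)
      · have h7 := h4 h6
        have h8 : j + 1 ≤ ρ (r - j) := by
          rcases le_total N (j + 1) with h9 | h9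
          · rw [min_eq_left h9] at h1
            omega
          · rw [min_eq_right h9] at h1
            exact h1
        exact le_trans (min_le_right _ _) (by omega)
  have hsum : ∀ j ≤ r, ∑ t ∈ Finset.range (j + 1), min N (t + 1) ≤ a (r - j) := by
    intro j
    induction j with
    | zero =>
      intro _
      rw [Finset.sum_range_one]
      exact le_trans (min_le_right _ _) (Nat.one_le_iff_ne_zero.2 h0)
    | succ j ih =>
      intro hj
      rw [Finset.sum_range_succ]
      have h1 := ih (by omega)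
      have h2 := F1 (r - (j + 1))
      rw [show r - (j + 1) + 1 = r - j by omega] at h2
      have h3 := hρ (j + 1) hj
      omega
  have h1 := hsum r le_rfl
  rw [Nat.sub_self, F6] at h1
  omega

theorem seq_defect (F1 : ∀ r, a r = a (r + 1) + ρ r) (F2 : ∀ r, ρ r ≤ N)
    (F3 : ∀ r, ρ (r + 1) ≤ ρ r)
    (F4 : ∀ r, a (r + 1) ≠ 0 → ρ (r + 1) < N → ρ (r + 1) < ρ r) (F5 : ∀ r, a r ≠ 0 → 1 ≤ ρ r)
    (F6 : a 0 = E) (hN : 1 ≤ N) (r : ℕ) : 8 * a r + 1 ≤ N * N + 8 * (E - r * N) := by
  by_cases hall : ∀ i < r, ρ i = N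
  · have : ∀ j ≤ r, a j + j * N = E := by
      intro j
      induction j with
      | zero => intro _; rw [zero_mul, add_zero, F6]
      | succ j ih =>
        intro hj
        have h1 := ih (by omega)
        have h2 := F1 j
        rw [hall j (by omega)] at h2
        rw [← h1, h2]
        ring
    have h1 := this r le_rfl
    have h2 : E - r * N = a r := by omega
    have h3 : 1 ≤ N * N := Nat.mul_pos hN hN
    rw [h2]
    omega
  · push Not at hall
    classical
    have hex : ∃ i, i < r ∧ ρ i ≠ N := hall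
    obtain ⟨i0, ⟨hi0, hρ0⟩, hmin⟩ : ∃ i0, (i0 < r ∧ ρ i0 ≠ N) ∧ ∀ j < i0, ¬ (j < r ∧ ρ j ≠ N) :=
      ⟨Nat.find hex, Nat.find_spec hex, fun j hj => Nat.find_min hex hj⟩
    have h1 : ∀ j ≤ i0, a j + j * N = E := by
      intro j
      induction j with
      | zero => intro _; rw [zero_mul, add_zero, F6]
      | succ j ih =>
        intro hj
        have h1 := ih (by omega)
        have h2 := F1 j
        have h3 : ρ j = N := by
          by_contra hne
          exact hmin j (by omega) ⟨by omega, hne⟩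
        rw [h3] at h2
        rw [← h1, h2]
        ring
    have h2 := h1 i0 le_rfl
    have h3 : ρ i0 < N := lt_of_le_of_ne (F2 i0) hρ0
    by_cases h0 : a r = 0
    · rw [h0]
      have : 1 ≤ N * N := Nat.mul_pos hN hN
      omega
    -- the numbers of conditions are less than `N` from `i0` on
    have hlt : ∀ j, ρ (i0 + j) < N := by
      intro j
      induction j with
      | zero => exact h3
      | succ j ih => exact lt_of_le_of_lt (F3 (i0 + j)) ih
    obtain ⟨k, hk⟩ : ∃ k, r = i0 + k := ⟨r - i0, by omega⟩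
    have key : ∀ t, t ≤ k → ρ r + t ≤ ρ (i0 + (k - t)) ∧ a (i0 + (k - t)) ≠ 0 ∧
        2 * a r + 2 * t * ρ r + t * (t + 1) ≤ 2 * a (i0 + (k - t)) := by
      intro t
      induction t with
      | zero =>
        intro _
        rw [Nat.sub_zero, ← hk]
        refine ⟨le_rfl, h0, by simp⟩
      | succ t ih =>
        intro ht
        obtain ⟨ih1, ih2, ih3⟩ := ih (by omega)
        have e1 : i0 + (k - t) = i0 + (k - (t + 1)) + 1 := by omega
        rw [e1] at ih1 ih2 ih3
        have h4 := F4 _ ih2 (by rw [← e1]; exact hlt _)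
        have h5 := F1 (i0 + (k - (t + 1)))
        refine ⟨by omega, by omega, ?_⟩
        rw [h5]
        nlinarith
    obtain ⟨hk1, -, hk3⟩ := key k le_rfl
    rw [Nat.sub_self, add_zero] at hk1 hk3
    have hrlt : ρ r < N := by rw [hk]; exact hlt k
    have h6 := seq_L1 F1 F3 F4 F5 _ r rfl hrlt
    obtain ⟨s, hs⟩ : ∃ s, s = ρ r := ⟨_, rfl⟩
    rw [← hs] at hk1 hk3 hrlt h6
    obtain ⟨q, hq⟩ : ∃ q, N = s + q + 1 := ⟨N - 1 - s, by omega⟩
    have hkq : k ≤ q := by omega
    obtain ⟨u, rfl⟩ : ∃ u, q = k + u := ⟨q - k, by omega⟩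
    have hE : E - r * N = a i0 - k * N := by
      have e1 : r * N = i0 * N + k * N := by rw [hk]; ring
      omega
    rw [hE]
    rcases le_total s (k + u) with hsq | hsq
    · have h7 : 8 * a r + 1 ≤ N * N := by
        rw [hq]
        nlinarith
      omega
    · -- `q ≤ s`
      have h8 : 8 * a r + 1 + 8 * (k * N) ≤ N * N + 8 * a i0 := by
        obtain ⟨w, rfl⟩ : ∃ w, s = k + u + w := ⟨s - (k + u), by omega⟩
        rw [hq]
        nlinarith [Nat.zero_le (w * w), Nat.zero_le (w * (k + u)), Nat.zero_le (u * u), Nat.zero_le w]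
      have h9 : a i0 ≤ k * N → 8 * a r + 1 ≤ N * N := by
        intro h
        omega
      rcases le_total (a i0) (k * N) with h10 | h10
      · have := h9 h10
        omega
      · omega

lemma sum_min_ge (N : ℕ) (r : ℕ) :
    N * (2 * r + 3) ≤ 2 * ∑ t ∈ Finset.range (r + 1), min N (t + 1) + N * N := by
  induction r with
  | zero =>
    rw [Finset.sum_range_one]
    rcases Nat.eq_zero_or_pos N with rfl | h
    · simp
    · rw [min_eq_right (by omega)]
      obtain ⟨t, rfl⟩ : ∃ t, N = t + 1 := ⟨N - 1, by omega⟩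
      rcases t with _ | t
      · norm_num
      · nlinarith
  | succ r ih =>
    rw [Finset.sum_range_succ]
    rcases le_total N (r + 1 + 1) with h | h
    · rw [min_eq_left h]
      nlinarith
    · rw [min_eq_right h]
      have h1 : ∀ k, k ≤ N → 2 * ∑ t ∈ Finset.range k, min N (t + 1) = k * (k + 1) := by
        intro k
        induction k with
        | zero => intro _; simp
        | succ k ih =>
          intro hk
          rw [Finset.sum_range_succ, mul_add, ih (by omega), min_eq_right (by omega)]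
          ring
      have h2 := h1 (r + 1) (by omega)
      have h3 : 2 * (∑ t ∈ Finset.range (r + 1), min N (t + 1) + (r + 1 + 1)) =
          (r + 1) * (r + 1 + 1) + 2 * (r + 1 + 1) := by
        rw [mul_add, h2]
      rw [h3]
      obtain ⟨t, rfl⟩ : ∃ t, N = r + 1 + 1 + t := ⟨N - (r + 1 + 1), by omega⟩
      nlinarith [Nat.zero_le (t * t), Nat.le_mul_self t]

end Abstract

section Uniform

variable {N : ℕ} (K : Type) [Field K] [CharZero K]
  (F : Type) [Field F] [CharZero F] [Algebra (MvPolynomial (ℕ × Fin N) K) F]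
  [IsFractionRing (MvPolynomial (ℕ × Fin N) K) F] (e d : ℕ)

/-- the dimension of the generic uniform system -/
noncomputable def ua (r : ℕ) : ℕ :=
  finrank F ((gen N K ℕ F).V (fun _ => e) d (Finset.range r))

/-- the number of conditions imposed by the next point -/
noncomputable def ur (r : ℕ) : ℕ :=
  finrank F ((gen N K ℕ F).M (fun _ => e) d (Finset.range r) r)

lemma ua_succ (r : ℕ) : ua (N := N) K F e d r = ua (N := N) K F e d (r + 1) + ur (N := N) K F e d r := by
  have h1 := (gen N K ℕ F).finrank_insert (fun _ => e) d (Finset.range r) r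
  rw [← Finset.range_add_one] at h1
  exact h1.symm

lemma ur_le (r : ℕ) : ur (N := N) K F e d r ≤ finrank F (Rj F (Fin N) (d - e)) :=
  Submodule.finrank_mono ((gen N K ℕ F).M_le (fun _ => e) d (Finset.range r) r)

lemma ur_eq (r : ℕ) : finrank F ((gen N K ℕ F).M (fun _ => e) d (Finset.range r) (r + 1)) =
    ur (N := N) K F e d r := by
  have h1 := finrank_M_map (N := N) K F (fun _ => e) d (Equiv.swap r (r + 1)) (fun _ => rfl)
    (Finset.range r) r
  have h2 : (Finset.range r).map (Equiv.swap r (r + 1)).toEmbedding = Finset.range r := by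
    ext j
    rw [Finset.mem_map]
    constructor
    · rintro ⟨i, hi, rfl⟩
      rw [Finset.mem_range] at hi
      show Equiv.swap r (r + 1) i ∈ _
      rw [Equiv.swap_apply_of_ne_of_ne (by omega) (by omega), Finset.mem_range]
      exact hi
    · intro hj
      rw [Finset.mem_range] at hj
      refine ⟨j, Finset.mem_range.2 hj, ?_⟩
      show Equiv.swap r (r + 1) j = j
      rw [Equiv.swap_apply_of_ne_of_ne (by omega) (by omega)]
  rw [h2, Equiv.swap_apply_left] at h1
  exact h1

lemma ur_anti (r : ℕ) : ur (N := N) K F e d (r + 1) ≤ ur (N := N) K F e d r := by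
  rw [← ur_eq (N := N) K F e d r]
  exact Submodule.finrank_mono ((gen N K ℕ F).M_mono (fun _ => e) d
    (Finset.range_mono (Nat.le_succ r)) (r + 1))

lemma ur_pos (he : e ≤ d) (r : ℕ) (h : ua (N := N) K F e d r ≠ 0) : 1 ≤ ur (N := N) K F e d r := by
  have h1 := (gen N K ℕ F).M_ne_bot (fun _ => e) d (J := Finset.range r) (x := r) (by simp) he
    (fun h0 => h (by rw [ua, h0, finrank_bot]))
  rw [Nat.one_le_iff_ne_zero]
  intro h2
  exact h1 (Submodule.finrank_eq_zero.1 h2)

lemma ur_strict (he : e ≤ d) (r : ℕ) (h : ua (N := N) K F e d (r + 1) ≠ 0)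
    (hlt : ur (N := N) K F e d (r + 1) < finrank F (Rj F (Fin N) (d - e))) :
    ur (N := N) K F e d (r + 1) < ur (N := N) K F e d r := by
  rw [← ur_eq (N := N) K F e d r]
  refine step (N := N) K F (fun _ => e) d (J := Finset.range r) (J' := Finset.range (r + 1))
    (x := r + 1) (by simp) he (fun h0 => h (by rw [ua, h0, finrank_bot])) hlt ?_
  intro i hi
  rw [Finset.mem_range] at hi
  refine ⟨Equiv.swap i r, fun _ => rfl, Equiv.swap_apply_of_ne_of_ne (by omega) (by omega), ?_⟩
  intro j hj
  obtain ⟨k, hk, rfl⟩ := Finset.mem_map.1 hj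
  rw [Finset.mem_range] at hk
  rw [Finset.mem_erase, Finset.mem_range]
  show Equiv.swap i r k ≠ i ∧ Equiv.swap i r k < r + 1
  by_cases hki : k = i
  · subst hki
    rw [Equiv.swap_apply_left]
    omega
  · rw [Equiv.swap_apply_of_ne_of_ne hki (by omega)]
    omega

lemma ua_zero : ua (N := N) K F e d 0 = finrank F (Rj F (Fin N) d) := by
  have : (gen N K ℕ F).V (fun _ => e) d (Finset.range 0) = Rj F (Fin N) d := by
    ext p
    rw [PS.mem_V]
    simp
  rw [ua, this]

theorem ua_pos (he : e ≤ d) (r : ℕ)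
    (h : finrank F (Rj F (Fin N) (d - e)) * (2 * r + finrank F (Rj F (Fin N) (d - e))) <
      2 * finrank F (Rj F (Fin N) d) + 3 * finrank F (Rj F (Fin N) (d - e))) :
    ua (N := N) K F e d r + r * finrank F (Rj F (Fin N) (d - e)) = finrank F (Rj F (Fin N) d) :=
  seq_pos (ua_succ K F e d) (ur_le K F e d) (ur_anti K F e d) (ur_strict K F e d he)
    (ur_pos K F e d he) (ua_zero K F e d) r h

theorem ua_neg (he : e ≤ d) (r : ℕ)
    (h : finrank F (Rj F (Fin N) d) < ∑ t ∈ Finset.range (r + 1),
      min (finrank F (Rj F (Fin N) (d - e))) (t + 1)) :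
    ua (N := N) K F e d r = 0 :=
  seq_neg (ua_succ K F e d) (ur_le K F e d) (ur_anti K F e d) (ur_strict K F e d he)
    (ur_pos K F e d he) (ua_zero K F e d) r h

theorem ua_defect (he : e ≤ d) (r : ℕ) (h : 1 ≤ finrank F (Rj F (Fin N) (d - e))) :
    8 * ua (N := N) K F e d r + 1 ≤
      finrank F (Rj F (Fin N) (d - e)) * finrank F (Rj F (Fin N) (d - e)) +
        8 * (finrank F (Rj F (Fin N) d) - r * finrank F (Rj F (Fin N) (d - e))) :=
  seq_defect (ua_succ K F e d) (ur_le K F e d) (ur_anti K F e d) (ur_strict K F e d he)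
    (ur_pos K F e d he) (ua_zero K F e d) h r

/-- the dimension is at least the expected one -/
theorem ua_ge (r : ℕ) : finrank F (Rj F (Fin N) d) ≤
    ua (N := N) K F e d r + r * finrank F (Rj F (Fin N) (d - e)) := by
  induction r with
  | zero => rw [ua_zero]; omega
  | succ r ih =>
    have h1 := ua_succ (N := N) K F e d r
    have h2 := ur_le (N := N) K F e d r
    have h3 : (r + 1) * finrank F (Rj F (Fin N) (d - e)) =
      r * finrank F (Rj F (Fin N) (d - e)) + finrank F (Rj F (Fin N) (d - e)) := by ring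
    omega

end Uniform

end Pool.Agent.N177.FP
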