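import Pool.Agent.N177.FP.Tr

/-!
Permutations of the generic points, and the strict decrease of the number of conditions.
-/

set_option autoImplicit false
set_option linter.unusedSectionVars false

namespace Pool.Agent.N177.FP

open MvPolynomial Module H350MG

variable {N : ℕ} (K : Type) [Field K] [CharZero K] {ι : Type} [DecidableEq ι]
  (F : Type) [Field F] [CharZero F] [Algebra (MvPolynomial (ι × Fin N) K) F]
  [IsFractionRing (MvPolynomial (ι × Fin N) K) F]

/-- the specialisation of the universal points to the generic points `s i` -/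
noncomputable def phi {r : ℕ} (s : Fin r → ι) : MvPolynomial (Fin r × Fin N) K →+* F :=
  (algebraMap (MvPolynomial (ι × Fin N) K) F).comp
    (rename (Prod.map s id) : MvPolynomial (Fin r × Fin N) K →ₐ[K] _).toRingHom

lemma phi_inj {r : ℕ} {s : Fin r → ι} (hs : Function.Injective s) :
    Function.Injective (phi (N := N) K F s) := by
  intro p q h
  have h1 := IsFractionRing.injective (MvPolynomial (ι × Fin N) K) F h
  exact rename_injective _ (hs.prodMap Function.injective_id) h1

lemma phi_X {r : ℕ} (s : Fin r → ι) (x : Fin r × Fin N) :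
    phi (N := N) K F s (X x) = (gen N K ι F).v (s x.1) x.2 := by
  show algebraMap _ F (rename (Prod.map s id) (X x)) = algebraMap _ F (X (s x.1, x.2))
  rw [rename_X]
  rfl

variable (e : ι → ℕ) (d : ℕ)

lemma V_eq_K {r : ℕ} (s : Fin r → ι) :
    (gen N K ι F).V e d (Finset.univ.image s) =
      H350MG.K (ptList (fun i => e (s i)) (fun x => phi (N := N) K F s (X x))) d := by
  ext p
  rw [PS.mem_V, mem_K]
  refine and_congr_right fun _ => ⟨?_, ?_⟩
  · intro h c hc
    obtain ⟨i, rfl⟩ := exists_of_mem_ptList hc
    have h1 := h (s i) (Finset.mem_image_of_mem s (Finset.mem_univ i))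
    have h2 : (fun c => phi (N := N) K F s (X (i, c))) = (gen N K ι F).v (s i) :=
      funext fun c => phi_X K F s (i, c)
    show (D (fun c => phi (N := N) K F s (X (i, c))) ^ e (s i)) p = 0
    rw [h2]
    exact h1
  · intro h j hj
    obtain ⟨i, _, rfl⟩ := Finset.mem_image.1 hj
    have h1 := h _ (mem_ptList (e := fun i => e (s i)) (fun x => phi (N := N) K F s (X x)) i)
    have h2 : (fun c => phi (N := N) K F s (X (i, c))) = (gen N K ι F).v (s i) :=
      funext fun c => phi_X K F s (i, c)
    have h3 : (D (fun c => phi (N := N) K F s (X (i, c))) ^ e (s i)) p = 0 := h1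
    rw [h2] at h3
    exact h3

/-- The dimension for general points over the base field. -/
theorem general_dim {r : ℕ} (s : Fin r → ι) (hs : Function.Injective s) :
    ∃ Φ : MvPolynomial (Fin r × Fin N) K, Φ ≠ 0 ∧ ∀ w : Fin r × Fin N → K, eval w Φ ≠ 0 →
      finrank K (H350MG.K (ptList (fun i => e (s i)) w) d) =
        finrank F ((gen N K ι F).V e d (Finset.univ.image s)) := by
  obtain ⟨Φ, h1, h2⟩ := compare_ge K (phi (N := N) K F s) (phi_inj K F hs) (fun i => e (s i)) d
  refine ⟨Φ, h1, fun w hw => ?_⟩
  rw [h2 w hw, V_eq_K]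

theorem finrank_V_map (π : Equiv.Perm ι) (hπ : ∀ i, e (π i) = e i) (J : Finset ι) :
    finrank F ((gen N K ι F).V e d (J.map π.toEmbedding)) =
      finrank F ((gen N K ι F).V e d J) := by
  classical
  let s : Fin J.card → ι := fun i => (J.equivFin.symm i).1
  have hs : Function.Injective s := Subtype.val_injective.comp J.equivFin.symm.injective
  have hs1 : Finset.univ.image s = J := by
    ext j
    rw [Finset.mem_image]
    constructor
    · rintro ⟨i, _, rfl⟩
      exact (J.equivFin.symm i).2
    · intro hj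
      exact ⟨J.equivFin ⟨j, hj⟩, Finset.mem_univ _, by simp [s]⟩
  have hs2 : Finset.univ.image (fun i => π (s i)) = J.map π.toEmbedding := by
    have h0 : (Finset.univ.image s).map π.toEmbedding = J.map π.toEmbedding :=
      congrArg (fun T => Finset.map π.toEmbedding T) hs1
    rw [← h0]
    ext j
    rw [Finset.mem_image, Finset.mem_map]
    constructor
    · rintro ⟨i, _, rfl⟩
      exact ⟨s i, Finset.mem_image_of_mem s (Finset.mem_univ i), rfl⟩
    · rintro ⟨y, hy, rfl⟩
      obtain ⟨i, _, rfl⟩ := Finset.mem_image.1 hy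
      exact ⟨i, Finset.mem_univ _, rfl⟩
  obtain ⟨Φ, h1, h2⟩ := general_dim (N := N) K F e d s hs
  obtain ⟨Ψ, h3, h4⟩ := general_dim (N := N) K F e d (fun i => π (s i)) (π.injective.comp hs)
  obtain ⟨w, hw⟩ : ∃ w : Fin J.card × Fin N → K, eval w (Φ * Ψ) ≠ 0 := by
    by_contra hcon
    push Not at hcon
    exact mul_ne_zero h1 h3 (MvPolynomial.funext fun w => by rw [hcon w, map_zero])
  rw [map_mul] at hw
  have h5 := h2 w (left_ne_zero_of_mul hw)
  have h6 := h4 w (right_ne_zero_of_mul hw)
  rw [hs1] at h5
  rw [hs2] at h6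
  have h7 : (fun i => e (π (s i))) = fun i => e (s i) := funext fun i => hπ (s i)
  rw [h7] at h6
  rw [← h6, h5]

theorem finrank_M_map (π : Equiv.Perm ι) (hπ : ∀ i, e (π i) = e i) (J : Finset ι) (x : ι) :
    finrank F ((gen N K ι F).M e d (J.map π.toEmbedding) (π x)) =
      finrank F ((gen N K ι F).M e d J x) := by
  have h1 := (gen N K ι F).finrank_insert e d J x
  have h2 := (gen N K ι F).finrank_insert e d (J.map π.toEmbedding) (π x)
  have h3 : insert (π x) (J.map π.toEmbedding) = (insert x J).map π.toEmbedding := by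
    rw [Finset.map_insert]
    rfl
  rw [h3, finrank_V_map K F e d π hπ, finrank_V_map K F e d π hπ] at h2
  omega

/-- The strict decrease of the number of conditions. -/
theorem step {J J' : Finset ι} {x : ι} (hx : x ∉ J') (he : e x ≤ d)
    (hV : (gen N K ι F).V e d J' ≠ ⊥)
    (hfull : finrank F ((gen N K ι F).M e d J' x) < finrank F (Rj F (Fin N) (d - e x)))
    (hπ : ∀ i ∈ J', ∃ π : Equiv.Perm ι, (∀ j, e (π j) = e j) ∧ π x = x ∧
      J.map π.toEmbedding ⊆ J'.erase i) :
    finrank F ((gen N K ι F).M e d J' x) < finrank F ((gen N K ι F).M e d J x) := by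
  by_contra hcon
  push Not at hcon
  have h1 := (gen N K ι F).growth e d hx he hV (fun i hi => by
    obtain ⟨π, hπe, hπx, hπJ⟩ := hπ i hi
    have h2 := (gen N K ι F).M_mono e d (Finset.erase_subset i J') x
    have h3 := (gen N K ι F).M_mono e d hπJ x
    have h4 := finrank_M_map (N := N) K F e d π hπe J x
    rw [hπx] at h4
    have h5 := Submodule.finrank_mono h3
    exact (Submodule.eq_of_le_of_finrank_le h2 (by omega)).ge)
  rw [h1] at hfull
  exact lt_irrefl _ hfull

end Pool.Agent.N177.FP
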