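import Pool.Agent.N177.FP.Pt

/-!
The growth theorem for generic fat points.
-/

set_option autoImplicit false
set_option linter.unusedSectionVars false

namespace Pool.Agent.N177.FP

open MvPolynomial Module H350MG
open Pool.Agent.N177.FK (cw cw_add cw_zero cw_smul cw_mul cw_sum cw_pderiv cw_X coeff_cw'
  cw_sum_der cw_hom eu eu_hom eu_add eu_smul cw_add_der cw_monomial hom_induct cw_smul_der)

/-- Points over a field with derivations of the field that separate the coordinates. -/
structure PS (N : ℕ) (Ω : Type) [Field Ω] (ι : Type) where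
  v : ι → Fin N → Ω
  δ : ι → Fin N → Derivation ℤ Ω Ω
  self : ∀ i b, δ i b (v i b) = 1
  ne : ∀ i b j c, (j ≠ i ∨ c ≠ b) → δ i b (v j c) = 0

namespace PS

variable {N : ℕ} {Ω : Type} [Field Ω] [CharZero Ω] {ι : Type} [DecidableEq ι]
  (G : PS N Ω ι) (e : ι → ℕ) (d : ℕ)

/-- the forms of degree `d` killed by the powers of the derivatives in the directions of the
points -/
def V (J : Finset ι) : Submodule Ω (MvPolynomial (Fin N) Ω) where
  carrier := {F | F ∈ Rj Ω (Fin N) d ∧ ∀ i ∈ J, (D (G.v i) ^ e i) F = 0}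
  add_mem' := by
    rintro F H ⟨hF, hF'⟩ ⟨hH, hH'⟩
    exact ⟨Submodule.add_mem _ hF hH, fun i hi => by rw [map_add, hF' i hi, hH' i hi, add_zero]⟩
  zero_mem' := ⟨Submodule.zero_mem _, fun i _ => map_zero _⟩
  smul_mem' := by
    rintro a F ⟨hF, hF'⟩
    exact ⟨Submodule.smul_mem _ _ hF, fun i hi => by rw [map_smul, hF' i hi, smul_zero]⟩

lemma mem_V {J : Finset ι} {F : MvPolynomial (Fin N) Ω} :
    F ∈ G.V e d J ↔ F ∈ Rj Ω (Fin N) d ∧ ∀ i ∈ J, (D (G.v i) ^ e i) F = 0 := Iff.rfl

lemma V_le (J : Finset ι) : G.V e d J ≤ Rj Ω (Fin N) d := fun _ h => h.1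

lemma V_mono {I J : Finset ι} (h : I ⊆ J) : G.V e d J ≤ G.V e d I :=
  fun _ hF => ⟨hF.1, fun i hi => hF.2 i (h hi)⟩

instance finV (J : Finset ι) : FiniteDimensional Ω (G.V e d J) :=
  Submodule.finiteDimensional_of_le (G.V_le e d J)

/-- the conditions imposed by the point `x` on the forms -/
noncomputable def M (J : Finset ι) (x : ι) : Submodule Ω (MvPolynomial (Fin N) Ω) :=
  (G.V e d J).map (D (G.v x) ^ e x)

lemma M_le (J : Finset ι) (x : ι) : G.M e d J x ≤ Rj Ω (Fin N) (d - e x) := by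
  rintro _ ⟨F, hF, rfl⟩
  exact Dpow_hom _ hF.1

instance finM (J : Finset ι) (x : ι) : FiniteDimensional Ω (G.M e d J x) :=
  Submodule.finiteDimensional_of_le (G.M_le e d J x)

lemma M_mono {I J : Finset ι} (h : I ⊆ J) (x : ι) : G.M e d J x ≤ G.M e d I x :=
  Submodule.map_mono (G.V_mono e d h)

/-- the dimension formula -/
lemma finrank_insert (J : Finset ι) (x : ι) :
    finrank Ω (G.V e d (insert x J)) + finrank Ω (G.M e d J x) = finrank Ω (G.V e d J) := by
  let f : G.V e d J →ₗ[Ω] MvPolynomial (Fin N) Ω := (D (G.v x) ^ e x).domRestrict (G.V e d J)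
  have h1 := LinearMap.finrank_range_add_finrank_ker f
  have h2 : LinearMap.range f = G.M e d J x := by
    ext p
    simp only [LinearMap.mem_range, M, Submodule.mem_map]
    constructor
    · rintro ⟨⟨F, hF⟩, rfl⟩
      exact ⟨F, hF, rfl⟩
    · rintro ⟨F, hF, rfl⟩
      exact ⟨⟨F, hF⟩, rfl⟩
  have h3 : (LinearMap.ker f).map (G.V e d J).subtype = G.V e d (insert x J) := by
    ext p
    simp only [Submodule.mem_map, LinearMap.mem_ker]
    constructor
    · rintro ⟨⟨F, hF⟩, h, rfl⟩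
      refine ⟨hF.1, fun i hi => ?_⟩
      rcases Finset.mem_insert.1 hi with rfl | hi
      · exact h
      · exact hF.2 i hi
    · intro hp
      exact ⟨⟨p, G.V_mono e d (Finset.subset_insert x J) hp⟩, hp.2 x (Finset.mem_insert_self _ _), rfl⟩
  have h4 : finrank Ω (LinearMap.ker f) = finrank Ω (G.V e d (insert x J)) := by
    rw [← h3]
    exact (LinearEquiv.finrank_eq (Submodule.equivMapOfInjective _
      (Submodule.injective_subtype _) _))
  rw [h2, h4] at h1
  omega

lemma δ_v_ne {i j : ι} (h : j ≠ i) (b : Fin N) (c : Fin N) : G.δ i b (G.v j c) = 0 :=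
  G.ne i b j c (Or.inl h)

lemma V_cw {J : Finset ι} {i : ι} (hi : i ∉ J) (b : Fin N) {F : MvPolynomial (Fin N) Ω}
    (hF : F ∈ G.V e d J) : cw (G.δ i b) F ∈ G.V e d J := by
  refine ⟨cw_hom _ hF.1, fun j hj => ?_⟩
  have hji : j ≠ i := by rintro rfl; exact hi hj
  rw [← cw_Dpow _ _ (fun c => G.δ_v_ne hji b c), hF.2 j hj, cw_zero]

lemma M_cw {J : Finset ι} {i x : ι} (hi : i ∉ J) (hx : i ≠ x) (b : Fin N)
    {P : MvPolynomial (Fin N) Ω} (hP : P ∈ G.M e d J x) : cw (G.δ i b) P ∈ G.M e d J x := by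
  obtain ⟨F, hF, rfl⟩ := hP
  rw [cw_Dpow _ _ (fun c => G.δ_v_ne hx.symm b c)]
  exact ⟨_, G.V_cw e d hi b hF, rfl⟩

/-- the derivation that moves the points of `S` along `x_a ∂_b` -/
noncomputable def dS (S : Finset ι) (a b : Fin N) : Derivation ℤ Ω Ω :=
  ∑ i ∈ S, G.v i a • G.δ i b

open Classical in
lemma dS_v (S : Finset ι) (a b : Fin N) {j : ι} (hj : j ∈ S) (c : Fin N) :
    G.dS S a b (G.v j c) = if c = b then G.v j a else 0 := by
  have h1 : G.dS S a b (G.v j c) = ∑ i ∈ S, G.v i a * G.δ i b (G.v j c) := by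
    unfold dS
    induction S using Finset.induction_on with
    | empty => simp
    | insert i S hi ih =>
      by_cases hjS : j ∈ S
      · rw [Finset.sum_insert hi, Finset.sum_insert hi, Derivation.add_apply, ih hjS,
          Derivation.smul_apply, smul_eq_mul]
      · have h0 : ∀ T : Finset ι, (∑ i ∈ T, G.v i a • G.δ i b) (G.v j c) =
            ∑ i ∈ T, G.v i a * G.δ i b (G.v j c) := by
          intro T
          induction T using Finset.induction_on with
          | empty => simp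
          | insert i T hi ih => rw [Finset.sum_insert hi, Finset.sum_insert hi,
              Derivation.add_apply, ih, Derivation.smul_apply, smul_eq_mul]
        exact h0 _
  rw [h1, Finset.sum_eq_single j]
  · by_cases h : c = b
    · rw [if_pos h, h, G.self, mul_one]
    · rw [if_neg h, G.ne j b j c (Or.inr h), mul_zero]
  · intro i _ hij
    rw [G.δ_v_ne hij.symm, mul_zero]
  · intro h'
    exact absurd hj h'

lemma cw_dS (S : Finset ι) (a b : Fin N) (P : MvPolynomial (Fin N) Ω) :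
    cw (G.dS S a b) P = ∑ i ∈ S, G.v i a • cw (G.δ i b) P := by
  unfold dS
  exact cw_sum_der S _ _ P

lemma V_Dl {J S : Finset ι} (hJ : J ⊆ S) (a b : Fin N) {F : MvPolynomial (Fin N) Ω}
    (hF : F ∈ G.V e d J) : Dl a b (G.dS S a b) F ∈ G.V e d J := by
  refine ⟨Submodule.add_mem _ (eu_hom a b hF.1) (cw_hom _ hF.1), fun j hj => ?_⟩
  rw [← Dl_Dpow a b _ _ (fun c => G.dS_v S a b (hJ hj) c), hF.2 j hj]
  unfold Dl eu
  rw [cw_zero, map_zero, mul_zero, add_zero]

lemma M_Dl {J S : Finset ι} {x : ι} (hJ : J ⊆ S) (hx : x ∈ S) (a b : Fin N)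
    {P : MvPolynomial (Fin N) Ω} (hP : P ∈ G.M e d J x) : Dl a b (G.dS S a b) P ∈ G.M e d J x := by
  obtain ⟨F, hF, rfl⟩ := hP
  rw [Dl_Dpow a b _ _ (fun c => G.dS_v S a b hx c)]
  exact ⟨_, G.V_Dl e d hJ a b hF, rfl⟩

open Classical in
lemma exists_eval_ne {J : Finset ι} {x : ι} (hx : x ∉ J) (hV : G.V e d J ≠ ⊥) :
    ∃ F ∈ G.V e d J, eval (G.v x) F ≠ 0 := by
  by_contra hne
  push Not at hne
  apply hV
  rw [eq_bot_iff]
  intro F hF
  rw [Submodule.mem_bot]
  refine vanish (G.v x) (G.δ x) ?_ d (G.V e d J) (fun F hF => hF.1)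
    (fun F hF b => G.V_cw e d hx b hF) hne F hF
  intro b c
  by_cases h : c = b
  · rw [if_pos h, h, G.self]
  · rw [if_neg h, G.ne x b x c (Or.inr h)]

lemma M_ne_bot {J : Finset ι} {x : ι} (hx : x ∉ J) (he : e x ≤ d) (hV : G.V e d J ≠ ⊥) :
    G.M e d J x ≠ ⊥ := by
  obtain ⟨F, hF, h0⟩ := G.exists_eval_ne e d hx hV
  intro h
  have h1 : (D (G.v x) ^ e x) F ∈ G.M e d J x := ⟨F, hF, rfl⟩
  rw [h, Submodule.mem_bot] at h1
  exact eval_Dpow_ne hF.1 (G.v x) h0 _ he (by rw [h1, map_zero])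

/-- The growth theorem: if the number of conditions imposed by a new point does not change
when any of the points is removed, then the new point imposes the expected number of
conditions. -/
theorem growth {J : Finset ι} {x : ι} (hx : x ∉ J) (he : e x ≤ d) (hV : G.V e d J ≠ ⊥)
    (h : ∀ i ∈ J, G.M e d (J.erase i) x ≤ G.M e d J x) :
    G.M e d J x = Rj Ω (Fin N) (d - e x) := by
  refine le_antisymm (G.M_le e d J x) ?_
  obtain ⟨F, hF, h0⟩ := G.exists_eval_ne e d hx hV
  have hP0 : (D (G.v x) ^ e x) F ∈ G.M e d J x := ⟨F, hF, rfl⟩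
  have hev := eval_Dpow_ne hF.1 (G.v x) h0 _ he
  have hcw : ∀ i ∈ J, ∀ b, ∀ P ∈ G.M e d J x, cw (G.δ i b) P ∈ G.M e d J x := by
    intro i hi b P hP
    have h1 := G.M_mono e d (Finset.erase_subset i J) x hP
    have hix : i ≠ x := by rintro rfl; exact hx hi
    exact h i hi (G.M_cw e d (Finset.notMem_erase i J) hix b h1)
  have hDl : ∀ P ∈ G.M e d J x, ∀ a b,
      eu a b P + G.v x a • cw (G.δ x b) P ∈ G.M e d J x := by
    intro P hP a b
    have h1 := G.M_Dl e d (S := insert x J) (Finset.subset_insert x J)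
      (Finset.mem_insert_self x J) a b hP
    unfold Dl at h1
    rw [cw_dS, Finset.sum_insert hx] at h1
    have h2 : ∑ i ∈ J, G.v i a • cw (G.δ i b) P ∈ G.M e d J x :=
      Submodule.sum_mem _ fun i hi => Submodule.smul_mem _ _ (hcw i hi b P hP)
    have h3 := Submodule.sub_mem _ h1 h2
    convert h3 using 1
    abel
  by_cases hv : ∃ c, G.v x c ≠ 0
  · obtain ⟨c, hc⟩ := hv
    refine chain (G.v x) c hc _ _ (G.M_le e d J x) ?_ _ hP0 hev
    intro P hP a b
    have h1 := Submodule.smul_mem _ (G.v x c) (hDl P hP a b)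
    have h2 := Submodule.smul_mem _ (G.v x a) (hDl P hP c b)
    have h3 := Submodule.sub_mem _ h1 h2
    convert h3 using 1
    unfold lam eu
    rw [smul_add, smul_add, smul_smul, smul_smul, mul_comm (G.v x a) (G.v x c)]
    simp only [smul_eq_C_mul]
    ring
  · push Not at hv
    have hN : IsEmpty (Fin N) := by
      by_contra hne
      rw [not_isEmpty_iff] at hne
      obtain ⟨b⟩ := hne
      have h1 := G.self x b
      rw [hv b, map_zero] at h1
      exact zero_ne_one h1
    intro Q hQ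
    have h4 : ∀ p : MvPolynomial (Fin N) Ω, p = C (eval (G.v x) p) := by
      intro p
      obtain ⟨t, rfl⟩ := C_surjective (R := Ω) (Fin N) p
      rw [eval_C]
    set P := (D (G.v x) ^ e x) F with hP
    have h5 : Q = (eval (G.v x) Q / eval (G.v x) P) • P := by
      rw [h4 P, smul_eq_C_mul, eval_C, ← C_mul, div_mul_cancel₀ _ hev]
      exact h4 Q
    rw [h5]
    exact Submodule.smul_mem _ _ hP0

end PS

end Pool.Agent.N177.FP
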