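import Pool.Agent.N177.FP.Sys
import Pool.Agent.N177.FK.Inst
import Pool.Agent.TH206.Fro.Lin2

/-!
The generic points, and the comparison with general points over the base field.
-/

set_option autoImplicit false
set_option linter.unusedSectionVars false

namespace Pool.Agent.N177.FP

open MvPolynomial Module H350MG
open Pool.Agent.TH206.Fro (Dg tp tp_hom coeff_tp tp_apply exists_minor rank_ge_of_minor)
open Pool.Agent.N177.FK (extDer extDer_algebraMap IsDer deg_of_mem)

section Univ

variable {N : ℕ} {A : Type} [CommRing A] {B : Type} [CommRing B]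

/-- the directional derivative over a ring -/
noncomputable def DA (w : Fin N → A) (p : MvPolynomial (Fin N) A) : MvPolynomial (Fin N) A :=
  ∑ i, w i • pderiv i p

lemma map_DA (φ : A →+* B) (w : Fin N → A) (p : MvPolynomial (Fin N) A) :
    map φ (DA w p) = DA (fun i => φ (w i)) (map φ p) := by
  unfold DA
  rw [map_sum]
  refine Finset.sum_congr rfl fun i _ => ?_
  rw [smul_eq_C_mul, map_mul, map_C, ← pderiv_map, smul_eq_C_mul]

lemma map_DA_iter (φ : A →+* B) (w : Fin N → A) (k : ℕ) (p : MvPolynomial (Fin N) A) :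
    map φ ((DA w)^[k] p) = (DA (fun i => φ (w i)))^[k] (map φ p) := by
  induction k generalizing p with
  | zero => rfl
  | succ k ih => rw [Function.iterate_succ_apply, Function.iterate_succ_apply, ih, map_DA]

/-- the coefficients of the powers of the directional derivative -/
noncomputable def cf (w : Fin N → A) (k : ℕ) (a b : Fin N →₀ ℕ) : A :=
  MvPolynomial.coeff b ((DA w)^[k] (monomial a 1))

lemma map_cf (φ : A →+* B) (w : Fin N → A) (k : ℕ) (a b : Fin N →₀ ℕ) :
    φ (cf w k a b) = cf (fun i => φ (w i)) k a b := by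
  unfold cf
  rw [← coeff_map, map_DA_iter, map_monomial, map_one]

/-- the matrix of the conditions imposed by the points -/
noncomputable def Mt {r : ℕ} (e : Fin r → ℕ) (d : ℕ) (w : Fin r × Fin N → A) :
    Matrix (Σ i : Fin r, Dg N (d - e i)) (Dg N d) A :=
  fun x a => cf (fun c => w (x.1, c)) (e x.1) a.1 x.2.1

lemma map_Mt (φ : A →+* B) {r : ℕ} (e : Fin r → ℕ) (d : ℕ) (w : Fin r × Fin N → A) :
    (Mt e d w).map φ = Mt e d (fun x => φ (w x)) := by
  ext x a
  exact map_cf φ _ _ _ _

lemma det_Mt (φ : A →+* B) {r : ℕ} (e : Fin r → ℕ) (d : ℕ) (w : Fin r × Fin N → A) {ρ : ℕ}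
    (f : Fin ρ → Σ i : Fin r, Dg N (d - e i)) (g : Fin ρ → Dg N d) :
    φ ((Mt e d w).submatrix f g).det = ((Mt e d (fun x => φ (w x))).submatrix f g).det := by
  rw [RingHom.map_det, ← map_Mt]
  rfl

end Univ

section Fld

variable {N : ℕ} {F : Type} [Field F] [CharZero F]

lemma DA_eq (w : Fin N → F) (p : MvPolynomial (Fin N) F) : DA w p = D w p := (D_apply w p).symm

lemma DA_iter_eq (w : Fin N → F) (k : ℕ) (p : MvPolynomial (Fin N) F) :
    (DA w)^[k] p = (D w ^ k) p := by
  induction k generalizing p with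
  | zero => rfl
  | succ k ih => rw [Function.iterate_succ_apply, ih, DA_eq, pow_succ, Module.End.mul_apply]

lemma eq_zero_of_coeff {k : ℕ} {p : MvPolynomial (Fin N) F} (hp : p ∈ Rj F (Fin N) k)
    (h : ∀ b : Dg N k, MvPolynomial.coeff b.1 p = 0) : p = 0 := by
  ext b
  rw [coeff_zero]
  by_contra hne
  exact hne (h ⟨b, deg_of_mem hp hne⟩)

theorem finrank_K_eq {r : ℕ} (e : Fin r → ℕ) (d : ℕ) (w : Fin r × Fin N → F) :
    finrank F (H350MG.K (ptList e w) d) + (Mt e d w).rank = Fintype.card (Dg N d) := by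
  classical
  let Ψ : (Dg N d → F) →ₗ[F] MvPolynomial (Fin N) F := tp (fun a : Dg N d => a.1)
  have hΨc : ∀ x (a : Dg N d), MvPolynomial.coeff a.1 (Ψ x) = x a := fun x a =>
    coeff_tp Subtype.val_injective x a
  have hΨi : Function.Injective Ψ := by
    intro x y hxy
    funext a
    rw [← hΨc x a, hxy, hΨc]
  have hΨh : ∀ x, Ψ x ∈ Rj F (Fin N) d := fun x => tp_hom (fun a => a.2) x
  have hΨs : ∀ p ∈ Rj F (Fin N) d, Ψ (fun a => MvPolynomial.coeff a.1 p) = p := by
    intro p hp
    have h1 := Submodule.sub_mem _ (hΨh fun a => MvPolynomial.coeff a.1 p) hp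
    have h2 := eq_zero_of_coeff h1 fun b => by rw [coeff_sub, hΨc, sub_self]
    exact sub_eq_zero.1 h2
  have hco : ∀ (x : Dg N d → F) (i : Fin r) (b : Fin N →₀ ℕ),
      MvPolynomial.coeff b ((D (fun c => w (i, c)) ^ e i) (Ψ x)) =
        ∑ a : Dg N d, cf (fun c => w (i, c)) (e i) a.1 b * x a := by
    intro x i b
    have h1 : Ψ x = ∑ a : Dg N d, x a • monomial a.1 (1 : F) := by
      show tp _ x = _
      rw [tp_apply]
      refine Finset.sum_congr rfl fun a _ => ?_
      rw [smul_monomial, smul_eq_mul, mul_one]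
    rw [h1, map_sum, coeff_sum]
    refine Finset.sum_congr rfl fun a _ => ?_
    rw [map_smul, MvPolynomial.coeff_smul, smul_eq_mul, mul_comm]
    congr 1
    unfold cf
    rw [DA_iter_eq]
  have hK : H350MG.K (ptList e w) d = (LinearMap.ker (Mt e d w).mulVecLin).map Ψ := by
    ext p
    rw [mem_K, Submodule.mem_map]
    constructor
    · rintro ⟨hp, hp2⟩
      refine ⟨fun a => MvPolynomial.coeff a.1 p, ?_, hΨs p hp⟩
      rw [LinearMap.mem_ker, Matrix.mulVecLin_apply]
      funext x
      have h1 := hco (fun a => MvPolynomial.coeff a.1 p) x.1 x.2.1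
      rw [hΨs p hp, hp2 _ (mem_ptList w x.1), coeff_zero] at h1
      rw [Pi.zero_apply, h1]
      rfl
    · rintro ⟨x, hx, rfl⟩
      refine ⟨hΨh x, fun c hc => ?_⟩
      obtain ⟨i, rfl⟩ := exists_of_mem_ptList hc
      refine eq_zero_of_coeff (Dpow_hom (e i) (hΨh x)) fun b => ?_
      show MvPolynomial.coeff b.1 ((D (fun c => w (i, c)) ^ e i) (Ψ x)) = 0
      rw [hco]
      rw [LinearMap.mem_ker, Matrix.mulVecLin_apply] at hx
      exact congrFun hx ⟨i, b⟩
  have h1 := LinearMap.finrank_range_add_finrank_ker (Mt e d w).mulVecLin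
  rw [Module.finrank_fintype_fun_eq_card] at h1
  have h2 : finrank F (H350MG.K (ptList e w) d) =
      finrank F (LinearMap.ker (Mt e d w).mulVecLin) := by
    rw [hK]
    exact (LinearEquiv.finrank_eq (Submodule.equivMapOfInjective Ψ hΨi _)).symm
  rw [h2, add_comm]
  exact h1

end Fld

section Compare

variable {N : ℕ} (K : Type) [Field K] [CharZero K] {F : Type} [Field F] [CharZero F] {r : ℕ}
  (φ : MvPolynomial (Fin r × Fin N) K →+* F) (hφ : Function.Injective φ)

include hφ

/-- the universal point has the least dimension -/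
theorem compare_le (e : Fin r → ℕ) (d : ℕ) (w : Fin r × Fin N → K) :
    finrank F (H350MG.K (ptList e (fun x => φ (X x))) d) ≤
      finrank K (H350MG.K (ptList e w) d) := by
  have h1 := finrank_K_eq e d w
  have h2 := finrank_K_eq e d (fun x => φ (X x))
  obtain ⟨ρ, hρ⟩ : ∃ ρ, ρ = (Mt e d w).rank := ⟨_, rfl⟩
  obtain ⟨f, g, hfg⟩ := exists_minor (Mt e d w) ρ hρ.le
  have h3 : ρ ≤ (Mt e d (fun x => φ (X x))).rank := by
    refine rank_ge_of_minor _ _ f g ?_
    rw [← det_Mt φ]
    intro h0
    have h5 := hφ (h0.trans (map_zero φ).symm)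
    apply hfg
    have h6 := det_Mt (MvPolynomial.eval w) e d X f g
    simp only [eval_X] at h6
    rw [← h6, h5, map_zero]
  omega

theorem compare_ge (e : Fin r → ℕ) (d : ℕ) :
    ∃ Φ : MvPolynomial (Fin r × Fin N) K, Φ ≠ 0 ∧ ∀ w : Fin r × Fin N → K, eval w Φ ≠ 0 →
      finrank K (H350MG.K (ptList e w) d) =
        finrank F (H350MG.K (ptList e (fun x => φ (X x))) d) := by
  obtain ⟨ρ, hρ⟩ : ∃ ρ, ρ = (Mt e d (fun x => φ (X x))).rank := ⟨_, rfl⟩
  obtain ⟨f, g, hfg⟩ := exists_minor (Mt e d (fun x => φ (X x))) ρ hρ.le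
  rw [← det_Mt φ] at hfg
  refine ⟨((Mt e d X).submatrix f g).det, ?_, ?_⟩
  · intro h0
    apply hfg
    rw [h0, map_zero]
  · intro w hw
    refine le_antisymm ?_ (compare_le K φ hφ e d w)
    have h1 := finrank_K_eq e d w
    have h2 := finrank_K_eq e d (fun x => φ (X x))
    have h3 : ρ ≤ (Mt e d w).rank := by
      refine rank_ge_of_minor _ _ f g ?_
      have h6 := det_Mt (MvPolynomial.eval w) e d X f g
      simp only [eval_X] at h6
      rw [← h6]
      exact hw
    omega

end Compare

section Gen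

variable (N : ℕ) (K : Type) [Field K] [CharZero K] (ι : Type) [DecidableEq ι]
  (F : Type) [Field F] [Algebra (MvPolynomial (ι × Fin N) K) F]
  [IsFractionRing (MvPolynomial (ι × Fin N) K) F]

/-- the derivative with respect to a coordinate -/
noncomputable def d0 (s : ι × Fin N) : MvPolynomial (ι × Fin N) K →+ F :=
  (algebraMap (MvPolynomial (ι × Fin N) K) F).toAddMonoidHom.comp
    (pderiv s : Derivation K (MvPolynomial (ι × Fin N) K)
      (MvPolynomial (ι × Fin N) K)).toLinearMap.toAddMonoidHom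

omit [IsFractionRing (MvPolynomial (ι × Fin N) K) F] in
lemma d0_der (s : ι × Fin N) : IsDer (d0 N K ι F s) := by
  intro x y
  show algebraMap _ F (pderiv s (x * y)) = _ * algebraMap _ F (pderiv s y) +
    _ * algebraMap _ F (pderiv s x)
  rw [pderiv_mul, map_add, map_mul, map_mul]
  ring

/-- The generic points. -/
noncomputable def gen : PS N F ι where
  v i a := algebraMap (MvPolynomial (ι × Fin N) K) F (X (i, a))
  δ i b := extDer (d0 N K ι F (i, b)) (d0_der N K ι F (i, b))
  self i b := by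
    rw [extDer_algebraMap]
    show algebraMap _ F (pderiv (i, b) (X (i, b))) = 1
    rw [pderiv_X_self, map_one]
  ne i b j c h := by
    rw [extDer_algebraMap]
    show algebraMap _ F (pderiv (i, b) (X (j, c))) = 0
    rw [pderiv_X_of_ne, map_zero]
    intro h'
    rw [Prod.mk.injEq] at h'
    rcases h with h | h
    · exact h h'.1
    · exact h h'.2

end Gen

end Pool.Agent.N177.FP
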